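import Pool.Agent.LibT44.Defs

namespace T44

theorem a1_nat (n : ℕ) : n ≠ 0 → ∃ α β u : ℕ, 1 ≤ α ∧ 1 ≤ β ∧ Squarefree α ∧
    Squarefree β ∧ Nat.Coprime α β ∧ u ≠ 0 ∧ n = α * β ^ 2 * u ^ 3 := by
  induction n using induction_on_primes with
  | zero => intro h; exact absurd rfl h
  | one =>
    intro _
    exact ⟨1, 1, 1, le_rfl, le_rfl, squarefree_one, squarefree_one, Nat.coprime_one_left 1, one_ne_zero,
      by norm_num⟩
  | prime_mul p n hp ih =>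
    intro hpn
    have hn : n ≠ 0 := fun h => hpn (by rw [h, mul_zero])
    obtain ⟨α, β, u, hα, hβ, sα, sβ, hc, hu, hnn⟩ := ih hn
    by_cases h1 : p ∣ α
    · obtain ⟨α', rfl⟩ := h1
      have hα' : 1 ≤ α' := Nat.pos_of_ne_zero (by rintro rfl; simp at hα)
      have hpβ : Nat.Coprime p β := Nat.Coprime.coprime_mul_right hc
      have hα'β : Nat.Coprime α' β := Nat.Coprime.coprime_mul_left hc
      have hpα' : Nat.Coprime p α' := Nat.coprime_of_squarefree_mul sα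
      refine ⟨α', β * p, u, hα', Nat.mul_pos (by omega) hp.pos, sα.of_mul_right, ?_, ?_, hu, ?_⟩
      · rw [Nat.squarefree_mul hpβ.symm]
        exact ⟨sβ, hp.prime.squarefree⟩
      · exact Nat.Coprime.mul_right hα'β hpα'.symm
      · rw [hnn]
        ring
    · by_cases h2 : p ∣ β
      · obtain ⟨β', rfl⟩ := h2
        have hβ' : 1 ≤ β' := Nat.pos_of_ne_zero (by rintro rfl; simp at hβ)
        refine ⟨α, β', u * p, hα, hβ', sα, sβ.of_mul_right, Nat.Coprime.coprime_mul_left_right hc,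
          mul_ne_zero hu hp.ne_zero, ?_⟩
        rw [hnn]
        ring
      · have hpα : Nat.Coprime p α := (Nat.Prime.coprime_iff_not_dvd hp).2 h1
        have hpβ : Nat.Coprime p β := (Nat.Prime.coprime_iff_not_dvd hp).2 h2
        refine ⟨α * p, β, u, Nat.mul_pos (by omega) hp.pos, hβ, ?_, sβ, ?_, hu, ?_⟩
        · rw [Nat.squarefree_mul hpα.symm]
          exact ⟨sα, hp.prime.squarefree⟩
        · exact Nat.Coprime.mul_left hc hpβ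
        · rw [hnn]
          ring

/-- Row A1a. Every nonzero integer is `α β² u³` with `α, β ≥ 1` squarefree and coprime. Proof: strong induction
on `|y|`, or: `|y| = n`; `β` = product of the primes with `v_p(n) = 2` mod 3, `α` = product of the primes with
`v_p(n) = 1` mod 3, `u = ± ∏ p^(v_p(n)/3)` (`Nat.factorization`). Induction version (`Nat.recOnPosPrimePosCoprime` or
`induction_on_primes`): multiplying `α β² u³` by a prime `p`: if `p ∤ αβ`: `(αp, β, u)`; if `p ∣ α`: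
`(α/p, βp, u)`; if `p ∣ β`: `(α, β/p, u p)`. -/
theorem cube_class (y : ℤ) (hy : y ≠ 0) : ∃ (α β : ℕ) (u : ℤ), 1 ≤ α ∧ 1 ≤ β ∧ Squarefree α ∧
    Squarefree β ∧ Nat.Coprime α β ∧ u ≠ 0 ∧ y = α * (β : ℤ) ^ 2 * u ^ 3 := by
  obtain ⟨α, β, u, hα, hβ, sα, sβ, hc, hu, hn⟩ := a1_nat y.natAbs (Int.natAbs_ne_zero.2 hy)
  have hz : ((y.natAbs : ℕ) : ℤ) = α * (β : ℤ) ^ 2 * (u : ℤ) ^ 3 := by
    rw [hn]
    push_cast
    ring
  rcases Int.natAbs_eq y with h | h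
  · refine ⟨α, β, u, hα, hβ, sα, sβ, hc, by exact_mod_cast hu, ?_⟩
    rw [h, hz]
  · refine ⟨α, β, -(u : ℤ), hα, hβ, sα, sβ, hc, neg_ne_zero.2 (by exact_mod_cast hu), ?_⟩
    rw [h, hz]
    ring

/-- `α² β` is cube free -/
theorem a1_cubefree {α β : ℕ} (sα : Squarefree α) (sβ : Squarefree β) (hc : Nat.Coprime α β) {p : ℕ}
    (hp : p.Prime) (h : p ^ 3 ∣ α ^ 2 * β) : False := by
  by_cases h1 : p ∣ α
  · have hpβ : Nat.Coprime p β := Nat.Coprime.coprime_dvd_left h1 hc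
    have h2 : p ^ 3 ∣ α ^ 2 := (Nat.Coprime.pow_left 3 hpβ).dvd_of_dvd_mul_right h
    obtain ⟨α', rfl⟩ := h1
    have hpα' : Nat.Coprime p α' := Nat.coprime_of_squarefree_mul sα
    have h3 : p ^ 2 * p ∣ p ^ 2 * α' ^ 2 := by
      have e1 : p ^ 2 * p = p ^ 3 := by ring
      have e2 : p ^ 2 * α' ^ 2 = (p * α') ^ 2 := by ring
      rw [e1, e2]
      exact h2
    have h4 : p ∣ α' ^ 2 := Nat.dvd_of_mul_dvd_mul_left (pow_pos hp.pos 2) h3
    have h5 : p ∣ α' := hp.dvd_of_dvd_pow h4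
    have h6 : p ∣ 1 := hpα' ▸ Nat.dvd_gcd dvd_rfl h5
    exact hp.one_lt.ne' (Nat.dvd_one.1 h6)
  · have hpα : Nat.Coprime p α := (Nat.Prime.coprime_iff_not_dvd hp).2 h1
    have h2 : p ^ 3 ∣ β := (Nat.Coprime.pow_left 3 (Nat.Coprime.pow_right 2 hpα)).dvd_of_dvd_mul_left h
    have h3 : p * p ∣ β := by
      refine dvd_trans ?_ h2
      exact ⟨p, by ring⟩
    exact hp.one_lt.ne' (Nat.isUnit_iff.1 (sβ p h3))

theorem a1_dvd {α β : ℕ} (sα : Squarefree α) (sβ : Squarefree β) (hc : Nat.Coprime α β) (k x : ℤ)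
    (hk : k ≠ 0) (h : k ^ 3 ∣ ((α : ℤ) ^ 2 * β) * x ^ 3) : k ∣ x := by
  have hg0 : 0 < k.gcd x := Int.gcd_pos_of_ne_zero_left x hk
  obtain ⟨k', x', hcop, hk', hx'⟩ := Int.exists_gcd_one hg0
  have hgz : ((k.gcd x : ℕ) : ℤ) ≠ 0 := by exact_mod_cast hg0.ne'
  have h1 : ((k.gcd x : ℕ) : ℤ) ^ 3 * k' ^ 3 ∣
      ((k.gcd x : ℕ) : ℤ) ^ 3 * (((α : ℤ) ^ 2 * β) * x' ^ 3) := by
    have e1 : ((k.gcd x : ℕ) : ℤ) ^ 3 * k' ^ 3 = k ^ 3 := by
      conv_rhs => rw [hk']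
      ring
    have e2 : ((k.gcd x : ℕ) : ℤ) ^ 3 * (((α : ℤ) ^ 2 * β) * x' ^ 3) = ((α : ℤ) ^ 2 * β) * x ^ 3 := by
      conv_rhs => rw [hx']
      ring
    rw [e1, e2]
    exact h
  have h2 : k' ^ 3 ∣ ((α : ℤ) ^ 2 * β) * x' ^ 3 :=
    Int.dvd_of_mul_dvd_mul_left (pow_ne_zero 3 hgz) h1
  have h3 : IsCoprime (k' ^ 3) (x' ^ 3) := (Int.isCoprime_iff_gcd_eq_one.2 hcop).pow
  have h4 : k' ^ 3 ∣ (α : ℤ) ^ 2 * β := h3.dvd_of_dvd_mul_right h2
  have h5 : k'.natAbs = 1 := by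
    by_contra hne
    obtain ⟨p, hp, hpd⟩ := Nat.exists_prime_and_dvd hne
    have h6 : k'.natAbs ^ 3 ∣ α ^ 2 * β := by
      have h7 := Int.natAbs_dvd_natAbs.2 h4
      rw [Int.natAbs_pow, Int.natAbs_mul, Int.natAbs_pow, Int.natAbs_natCast, Int.natAbs_natCast] at h7
      exact h7
    exact a1_cubefree sα sβ hc hp ((pow_dvd_pow_of_dvd hpd 3).trans h6)
  have h6 : IsUnit k' := Int.isUnit_iff_natAbs_eq.2 h5
  obtain ⟨w, hw⟩ : k' ∣ x' := h6.dvd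
  exact ⟨w, by linear_combination hx' + ((k.gcd x : ℕ) : ℤ) * hw - w * hk'⟩

/-- Row A1b (descent). `cube_class` for `y` (`x ≠ 0` gives `y ≠ 0`). `y₂ := y + a x + b`: `y y₂ = x³`, so
`(αβu)³ y₂ = α²β x³`. Then `αβu ∣ x`: for a prime `l` with `v_l(x) < v_l(αβu)` one would have
`3 (v_l(αβu) - v_l(x)) ≤ v_l(α²β) ≤ 2`. (Or: `Int.pow_dvd_pow_iff`-style lemma: `k³ ∣ c x³` with `c` cube free
implies `k ∣ x`.) `x = αβu v`, `y₂ = α²β v³`, and `b = y₂ - y - a x = αβ (αv³ - βu³ - a u v)`. -/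
theorem descent (a b x y : ℤ) (hx : x ≠ 0) (h : y * (y + a * x + b) = x ^ 3) :
    ∃ (α β : ℕ) (u v : ℤ), 1 ≤ α ∧ 1 ≤ β ∧ Squarefree α ∧ Squarefree β ∧ Nat.Coprime α β ∧
      u ≠ 0 ∧ v ≠ 0 ∧ x = α * β * u * v ∧ b = (α : ℤ) * β * F α β (a, u, v) := by
  have hy : y ≠ 0 := by
    rintro rfl
    rw [zero_mul] at h
    exact hx (pow_eq_zero_iff (by norm_num) |>.1 h.symm)
  obtain ⟨α, β, u, hα, hβ, sα, sβ, hc, hu, hyy⟩ := cube_class y hy
  have hα0 : (α : ℤ) ≠ 0 := by exact_mod_cast (by omega : α ≠ 0)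
  have hβ0 : (β : ℤ) ≠ 0 := by exact_mod_cast (by omega : β ≠ 0)
  have hk : (α : ℤ) * β * u ≠ 0 := mul_ne_zero (mul_ne_zero hα0 hβ0) hu
  obtain ⟨v, hv⟩ : (α : ℤ) * β * u ∣ x := by
    refine a1_dvd sα sβ hc _ _ hk ⟨y + a * x + b, ?_⟩
    rw [← h]
    nth_rewrite 1 [hyy]
    ring
  have hv0 : v ≠ 0 := by
    rintro rfl
    rw [mul_zero] at hv
    exact hx hv
  have hy2 : y + a * x + b = (α : ℤ) ^ 2 * β * v ^ 3 := by
    have hne : (α : ℤ) * β ^ 2 * u ^ 3 ≠ 0 := by rw [← hyy]; exact hy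
    apply mul_left_cancel₀ hne
    rw [← hyy, h, hv]
    rw [hyy]
    ring
  refine ⟨α, β, u, v, hα, hβ, sα, sβ, hc, hu, hv0, hv, ?_⟩
  have hb : b = (α : ℤ) ^ 2 * β * v ^ 3 - y - a * x := by linarith
  rw [hb, hyy, hv]
  unfold F
  ring

end T44
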