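import Pool.Agent.LibT44.Defs
import Pool.Agent.LibHLP.DivBound

namespace T44

open Finset

/-- the values of `a` -/
noncomputable def a2_A (H : ℕ) (x y : ℤ) : Finset ℤ :=
  (Icc (-(H : ℤ)) H).filter fun a => |x ^ 3 / y - y - a * x| ≤ (H : ℤ) ^ 3

theorem a2_card_A (H : ℕ) (x y : ℤ) (hx : x ≠ 0) :
    ((a2_A H x y).card : ℝ) ≤ 2 * (H : ℝ) ^ 3 / |(x : ℝ)| + 1 := by
  have hxr : 0 < |(x : ℝ)| := abs_pos.2 (by exact_mod_cast hx)
  rcases (a2_A H x y).eq_empty_or_nonempty with h0 | h0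
  · rw [h0, card_empty, Nat.cast_zero]
    positivity
  · set a0 := (a2_A H x y).min' h0 with ha0
    set a1 := (a2_A H x y).max' h0 with ha1
    have hm0 : a0 ∈ a2_A H x y := min'_mem _ _
    have hm1 : a1 ∈ a2_A H x y := max'_mem _ _
    have hle : a0 ≤ a1 := min'_le _ _ hm1
    have hsub : a2_A H x y ⊆ Icc a0 a1 := fun a ha => mem_Icc.2 ⟨min'_le _ _ ha, le_max' _ _ ha⟩
    have hcard : ((a2_A H x y).card : ℤ) ≤ a1 + 1 - a0 := by
      have h1 := card_le_card hsub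
      rw [Int.card_Icc] at h1
      have h2 : ((a1 + 1 - a0).toNat : ℤ) = a1 + 1 - a0 := Int.toNat_of_nonneg (by omega)
      rw [← h2]
      exact_mod_cast h1
    have hb0 := (mem_filter.1 hm0).2
    have hb1 := (mem_filter.1 hm1).2
    have h3 : |(a1 - a0) * x| ≤ 2 * (H : ℤ) ^ 3 := by
      have e : (a1 - a0) * x = (x ^ 3 / y - y - a0 * x) - (x ^ 3 / y - y - a1 * x) := by ring
      rw [e]
      exact (abs_sub _ _).trans (by linarith)
    rw [abs_mul, abs_of_nonneg (by linarith : (0 : ℤ) ≤ a1 - a0)] at h3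
    have h4 : ((a1 : ℝ) - a0) * |(x : ℝ)| ≤ 2 * (H : ℝ) ^ 3 := by exact_mod_cast h3
    have h5 : (a1 : ℝ) - a0 ≤ 2 * (H : ℝ) ^ 3 / |(x : ℝ)| := by
      rw [le_div_iff₀ hxr]
      exact h4
    have h6 : ((a2_A H x y).card : ℝ) ≤ (a1 : ℝ) + 1 - a0 := by exact_mod_cast hcard
    linarith

/-- the pairs -/
noncomputable def a2_U (H : ℕ) : Finset (ℤ × ℤ) :=
  (Icc 1 (36 * H ^ 3)).biUnion fun n => ({1, -1} : Finset ℤ).biUnion fun s =>
    ({1, -1} : Finset ℤ).biUnion fun t => (Nat.divisors (n ^ 3)).biUnion fun d =>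
      (a2_A H (s * n) (t * d)).image fun a => (a, (s * n) ^ 3 / (t * d) - t * d - a * (s * n))

theorem a2_sign (y : ℤ) : ∃ t ∈ ({1, -1} : Finset ℤ), y = t * (y.natAbs : ℤ) := by
  rcases Int.natAbs_eq y with h | h
  · exact ⟨1, by simp, by rw [one_mul]; exact h⟩
  · exact ⟨-1, by simp, by rw [neg_one_mul]; exact h⟩

theorem a2_mem (H : ℕ) (z : ℤ × ℤ) (h1 : |z.1| ≤ (H : ℤ)) (h2 : |z.2| ≤ (H : ℤ) ^ 3) (x y : ℤ)
    (hx : x ≠ 0) (hxH : |x| ≤ 36 * (H : ℤ) ^ 3) (h : y * (y + z.1 * x + z.2) = x ^ 3) :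
    z ∈ a2_U H := by
  have hx3 : x ^ 3 ≠ 0 := pow_ne_zero 3 hx
  have hy : y ≠ 0 := by
    rintro rfl
    rw [zero_mul] at h
    exact hx3 h.symm
  obtain ⟨s, hs, hs'⟩ := a2_sign x
  obtain ⟨t, ht, ht'⟩ := a2_sign y
  have hdiv : x ^ 3 / y = y + z.1 * x + z.2 := by
    rw [← h]
    exact Int.mul_ediv_cancel_left _ hy
  unfold a2_U
  rw [mem_biUnion]
  refine ⟨x.natAbs, ?_, ?_⟩
  · rw [mem_Icc]
    refine ⟨Nat.one_le_iff_ne_zero.2 (Int.natAbs_ne_zero.2 hx), ?_⟩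
    have h3 : ((x.natAbs : ℕ) : ℤ) ≤ 36 * (H : ℤ) ^ 3 := by
      rw [Int.natCast_natAbs]
      exact hxH
    exact_mod_cast h3
  rw [mem_biUnion]
  refine ⟨s, hs, ?_⟩
  rw [mem_biUnion]
  refine ⟨t, ht, ?_⟩
  rw [mem_biUnion]
  refine ⟨y.natAbs, ?_, ?_⟩
  · rw [Nat.mem_divisors]
    refine ⟨?_, pow_ne_zero 3 (Int.natAbs_ne_zero.2 hx)⟩
    rw [← Int.natAbs_pow]
    exact Int.natAbs_dvd_natAbs.2 ⟨_, h.symm⟩
  rw [← hs', ← ht', mem_image]
  refine ⟨z.1, ?_, ?_⟩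
  · unfold a2_A
    rw [mem_filter, mem_Icc]
    refine ⟨abs_le.1 h1, ?_⟩
    have e : x ^ 3 / y - y - z.1 * x = z.2 := by rw [hdiv]; ring
    rw [e]
    exact h2
  · refine Prod.ext rfl ?_
    show x ^ 3 / y - y - z.1 * x = z.2
    rw [hdiv]
    ring

theorem a2_card_U (H : ℕ) : ((a2_U H).card : ℝ) ≤
    ∑ n ∈ Icc 1 (36 * H ^ 3), 4 * ((Nat.divisors (n ^ 3)).card : ℝ) * (2 * (H : ℝ) ^ 3 / n + 1) := by
  have h1 : ((a2_U H).card : ℝ) ≤ ∑ n ∈ Icc 1 (36 * H ^ 3), (((({1, -1} : Finset ℤ).biUnion fun s =>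
    ({1, -1} : Finset ℤ).biUnion fun t => (Nat.divisors (n ^ 3)).biUnion fun d =>
      (a2_A H (s * n) (t * d)).image fun a =>
        (a, (s * n) ^ 3 / (t * d) - t * d - a * (s * n))).card : ℕ) : ℝ) := by
    rw [← Nat.cast_sum]
    exact_mod_cast card_biUnion_le
  refine h1.trans (sum_le_sum fun n hn => ?_)
  have hn0 : n ≠ 0 := by
    rw [mem_Icc] at hn
    omega
  have hB : ∀ s ∈ ({1, -1} : Finset ℤ), ∀ t : ℤ, ∀ d : ℕ,
      (((a2_A H (s * n) (t * d)).image fun a =>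
        (a, (s * n) ^ 3 / (t * d) - t * d - a * (s * n))).card : ℝ) ≤ 2 * (H : ℝ) ^ 3 / n + 1 := by
    intro s hs t d
    have hsn : s * (n : ℤ) ≠ 0 := by
      refine mul_ne_zero ?_ (by exact_mod_cast hn0)
      rintro rfl
      simp at hs
    have hsa : |((s * (n : ℤ) : ℤ) : ℝ)| = n := by
      have : |s| = 1 := by
        rw [mem_insert, mem_singleton] at hs
        rcases hs with rfl | rfl <;> simp
      rw [← Int.cast_abs, abs_mul, this, one_mul, Nat.abs_cast]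
      simp
    have h2 := a2_card_A H (s * n) (t * d) hsn
    rw [hsa] at h2
    refine le_trans ?_ h2
    exact_mod_cast card_image_le
  have hC : ∀ s ∈ ({1, -1} : Finset ℤ), ∀ t : ℤ,
      ((((Nat.divisors (n ^ 3)).biUnion fun d => (a2_A H (s * n) (t * d)).image fun a =>
        (a, (s * n) ^ 3 / (t * d) - t * d - a * (s * n))).card : ℕ) : ℝ) ≤
      ((Nat.divisors (n ^ 3)).card : ℝ) * (2 * (H : ℝ) ^ 3 / n + 1) := by
    intro s hs t
    have h2 : ((((Nat.divisors (n ^ 3)).biUnion fun d => (a2_A H (s * n) (t * d)).image fun a =>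
        (a, (s * n) ^ 3 / (t * d) - t * d - a * (s * n))).card : ℕ) : ℝ) ≤
        ∑ d ∈ Nat.divisors (n ^ 3), ((((a2_A H (s * n) (t * d)).image fun a =>
        (a, (s * n) ^ 3 / (t * d) - t * d - a * (s * n))).card : ℕ) : ℝ) := by
      rw [← Nat.cast_sum]
      exact_mod_cast card_biUnion_le
    refine h2.trans ((sum_le_sum fun d _ => hB s hs t d).trans (le_of_eq ?_))
    rw [sum_const, nsmul_eq_mul]
  have hc2 : ({1, -1} : Finset ℤ).card = 2 := by decide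
  have hD : ∀ s ∈ ({1, -1} : Finset ℤ),
      (((({1, -1} : Finset ℤ).biUnion fun t => (Nat.divisors (n ^ 3)).biUnion fun d =>
        (a2_A H (s * n) (t * d)).image fun a =>
        (a, (s * n) ^ 3 / (t * d) - t * d - a * (s * n))).card : ℕ) : ℝ) ≤
      2 * (((Nat.divisors (n ^ 3)).card : ℝ) * (2 * (H : ℝ) ^ 3 / n + 1)) := by
    intro s hs
    have h2 : (((({1, -1} : Finset ℤ).biUnion fun t => (Nat.divisors (n ^ 3)).biUnion fun d =>
        (a2_A H (s * n) (t * d)).image fun a =>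
        (a, (s * n) ^ 3 / (t * d) - t * d - a * (s * n))).card : ℕ) : ℝ) ≤
        ∑ t ∈ ({1, -1} : Finset ℤ), ((((Nat.divisors (n ^ 3)).biUnion fun d =>
        (a2_A H (s * n) (t * d)).image fun a =>
        (a, (s * n) ^ 3 / (t * d) - t * d - a * (s * n))).card : ℕ) : ℝ) := by
      rw [← Nat.cast_sum]
      exact_mod_cast card_biUnion_le
    refine h2.trans ((sum_le_sum fun t _ => hC s hs t).trans (le_of_eq ?_))
    rw [sum_const, hc2, nsmul_eq_mul]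
    norm_num
  have h3 : ((((({1, -1} : Finset ℤ).biUnion fun s =>
    ({1, -1} : Finset ℤ).biUnion fun t => (Nat.divisors (n ^ 3)).biUnion fun d =>
      (a2_A H (s * n) (t * d)).image fun a =>
        (a, (s * n) ^ 3 / (t * d) - t * d - a * (s * n))).card : ℕ) : ℝ)) ≤
      ∑ s ∈ ({1, -1} : Finset ℤ), (((({1, -1} : Finset ℤ).biUnion fun t =>
        (Nat.divisors (n ^ 3)).biUnion fun d =>
        (a2_A H (s * n) (t * d)).image fun a =>
        (a, (s * n) ^ 3 / (t * d) - t * d - a * (s * n))).card : ℕ) : ℝ) := by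
    rw [← Nat.cast_sum]
    exact_mod_cast card_biUnion_le
  refine h3.trans ((sum_le_sum fun s hs => hD s hs).trans (le_of_eq ?_))
  rw [sum_const, hc2, nsmul_eq_mul]
  push_cast
  ring

theorem a2_harm (M : ℕ) : ∑ n ∈ Icc 1 M, (1 : ℝ) / n ≤ 1 + Real.log M := by
  have h := harmonic_le_one_add_log M
  rw [harmonic_eq_sum_Icc] at h
  push_cast at h
  simpa [one_div] using h

/-- Row A2. Small points. `y ∣ x³`, `y ≠ 0`; for given `(x, y)` the number `b = x³/y - y - a x` and `|b| ≤ H³`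
leave at most `2H³/|x| + 1` values of `a`. So `card ≤ ∑_{0 < |x| ≤ 36H³} 2 τ(|x|³) (2H³/|x| + 1)`, and
`τ(n) ≤ C n^(1/72)` (divisor bound; look for an existing lemma in `Pool/Agent`, e.g. grep divisors.card), so
`τ(|x|³) ≤ C (36H³)^(1/24) ≤ C' H^(1/8)`. Sum `≤ C' H^(1/8) (4H³ (1 + log (36H³)) + 72 H³) ≤ C'' H^(7/2)`. -/
theorem small_count : ∃ C : ℝ, 0 < C ∧ ∀ H : ℕ, 1 ≤ H → ∀ S : Finset (ℤ × ℤ),
    (∀ z ∈ S, |z.1| ≤ (H : ℤ) ∧ |z.2| ≤ (H : ℤ) ^ 3 ∧ ∃ x y : ℤ, x ≠ 0 ∧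
      |x| ≤ 36 * (H : ℤ) ^ 3 ∧ y * (y + z.1 * x + z.2) = x ^ 3) →
    (S.card : ℝ) ≤ C * (H : ℝ) ^ (7 / 2 : ℝ) := by
  obtain ⟨C1, hC1, hdiv⟩ := Pool.Agent.LibHLP.exists_card_divisors_le (1 / 36) (by norm_num)
  refine ⟨4 * (36 * C1) * 134, by positivity, fun H hH S hS => ?_⟩
  have hH1 : (1 : ℝ) ≤ H := by exact_mod_cast hH
  have hH0 : (0 : ℝ) < H := by linarith
  have hS1 : (S.card : ℝ) ≤ ((a2_U H).card : ℝ) := by
    have : S ⊆ a2_U H := by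
      intro z hz
      obtain ⟨h1, h2, x, y, hx, hxH, h⟩ := hS z hz
      exact a2_mem H z h1 h2 x y hx hxH h
    exact_mod_cast card_le_card this
  refine hS1.trans ((a2_card_U H).trans ?_)
  have hM0 : (0 : ℝ) < 36 * (H : ℝ) ^ 3 := by positivity
  set L : ℝ := (H : ℝ) ^ (1 / 4 : ℝ) with hL
  have hL1 : 1 ≤ L := Real.one_le_rpow hH1 (by norm_num)
  have hτ : ∀ n ∈ Icc 1 (36 * H ^ 3), ((Nat.divisors (n ^ 3)).card : ℝ) ≤ 36 * C1 * L := by
    intro n hn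
    rw [mem_Icc] at hn
    have hn0 : n ≠ 0 := by omega
    have h1 := hdiv (n ^ 3) (pow_ne_zero 3 hn0)
    refine h1.trans ?_
    have hnM : (n : ℝ) ≤ 36 * (H : ℝ) ^ 3 := by exact_mod_cast hn.2
    have h2 : (((n ^ 3 : ℕ)) : ℝ) ^ (1 / 36 : ℝ) ≤ 36 * L := by
      have h3 : (((n ^ 3 : ℕ)) : ℝ) ≤ (36 * (H : ℝ) ^ 3) ^ 3 := by
        push_cast
        exact pow_le_pow_left₀ (Nat.cast_nonneg n) hnM 3
      have h4 : (((n ^ 3 : ℕ)) : ℝ) ^ (1 / 36 : ℝ) ≤ ((36 * (H : ℝ) ^ 3) ^ 3) ^ (1 / 36 : ℝ) :=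
        Real.rpow_le_rpow (Nat.cast_nonneg _) h3 (by norm_num)
      refine h4.trans ?_
      have h5 : ((36 * (H : ℝ) ^ 3) ^ 3) ^ (1 / 36 : ℝ) = 36 ^ (1 / 12 : ℝ) * L := by
        rw [← Real.rpow_natCast (36 * (H : ℝ) ^ 3) 3, ← Real.rpow_mul hM0.le,
          Real.mul_rpow (by norm_num) (by positivity), ← Real.rpow_natCast (H : ℝ) 3,
          ← Real.rpow_mul hH0.le, hL]
        norm_num
      rw [h5]
      refine mul_le_mul_of_nonneg_right ?_ (by linarith)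
      calc (36 : ℝ) ^ (1 / 12 : ℝ) ≤ 36 ^ (1 : ℝ) :=
            Real.rpow_le_rpow_of_exponent_le (by norm_num) (by norm_num)
        _ = 36 := Real.rpow_one _
    calc C1 * (((n ^ 3 : ℕ)) : ℝ) ^ (1 / 36 : ℝ) ≤ C1 * (36 * L) :=
          mul_le_mul_of_nonneg_left h2 (by linarith)
      _ = 36 * C1 * L := by ring
  have hsum : ∑ n ∈ Icc 1 (36 * H ^ 3), (2 * (H : ℝ) ^ 3 / ((n : ℕ) : ℝ) + 1) ≤ 134 * ((H : ℝ) ^ 3 * L) := by
    rw [sum_add_distrib]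
    have h1 : ∑ n ∈ Icc 1 (36 * H ^ 3), 2 * (H : ℝ) ^ 3 / ((n : ℕ) : ℝ) =
        2 * (H : ℝ) ^ 3 * ∑ n ∈ Icc 1 (36 * H ^ 3), (1 : ℝ) / ((n : ℕ) : ℝ) := by
      rw [mul_sum]
      refine sum_congr rfl fun n _ => ?_
      ring
    have h2 : ∑ _n ∈ Icc 1 (36 * H ^ 3), (1 : ℝ) = 36 * (H : ℝ) ^ 3 := by
      rw [sum_const, Nat.card_Icc, nsmul_eq_mul, mul_one]
      push_cast
      ring
    rw [h1, h2]
    have h3 := a2_harm (36 * H ^ 3)
    have h4 : Real.log ((36 * H ^ 3 : ℕ) : ℝ) ≤ 36 + 12 * L := by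
      push_cast
      rw [Real.log_mul (by norm_num) (by positivity), Real.log_pow]
      have h5 : Real.log 36 ≤ 36 := by
        have := Real.log_le_sub_one_of_pos (show (0 : ℝ) < 36 by norm_num)
        linarith
      have h6 : Real.log H ≤ 4 * L := by
        have := Real.log_le_rpow_div hH0.le (show (0 : ℝ) < 1 / 4 by norm_num)
        rw [← hL] at this
        linarith
      push_cast
      linarith
    have h5 : ∑ n ∈ Icc 1 (36 * H ^ 3), (1 : ℝ) / ((n : ℕ) : ℝ) ≤ 49 * L := by linarith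
    have hH3 : 0 < (H : ℝ) ^ 3 := by positivity
    have h6 := mul_le_mul_of_nonneg_left h5 (by positivity : (0 : ℝ) ≤ 2 * (H : ℝ) ^ 3)
    nlinarith
  have hterm : ∑ n ∈ Icc 1 (36 * H ^ 3), 4 * ((Nat.divisors (n ^ 3)).card : ℝ) *
      (2 * (H : ℝ) ^ 3 / n + 1) ≤
      ∑ n ∈ Icc 1 (36 * H ^ 3), 4 * (36 * C1 * L) * (2 * (H : ℝ) ^ 3 / ((n : ℕ) : ℝ) + 1) := by
    refine sum_le_sum fun n hn => ?_
    refine mul_le_mul_of_nonneg_right (mul_le_mul_of_nonneg_left (hτ n hn) (by norm_num)) ?_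
    positivity
  refine hterm.trans ?_
  rw [← mul_sum]
  have hc : 0 ≤ 4 * (36 * C1 * L) := by positivity
  refine (mul_le_mul_of_nonneg_left hsum hc).trans (le_of_eq ?_)
  have e : (H : ℝ) ^ (7 / 2 : ℝ) = (H : ℝ) ^ 3 * (L * L) := by
    rw [hL, ← Real.rpow_add hH0, ← Real.rpow_natCast (H : ℝ) 3, ← Real.rpow_add hH0]
    norm_num
  rw [e]
  ring

end T44
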