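import Pool.Agent.LibT44.Defs

namespace T44

/-- Row A3a. `p = (αβ²)^(1/3)`, `q = (α²β)^(1/3)` (`Real.rpow`); all relations by cubing. -/
theorem cl_exists (α β : ℕ) (hα : 1 ≤ α) (hβ : 1 ≤ β) (h1 : Squarefree α) (h2 : Squarefree β)
    (h3 : Nat.Coprime α β) (h4 : 1 < α * β) : ∃ p q : ℝ, Cl α β p q := by
  have ha : (0 : ℝ) < α := by exact_mod_cast hα
  have hb : (0 : ℝ) < β := by exact_mod_cast hβ
  have hP : (0 : ℝ) < (α : ℝ) * (β : ℝ) ^ 2 := by positivity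
  have hQ : (0 : ℝ) < (α : ℝ) ^ 2 * (β : ℝ) := by positivity
  refine ⟨((α : ℝ) * (β : ℝ) ^ 2) ^ ((1 : ℝ) / 3), ((α : ℝ) ^ 2 * (β : ℝ)) ^ ((1 : ℝ) / 3), ?_⟩
  set p : ℝ := ((α : ℝ) * (β : ℝ) ^ 2) ^ ((1 : ℝ) / 3) with hp
  set q : ℝ := ((α : ℝ) ^ 2 * (β : ℝ)) ^ ((1 : ℝ) / 3) with hq
  have hp0 : 0 < p := Real.rpow_pos_of_pos hP _
  have hq0 : 0 < q := Real.rpow_pos_of_pos hQ _
  have hp3 : p ^ 3 = (α : ℝ) * (β : ℝ) ^ 2 := by
    rw [hp, ← Real.rpow_natCast, ← Real.rpow_mul hP.le]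
    norm_num
  have hq3 : q ^ 3 = (α : ℝ) ^ 2 * (β : ℝ) := by
    rw [hq, ← Real.rpow_natCast, ← Real.rpow_mul hQ.le]
    norm_num
  refine ⟨hα, hβ, h1, h2, h3, h4, hp0, hq0, ?_, ?_, ?_⟩
  · refine (pow_left_inj₀ (by positivity) (by positivity) (three_ne_zero)).1 ?_
    calc (p ^ 2) ^ 3 = (p ^ 3) ^ 2 := by ring
      _ = ((α : ℝ) * (β : ℝ) ^ 2) ^ 2 := by rw [hp3]
      _ = (β : ℝ) ^ 3 * ((α : ℝ) ^ 2 * (β : ℝ)) := by ring
      _ = ((β : ℝ) * q) ^ 3 := by rw [← hq3]; ring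
  · refine (pow_left_inj₀ (by positivity) (by positivity) (three_ne_zero)).1 ?_
    calc (q ^ 2) ^ 3 = (q ^ 3) ^ 2 := by ring
      _ = ((α : ℝ) ^ 2 * (β : ℝ)) ^ 2 := by rw [hq3]
      _ = (α : ℝ) ^ 3 * ((α : ℝ) * (β : ℝ) ^ 2) := by ring
      _ = ((α : ℝ) * p) ^ 3 := by rw [← hp3]; ring
  · refine (pow_left_inj₀ (by positivity) (by positivity) (three_ne_zero)).1 ?_
    calc (p * q) ^ 3 = p ^ 3 * q ^ 3 := by ring
      _ = ((α : ℝ) * (β : ℝ)) ^ 3 := by rw [hp3, hq3]; ring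

theorem a3_aux {α β l m n : ℕ} (hl : l.Prime) (hla : l ∣ α) (h1 : Squarefree α)
    (h3 : Nat.Coprime α β) (hα : α ≠ 0) (hβ : β ≠ 0) (hm : m ≠ 0) (hn : n ≠ 0)
    (he : α * m ^ 3 = β * n ^ 3) : False := by
  have e1 : (α * m ^ 3).factorization l = α.factorization l + 3 * m.factorization l := by
    rw [Nat.factorization_mul hα (pow_ne_zero _ hm), Nat.factorization_pow]
    simp
  have e2 : (β * n ^ 3).factorization l = β.factorization l + 3 * n.factorization l := by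
    rw [Nat.factorization_mul hβ (pow_ne_zero _ hn), Nat.factorization_pow]
    simp
  have e3 : α.factorization l = 1 := by
    have k1 := h1.natFactorization_le_one l
    have k2 := (hl.dvd_iff_one_le_factorization hα).1 hla
    omega
  have e4 : β.factorization l = 0 := by
    apply Nat.factorization_eq_zero_of_not_dvd
    intro hlb
    have := Nat.dvd_gcd hla hlb
    rw [h3] at this
    exact hl.one_lt.ne' (Nat.dvd_one.1 this)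
  rw [he, e2, e4, e3] at e1
  omega

/-- Row A3b. `α v³ = β u³` only for `u = v = 0` (`αβ > 1`): a prime `l ∣ α` does not divide `β` and has
`v_l(α v³) = 1` mod 3, `v_l(β u³) = 0` mod 3; similarly for `l ∣ β`. -/
theorem cl_indep {α β : ℕ} {p q : ℝ} (h : Cl α β p q) (u v : ℤ) (he : (α : ℤ) * v ^ 3 = β * u ^ 3) :
    u = 0 ∧ v = 0 := by
  obtain ⟨hα, hβ, h1, h2, h3, h4, -⟩ := h
  have hα0 : (α : ℤ) ≠ 0 := by exact_mod_cast (by omega : α ≠ 0)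
  have hβ0 : (β : ℤ) ≠ 0 := by exact_mod_cast (by omega : β ≠ 0)
  by_cases hu : u = 0
  · subst hu
    refine ⟨rfl, ?_⟩
    have h5 : (α : ℤ) * v ^ 3 = 0 := by rw [he]; ring
    rcases mul_eq_zero.1 h5 with h6 | h6
    · exact absurd h6 hα0
    · exact (pow_eq_zero_iff (by norm_num)).1 h6
  by_cases hv : v = 0
  · subst hv
    have h5 : (β : ℤ) * u ^ 3 = 0 := by rw [← he]; ring
    rcases mul_eq_zero.1 h5 with h6 | h6
    · exact absurd h6 hβ0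
    · exact absurd ((pow_eq_zero_iff (by norm_num)).1 h6) hu
  exfalso
  have he' : α * v.natAbs ^ 3 = β * u.natAbs ^ 3 := by
    have := congrArg Int.natAbs he
    simpa [Int.natAbs_mul, Int.natAbs_pow] using this
  have hu' : u.natAbs ≠ 0 := Int.natAbs_ne_zero.2 hu
  have hv' : v.natAbs ≠ 0 := Int.natAbs_ne_zero.2 hv
  obtain ⟨l, hl, hld⟩ := Nat.exists_prime_and_dvd (Nat.ne_of_gt h4)
  rcases (hl.dvd_mul).1 hld with hla | hlb
  · exact a3_aux hl hla h1 h3 (by omega) (by omega) hv' hu' he'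
  · exact a3_aux hl hlb h2 h3.symm (by omega) (by omega) hu' hv' he'.symm

theorem a3_cube {α β : ℕ} {p q : ℝ} (h : Cl α β p q) :
    p ^ 3 = (α : ℝ) * (β : ℝ) ^ 2 ∧ q ^ 3 = (α : ℝ) ^ 2 * (β : ℝ) := by
  obtain ⟨-, -, -, -, -, -, -, -, h5, h6, h7⟩ := h
  constructor
  · calc p ^ 3 = p * p ^ 2 := by ring
      _ = (β : ℝ) * (p * q) := by rw [h5]; ring
      _ = (α : ℝ) * (β : ℝ) ^ 2 := by rw [h7]; ring
  · calc q ^ 3 = q * q ^ 2 := by ring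
      _ = (α : ℝ) * (p * q) := by rw [h6]; ring
      _ = (α : ℝ) ^ 2 * (β : ℝ) := by rw [h7]; ring

/-- Row A3c. For integers `u, v` not both zero: `αβ ≤ |D| (3 S² + D²) / 4` with `V = vq`, `W = up`,
`S = V + W`, `D = V - W`: `V³ - W³ = D (3S² + D²)/4` and `V³ - W³ = αβ (α v³ - β u³)`, a nonzero multiple of `αβ`. -/
theorem cl_lower {α β : ℕ} {p q : ℝ} (h : Cl α β p q) (z : ℤ × ℤ × ℤ) (hz : ¬ (z.2.1 = 0 ∧ z.2.2 = 0)) :
    (α : ℝ) * β ≤ |dD p q z| * (3 * sS p q z ^ 2 + dD p q z ^ 2) / 4 := by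
  obtain ⟨hp3, hq3⟩ := a3_cube h
  have hne : (α : ℤ) * z.2.2 ^ 3 - β * z.2.1 ^ 3 ≠ 0 := by
    intro h0
    exact hz (cl_indep h _ _ (sub_eq_zero.1 h0))
  have h1 : (1 : ℝ) ≤ |(α : ℝ) * (z.2.2 : ℝ) ^ 3 - β * (z.2.1 : ℝ) ^ 3| := by
    have := Int.one_le_abs hne
    exact_mod_cast this
  have h2 : dD p q z * (3 * sS p q z ^ 2 + dD p q z ^ 2) / 4 =
      ((α : ℝ) * β) * ((α : ℝ) * (z.2.2 : ℝ) ^ 3 - β * (z.2.1 : ℝ) ^ 3) := by
    unfold dD sS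
    linear_combination (z.2.2 : ℝ) ^ 3 * hq3 - (z.2.1 : ℝ) ^ 3 * hp3
  have h3 : |dD p q z| * (3 * sS p q z ^ 2 + dD p q z ^ 2) / 4 =
      |((α : ℝ) * β) * ((α : ℝ) * (z.2.2 : ℝ) ^ 3 - β * (z.2.1 : ℝ) ^ 3)| := by
    rw [← h2, abs_div, abs_mul, abs_of_nonneg (by positivity : 0 ≤ 3 * sS p q z ^ 2 + dD p q z ^ 2)]
    norm_num
  rw [h3, abs_mul, abs_of_nonneg (by positivity : (0 : ℝ) ≤ (α : ℝ) * β)]
  exact le_mul_of_one_le_right (by positivity) h1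

/-- Row A3d. Identities: `αβ u v = (S² - D²)/4`, and `a³ - 27 αβ F = ξ (((3a - ξ)/2)² + (27/4) S²)`. -/
theorem norm_id {α β : ℕ} {p q : ℝ} (h : Cl α β p q) (z : ℤ × ℤ × ℤ) :
    ((α : ℝ) * β * z.2.1 * z.2.2 = (sS p q z ^ 2 - dD p q z ^ 2) / 4) ∧
    ((z.1 : ℝ) ^ 3 - 27 * ((α : ℝ) * β * F α β z) =
      xX p q z * (((3 * z.1 - xX p q z) / 2) ^ 2 + 27 / 4 * sS p q z ^ 2)) := by
  obtain ⟨hp3, hq3⟩ := a3_cube h
  have hpq : p * q = α * β := h.2.2.2.2.2.2.2.2.2.2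
  constructor
  · unfold sS dD
    linear_combination -((z.2.1 : ℝ) * z.2.2) * hpq
  · unfold xX sS dD F
    push_cast
    linear_combination 27 * (z.2.2 : ℝ) ^ 3 * hq3 - 27 * (z.2.1 : ℝ) ^ 3 * hp3 -
      27 * (z.1 : ℝ) * z.2.1 * z.2.2 * hpq

end T44
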