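import Pool.Agent.LibT44.A3

namespace T44

theorem b1_core {H a N S D ξ x : ℝ} (hH : 1 ≤ H) (ha : |a| ≤ H) (hN : |N| ≤ 28 * H ^ 3)
    (hx : 36 * H ^ 3 < |x|) (hxS : x = (S ^ 2 - D ^ 2) / 4) (hξ : ξ = a - 3 * D)
    (hid : N = ξ * (((3 * a - ξ) / 2) ^ 2 + 27 / 4 * S ^ 2)) :
    144 * H ^ 3 ≤ S ^ 2 ∧ |ξ| * S ^ 2 ≤ 5 * H ^ 3 ∧ |ξ| ≤ 1 / 25 ∧ 3 * |D| ≤ H + 1 / 25 ∧
      x ≤ S ^ 2 / 4 ∧ S ^ 2 / 4 ≤ x + H ^ 2 := by
  have hH0 : 0 < H := by linarith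
  have hH3 : 0 < H ^ 3 := by positivity
  have hH23 : H ^ 2 ≤ H ^ 3 := pow_le_pow_right₀ hH (by norm_num)
  have hH1 : H ≤ H ^ 2 := by nlinarith
  have hNa : |N| = |ξ| * (((3 * a - ξ) / 2) ^ 2 + 27 / 4 * S ^ 2) := by
    rw [hid, abs_mul, abs_of_nonneg (by positivity : 0 ≤ ((3 * a - ξ) / 2) ^ 2 + 27 / 4 * S ^ 2)]
  have hξ0 : 0 ≤ |ξ| := abs_nonneg _
  have h3D : 3 * |D| ≤ H + |ξ| := by
    have h1 : 3 * D = a - ξ := by rw [hξ]; ring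
    have h2 : 3 * |D| = |a - ξ| := by
      rw [← h1, abs_mul]; norm_num
    rw [h2]
    exact le_trans (abs_sub _ _) (by linarith)
  have hxpos : 0 < x := by
    by_contra hxn
    have hxn' : x ≤ 0 := not_lt.1 hxn
    have h1 : 36 * H ^ 3 < -x := by rwa [abs_of_nonpos hxn'] at hx
    have h2 : 144 * H ^ 3 < D ^ 2 := by nlinarith [sq_nonneg S]
    have h3 : (12 * H) ^ 2 < |D| ^ 2 := by rw [sq_abs]; nlinarith
    have h4 : 12 * H < |D| := lt_of_pow_lt_pow_left₀ 2 (abs_nonneg _) h3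
    have h5 : |D| ≤ |(3 * a - ξ) / 2| := by
      have h6 : (3 * a - ξ) / 2 = a + 3 / 2 * D := by rw [hξ]; ring
      rw [h6]
      have h7 : |3 / 2 * D| = 3 / 2 * |D| := by rw [abs_mul]; norm_num
      have h8 : |3 / 2 * D| ≤ |a + 3 / 2 * D| + |a| := by
        have h9 := abs_sub (a + 3 / 2 * D) a
        have h10 : a + 3 / 2 * D - a = 3 / 2 * D := by ring
        rwa [h10] at h9
      linarith
    have h6 : D ^ 2 ≤ ((3 * a - ξ) / 2) ^ 2 := sq_le_sq.2 h5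
    have h7 : |ξ| * (144 * H ^ 3) ≤ 28 * H ^ 3 := by
      calc |ξ| * (144 * H ^ 3) ≤ |ξ| * (((3 * a - ξ) / 2) ^ 2 + 27 / 4 * S ^ 2) := by
            apply mul_le_mul_of_nonneg_left _ hξ0
            nlinarith [sq_nonneg S]
        _ = |N| := hNa.symm
        _ ≤ 28 * H ^ 3 := hN
    have h8 : |ξ| ≤ 1 / 5 := by
      by_contra h9
      have h10 : 1 / 5 < |ξ| := not_le.1 h9
      nlinarith
    linarith
  have hx' : 36 * H ^ 3 < x := by rwa [abs_of_pos hxpos] at hx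
  have hS : 144 * H ^ 3 ≤ S ^ 2 := by nlinarith [sq_nonneg D]
  have h1 : |ξ| * (27 / 4 * S ^ 2) ≤ 28 * H ^ 3 := by
    calc |ξ| * (27 / 4 * S ^ 2) ≤ |ξ| * (((3 * a - ξ) / 2) ^ 2 + 27 / 4 * S ^ 2) := by
          apply mul_le_mul_of_nonneg_left _ hξ0
          nlinarith [sq_nonneg ((3 * a - ξ) / 2)]
      _ = |N| := hNa.symm
      _ ≤ 28 * H ^ 3 := hN
  have h2 : |ξ| * S ^ 2 ≤ 5 * H ^ 3 := by nlinarith
  have h3 : |ξ| * (144 * H ^ 3) ≤ 5 * H ^ 3 :=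
    le_trans (mul_le_mul_of_nonneg_left hS hξ0) h2
  have h4 : |ξ| ≤ 1 / 25 := by
    by_contra h5
    have h6 : 1 / 25 < |ξ| := not_le.1 h5
    nlinarith
  have h5 : 3 * |D| ≤ H + 1 / 25 := by linarith
  have h6 : |D| ≤ H := by linarith
  have h7 : D ^ 2 ≤ H ^ 2 := by
    rw [← sq_abs D]
    exact pow_le_pow_left₀ (abs_nonneg _) h6 2
  refine ⟨hS, h2, h4, h5, ?_, ?_⟩
  · nlinarith [sq_nonneg D]
  · nlinarith [sq_nonneg H]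

/-- Row B1. Sizes for a large solution. `N = a³ - 27αβF`, `0 < |N| ≤ 28H³`, `x = αβuv = (S² - D²)/4`.
`x < 0` is impossible: then `D² = S² - 4x ≥ 4|x| > 144H³`, `|D| > 12 H^(3/2) ≥ 12 H`; `3D = a - ξ`, so
`(3a - ξ)/2 = a + 3D/2` has absolute value `≥ (3/2)|D| - H ≥ |D|`, `|N| = |ξ| Q ≥ |ξ| D²`, `|ξ| ≤ 28H³/(144H³) < 1/5`,
`3|D| ≤ H + 1`, contradiction. So `x > 36H³`, `S² ≥ 4x ≥ 144H³`, and `|ξ| (27/4) S² ≤ |N| ≤ 28H³` gives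
`|ξ| S² ≤ 5H³`, `|ξ| ≤ 5/144 ≤ 1/25`, `3|D| ≤ H + 1/25`. -/
theorem size {H α β : ℕ} {p q : ℝ} (h : Cl α β p q) (hH : 1 ≤ H) (z : ℤ × ℤ × ℤ)
    (hz : Sol H α β z) :
    144 * (H : ℝ) ^ 3 ≤ sS p q z ^ 2 ∧ |xX p q z| * sS p q z ^ 2 ≤ 5 * (H : ℝ) ^ 3 ∧
      |xX p q z| ≤ 1 / 25 ∧ 3 * |dD p q z| ≤ H + 1 / 25 ∧
      ((α : ℤ) * β * z.2.1 * z.2.2 : ℤ) ≤ sS p q z ^ 2 / 4 ∧
      sS p q z ^ 2 / 4 ≤ ((α : ℤ) * β * z.2.1 * z.2.2 : ℤ) + (H : ℝ) ^ 2 := by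
  obtain ⟨hid1, hid2⟩ := norm_id h z
  obtain ⟨ha, -, hF, -, hx⟩ := hz
  have hH' : (1 : ℝ) ≤ H := by exact_mod_cast hH
  have ha' : |(z.1 : ℝ)| ≤ H := by
    have : ((|z.1| : ℤ) : ℝ) ≤ ((H : ℤ) : ℝ) := by exact_mod_cast ha
    simpa using this
  have hF' : |(α : ℝ) * β * F α β z| ≤ (H : ℝ) ^ 3 := by
    rw [abs_mul, abs_of_nonneg (by positivity : (0 : ℝ) ≤ (α : ℝ) * β)]
    have : (((α : ℤ) * β * |F α β z| : ℤ) : ℝ) ≤ (((H : ℤ) ^ 3 : ℤ) : ℝ) := by exact_mod_cast hF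
    push_cast at this
    exact this
  have hx' : 36 * (H : ℝ) ^ 3 < |((((α : ℤ) * β * z.2.1 * z.2.2 : ℤ)) : ℝ)| := by
    have : ((36 * (H : ℤ) ^ 3 : ℤ) : ℝ) < ((|(α : ℤ) * β * z.2.1 * z.2.2| : ℤ) : ℝ) := by
      exact_mod_cast hx
    rw [Int.cast_abs] at this
    push_cast at this ⊢
    exact this
  have hN : |(z.1 : ℝ) ^ 3 - 27 * ((α : ℝ) * β * F α β z)| ≤ 28 * (H : ℝ) ^ 3 := by
    have h1 : |(z.1 : ℝ) ^ 3| ≤ (H : ℝ) ^ 3 := by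
      rw [abs_pow]
      exact pow_le_pow_left₀ (abs_nonneg _) ha' 3
    have h2 : |27 * ((α : ℝ) * β * F α β z)| ≤ 27 * (H : ℝ) ^ 3 := by
      rw [abs_mul]
      have : |(27 : ℝ)| = 27 := by norm_num
      rw [this]
      linarith
    exact le_trans (abs_sub _ _) (by linarith)
  refine b1_core hH' ha' hN hx' ?_ rfl hid2
  rw [← hid1]
  push_cast
  ring

/-- Row B1b. `(a,u,v) ↦ (-a,-u,-v)` is a symmetry: `F ↦ -F`, `S ↦ -S`. -/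
theorem sol_neg {H α β : ℕ} (z : ℤ × ℤ × ℤ) (hz : Sol H α β z) :
    Sol H α β (-z) ∧ F α β (-z) = - F α β z ∧ ∀ p q : ℝ, sS p q (-z) = - sS p q z := by
  have hF : F α β (-z) = - F α β z := by
    unfold F
    simp only [Prod.fst_neg, Prod.snd_neg]
    ring
  obtain ⟨h1, h2, h3, h4, h5⟩ := hz
  refine ⟨⟨?_, ?_, ?_, ?_, ?_⟩, hF, fun p q => ?_⟩
  · simpa only [Prod.fst_neg, abs_neg] using h1
  · rw [hF]; exact neg_ne_zero.2 h2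
  · rw [hF, abs_neg]; exact h3
  · rw [hF]
    intro h6
    apply h4
    simp only [Prod.fst_neg] at h6
    linarith
  · have : (α : ℤ) * β * (-z).2.1 * (-z).2.2 = (α : ℤ) * β * z.2.1 * z.2.2 := by
      simp only [Prod.snd_neg, Prod.fst_neg]
      ring
    rw [this]
    exact h5
  · unfold sS
    simp only [Prod.snd_neg, Prod.fst_neg]
    push_cast
    ring

end T44
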