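import Pool.Agent.LibT44.Defs

namespace T44

/-- Row B2. The class `α = β = 1` has no large solution. `V = v`, `W = u` are integers, `ξ = a - 3(v - u)` is an integer and
`N = a³ - 27F = ξ Q`, `Q = ((3a - ξ)/2)² + (27/4)(u+v)²`, `N ≠ 0`, so `|ξ| ≥ 1`. As in Row B1: `uv < 0` gives
`D² ≥ 4|uv| > 144H³`, `Q ≥ D²`, `|N| > 28H³`, no; `uv > 36H³` gives `(u+v)² ≥ 144H³`, `|N| ≥ (27/4) 144 H³ > 28H³`, no. -/
theorem class_one {H : ℕ} (hH : 1 ≤ H) (z : ℤ × ℤ × ℤ) : ¬ Sol H 1 1 z := by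
  rintro ⟨ha, -, hF, hN, hx⟩
  obtain ⟨a, u, v⟩ := z
  unfold F at hF hN
  simp only [Nat.cast_one, one_mul, mul_one] at ha hF hN hx
  have hH' : (1 : ℤ) ≤ H := by exact_mod_cast hH
  generalize (H : ℤ) = K at ha hF hx hH'
  have hK3 : K ^ 2 ≤ K ^ 3 := pow_le_pow_right₀ hH' (by norm_num)
  have hK3' : 0 < K ^ 3 := by positivity
  set D : ℤ := v - u with hD
  set S : ℤ := v + u with hS
  set ξ : ℤ := a - 3 * D with hξ
  have hid : 4 * (a ^ 3 - 27 * (v ^ 3 - u ^ 3 - a * u * v)) =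
      ξ * ((2 * a + 3 * D) ^ 2 + 27 * S ^ 2) := by
    rw [hξ, hD, hS]; ring
  have hξ0 : ξ ≠ 0 := by
    intro h0
    rw [h0, zero_mul] at hid
    apply hN
    linarith
  have hξ1 : 1 ≤ |ξ| := Int.one_le_abs hξ0
  have hNN : |4 * (a ^ 3 - 27 * (v ^ 3 - u ^ 3 - a * u * v))| ≤ 112 * K ^ 3 := by
    have h1 : |a ^ 3| ≤ K ^ 3 := by
      rw [abs_pow]; exact pow_le_pow_left₀ (abs_nonneg _) ha 3
    have h1' := abs_le.1 h1
    have h2' := abs_le.1 hF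
    rw [abs_le]
    constructor <;> linarith [h1'.1, h1'.2, h2'.1, h2'.2]
  have hQ0 : 0 ≤ (2 * a + 3 * D) ^ 2 + 27 * S ^ 2 := by positivity
  have hQ : (2 * a + 3 * D) ^ 2 + 27 * S ^ 2 ≤ 112 * K ^ 3 := by
    rw [hid, abs_mul, abs_of_nonneg hQ0] at hNN
    nlinarith
  rcases le_or_gt 0 (u * v) with huv | huv
  · rw [abs_of_nonneg huv] at hx
    have h1 : S ^ 2 = D ^ 2 + 4 * (u * v) := by rw [hS, hD]; ring
    nlinarith [sq_nonneg D, sq_nonneg (2 * a + 3 * D)]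
  · rw [abs_of_neg huv] at hx
    have h1 : D ^ 2 = S ^ 2 + 4 * (-(u * v)) := by rw [hS, hD]; ring
    have h2 : 144 * K ^ 3 < D ^ 2 := by nlinarith [sq_nonneg S]
    have h3 : (12 * K) ^ 2 < |D| ^ 2 := by rw [sq_abs]; nlinarith
    have h4 : 12 * K < |D| := lt_of_pow_lt_pow_left₀ 2 (abs_nonneg _) h3
    have h5 : 2 * |D| ≤ |2 * a + 3 * D| := by
      have h7 : |3 * D| = 3 * |D| := by rw [abs_mul]; norm_num
      have h7' : |2 * a| = 2 * |a| := by rw [abs_mul]; norm_num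
      have h8 : |3 * D| ≤ |2 * a + 3 * D| + |2 * a| := by
        have h9 := abs_sub (2 * a + 3 * D) (2 * a)
        have h10 : 2 * a + 3 * D - 2 * a = 3 * D := by ring
        rwa [h10] at h9
      linarith
    have h6 : (2 * |D|) ^ 2 ≤ |2 * a + 3 * D| ^ 2 := pow_le_pow_left₀ (by positivity) h5 2
    rw [sq_abs, mul_pow, sq_abs] at h6
    nlinarith [sq_nonneg S]

end T44
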