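import Pool.Agent.LibT44.B1

namespace T44

theorem c1_spaced {ι : Type*} (T : Finset ι) (f : ι → ℝ) (A B g : ℝ) (hg : 0 < g) (hAB : A ≤ B)
    (hf : ∀ z ∈ T, A ≤ f z ∧ f z < B) (hs : ∀ z ∈ T, ∀ w ∈ T, z ≠ w → g ≤ |f z - f w|) :
    (T.card : ℝ) ≤ 1 + (B - A) / g := by
  classical
  have h1 : T.card ≤ (Finset.range (⌊(B - A) / g⌋₊ + 1)).card := by
    apply Finset.card_le_card_of_injOn (fun z => ⌊(f z - A) / g⌋₊)
    · intro z hz
      have hz' := hf z hz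
      simp only [Finset.coe_range, Set.mem_Iio]
      refine Nat.lt_succ_of_le (Nat.floor_le_floor ?_)
      apply div_le_div_of_nonneg_right _ hg.le
      linarith [hz'.2]
    · intro z hz w hw hzw
      by_contra hne
      have h2 := hs z hz w hw hne
      have hz' := hf z hz
      have hw' := hf w hw
      have h3 : (0 : ℝ) ≤ (f z - A) / g := div_nonneg (by linarith [hz'.1]) hg.le
      have h4 : (0 : ℝ) ≤ (f w - A) / g := div_nonneg (by linarith [hw'.1]) hg.le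
      have h5 := Nat.floor_le h3
      have h6 := Nat.lt_floor_add_one ((f z - A) / g)
      have h7 := Nat.floor_le h4
      have h8 := Nat.lt_floor_add_one ((f w - A) / g)
      simp only at hzw
      rw [hzw] at h5 h6
      have h9 : |(f z - A) / g - (f w - A) / g| < 1 := by
        rw [abs_lt]; constructor <;> linarith
      have h10 : (f z - A) / g - (f w - A) / g = (f z - f w) / g := by ring
      rw [h10, abs_div, abs_of_pos hg, div_lt_one hg] at h9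
      linarith
  rw [Finset.card_range] at h1
  have h2 : ((⌊(B - A) / g⌋₊ : ℕ) : ℝ) ≤ (B - A) / g :=
    Nat.floor_le (div_nonneg (by linarith) hg.le)
  have h3 : (T.card : ℝ) ≤ ((⌊(B - A) / g⌋₊ + 1 : ℕ) : ℝ) := by exact_mod_cast h1
  push_cast at h3
  linarith

theorem c1_core {H3 A U δ ξ₁ ξ₂ D' S' : ℝ} (hA : 1 ≤ A) (hH3 : 0 < H3) (hU0 : 0 < U)
    (hU : 144 * H3 ≤ U ^ 2) (hδ : δ = 5 * H3 / U ^ 2) (h1 : |ξ₁| ≤ δ) (h2 : |ξ₂| ≤ δ)
    (hD : 3 * D' = ξ₂ - ξ₁) (hl : A ≤ |D'| * (3 * S' ^ 2 + D' ^ 2) / 4) :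
    U / (2 * √(H3 / A)) ≤ |S'| := by
  have hU2 : 0 < U ^ 2 := by positivity
  have hA0 : 0 < A := by linarith
  have hδ0 : 0 < δ := by rw [hδ]; positivity
  have hδ1 : δ ≤ 5 / 144 := by
    rw [hδ, div_le_iff₀ hU2]; linarith
  have hδU : δ * U ^ 2 = 5 * H3 := by rw [hδ]; field_simp
  have hD3 : 3 * |D'| ≤ 2 * δ := by
    have h3 : 3 * |D'| = |ξ₂ - ξ₁| := by rw [← hD, abs_mul]; norm_num
    rw [h3]
    exact le_trans (abs_sub _ _) (by linarith)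
  have hDn : 0 ≤ |D'| := abs_nonneg _
  have hD' : |D'| ≤ 2 * δ / 3 := by linarith
  have hDs : D' ^ 2 ≤ (2 * δ / 3) ^ 2 := by
    rw [← sq_abs]; exact pow_le_pow_left₀ hDn hD' 2
  have h4 : |D'| * (3 * S' ^ 2 + D' ^ 2) ≤ 2 * δ / 3 * (3 * S' ^ 2 + (2 * δ / 3) ^ 2) := by
    apply mul_le_mul hD' (by linarith) (by positivity) (by positivity)
  have h5 : A ≤ δ * S' ^ 2 / 2 + δ ^ 3 * (2 / 27) := by
    calc A ≤ |D'| * (3 * S' ^ 2 + D' ^ 2) / 4 := hl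
      _ ≤ 2 * δ / 3 * (3 * S' ^ 2 + (2 * δ / 3) ^ 2) / 4 := by linarith
      _ = δ * S' ^ 2 / 2 + δ ^ 3 * (2 / 27) := by ring
  have h6 : δ ^ 3 ≤ (5 / 144) ^ 3 := pow_le_pow_left₀ hδ0.le hδ1 3
  have h7 : δ ^ 3 * (2 / 27) ≤ 1 / 1000 := by
    calc δ ^ 3 * (2 / 27) ≤ (5 / 144) ^ 3 * (2 / 27) := by linarith
      _ ≤ 1 / 1000 := by norm_num
  have h8 : A / 2 * 3 / 2 ≤ δ * S' ^ 2 / 2 := by nlinarith
  -- S'^2 ≥ (3/2) A / δ = (3/10) A U^2 / H3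
  have h9 : A * U ^ 2 * (3 / 2) ≤ 5 * H3 * S' ^ 2 := by
    rw [← hδU]
    nlinarith [mul_le_mul_of_nonneg_right h8 hU2.le]
  have hM : 0 < H3 / A := by positivity
  have hsM : 0 < √(H3 / A) := Real.sqrt_pos.2 hM
  have hsq : √(H3 / A) ^ 2 = H3 / A := Real.sq_sqrt hM.le
  rw [div_le_iff₀ (by positivity)]
  refine le_of_sq_le_sq ?_ (by positivity)
  have h10 : (|S'| * (2 * √(H3 / A))) ^ 2 = 4 * S' ^ 2 * (H3 / A) := by
    rw [mul_pow, mul_pow, hsq, sq_abs]; ring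
  rw [h10]
  have h11 : 4 * S' ^ 2 * (H3 / A) = 4 * (S' ^ 2 * H3) / A := by ring
  rw [h11, le_div_iff₀ hA0]
  nlinarith

/-- Row C1. Solutions with the same `a`. Let `δ = 5H³/U² ≤ 5/144`. For two of them `|ξ_i| ≤ δ` (`size`), the
difference `z' = (0, u', v') ≠ 0` has `3 D' = ξ₂ - ξ₁`, `|D'| ≤ 2δ/3`, and `cl_lower`:
`αβ ≤ (2δ/3)(3 S'² + D'²)/4 ≤ (δ/2) S'² + 1/1000`, so `S'² ≥ (199/100) αβ/δ ≥ U²/(4M)`, `M = H³/(αβ)`: the numbers
`S ∈ [U, 2U)` are pairwise at distance `≥ U/(2√M)` (in particular distinct), so there are at most `1 + 2√M`. -/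
theorem per_a {H α β : ℕ} {p q : ℝ} (h : Cl α β p q) (hH : 1 ≤ H) (a : ℤ) (U : ℝ) (hU0 : 0 < U)
    (hU : 144 * (H : ℝ) ^ 3 ≤ U ^ 2) (T : Finset (ℤ × ℤ × ℤ))
    (hT : ∀ z ∈ T, Sol H α β z ∧ z.1 = a ∧ U ≤ sS p q z ∧ sS p q z < 2 * U) :
    (T.card : ℝ) ≤ 1 + 2 * √((H : ℝ) ^ 3 / (α * β)) := by
  have hα : (1 : ℝ) ≤ α := by exact_mod_cast h.1
  have hβ : (1 : ℝ) ≤ β := by exact_mod_cast h.2.1
  have hA : (1 : ℝ) ≤ (α : ℝ) * β := by nlinarith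
  have hH' : (1 : ℝ) ≤ H := by exact_mod_cast hH
  have hH3 : (0 : ℝ) < (H : ℝ) ^ 3 := by positivity
  have hM : 0 < (H : ℝ) ^ 3 / (α * β) := by positivity
  have hsM : 0 < √((H : ℝ) ^ 3 / (α * β)) := Real.sqrt_pos.2 hM
  have hg : 0 < U / (2 * √((H : ℝ) ^ 3 / (α * β))) := by positivity
  have hξ : ∀ z ∈ T, |xX p q z| ≤ 5 * (H : ℝ) ^ 3 / U ^ 2 := by
    intro z hz
    obtain ⟨h1, h2, h3, h4⟩ := hT z hz
    have h5 := (size h hH z h1).2.1
    rw [le_div_iff₀ (by positivity)]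
    have h6 : U ^ 2 ≤ sS p q z ^ 2 := pow_le_pow_left₀ hU0.le h3 2
    exact le_trans (mul_le_mul_of_nonneg_left h6 (abs_nonneg _)) h5
  have key := c1_spaced T (fun z => sS p q z) U (2 * U) _ hg (by linarith)
    (fun z hz => ⟨(hT z hz).2.2.1, (hT z hz).2.2.2⟩) ?_
  · refine le_trans key (le_of_eq ?_)
    have : 2 * U - U = U := by ring
    rw [this]
    field_simp
  · intro z hz w hw hne
    obtain ⟨-, hza, -, -⟩ := hT z hz
    obtain ⟨-, hwa, -, -⟩ := hT w hw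
    set z' : ℤ × ℤ × ℤ := (0, z.2.1 - w.2.1, z.2.2 - w.2.2) with hz'
    have hz'0 : ¬ (z'.2.1 = 0 ∧ z'.2.2 = 0) := by
      rintro ⟨k1, k2⟩
      apply hne
      refine Prod.ext (by rw [hza, hwa]) (Prod.ext ?_ ?_)
      · exact sub_eq_zero.1 k1
      · exact sub_eq_zero.1 k2
    have hl := cl_lower h z' hz'0
    have hS' : sS p q z' = sS p q z - sS p q w := by
      unfold sS; rw [hz']; push_cast; ring
    have hD' : 3 * dD p q z' = xX p q w - xX p q z := by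
      unfold xX dD; rw [hz', hza, hwa]; push_cast; ring
    have := c1_core hA hH3 hU0 hU rfl (hξ z hz) (hξ w hw) hD' hl
    rwa [hS'] at this

/-- Row C1b. All `a`: at most `2H + 1 ≤ 3H` values of `a`, and `M = H³/(αβ) ≥ 1` if there is a solution. -/
theorem all_a {H α β : ℕ} {p q : ℝ} (h : Cl α β p q) (hH : 1 ≤ H) (U : ℝ) (hU0 : 0 < U)
    (hU : 144 * (H : ℝ) ^ 3 ≤ U ^ 2) (T : Finset (ℤ × ℤ × ℤ))
    (hT : ∀ z ∈ T, Sol H α β z ∧ U ≤ sS p q z ∧ sS p q z < 2 * U) :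
    (T.card : ℝ) ≤ 9 * H * √((H : ℝ) ^ 3 / (α * β)) := by
  classical
  rcases T.eq_empty_or_nonempty with hE | ⟨z₀, hz₀⟩
  · rw [hE, Finset.card_empty, Nat.cast_zero]; positivity
  have hα : (1 : ℝ) ≤ α := by exact_mod_cast h.1
  have hβ : (1 : ℝ) ≤ β := by exact_mod_cast h.2.1
  have hA : (1 : ℝ) ≤ (α : ℝ) * β := by nlinarith
  have hH' : (1 : ℝ) ≤ H := by exact_mod_cast hH
  have hM : 1 ≤ (H : ℝ) ^ 3 / (α * β) := by
    obtain ⟨⟨-, h1, h2, -, -⟩, -, -⟩ := hT z₀ hz₀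
    have h3 : 1 ≤ |F α β z₀| := Int.one_le_abs h1
    have h4 : (α : ℤ) * β ≤ (H : ℤ) ^ 3 := by
      refine le_trans ?_ h2
      exact le_mul_of_one_le_right (by positivity) h3
    rw [one_le_div (by positivity)]
    exact_mod_cast h4
  have hsM : 1 ≤ √((H : ℝ) ^ 3 / (α * β)) := Real.one_le_sqrt.2 hM
  have hcard : T.card = ∑ a ∈ Finset.Icc (-(H : ℤ)) H, (T.filter fun z => z.1 = a).card := by
    apply Finset.card_eq_sum_card_fiberwise
    intro z hz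
    have h1 := (hT z hz).1.1
    simp only [Finset.coe_Icc, Set.mem_Icc]
    exact abs_le.1 h1
  have h1 : (T.card : ℝ) ≤
      ∑ a ∈ Finset.Icc (-(H : ℤ)) H, (1 + 2 * √((H : ℝ) ^ 3 / (α * β))) := by
    rw [hcard]
    push_cast
    apply Finset.sum_le_sum
    intro a _
    refine per_a h hH a U hU0 hU _ ?_
    intro z hz
    rw [Finset.mem_filter] at hz
    obtain ⟨k1, k2, k3⟩ := hT z hz.1
    exact ⟨k1, hz.2, k2, k3⟩
  rw [Finset.sum_const, Int.card_Icc, nsmul_eq_mul] at h1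
  have h2 : (((H : ℤ) + 1 - -(H : ℤ)).toNat : ℝ) = 2 * H + 1 := by
    have : ((H : ℤ) + 1 - -(H : ℤ)).toNat = 2 * H + 1 := by omega
    rw [this]; push_cast; ring
  rw [h2] at h1
  refine le_trans h1 ?_
  have h3 : (2 * (H : ℝ) + 1) * (1 + 2 * √((H : ℝ) ^ 3 / (α * β))) ≤
      (3 * H) * (3 * √((H : ℝ) ^ 3 / (α * β))) := by
    apply mul_le_mul (by linarith) (by linarith) (by positivity) (by positivity)
  linarith

end T44
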