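import Pool.Agent.LibT44.B1

namespace T44

/-- Row D1. Two solutions in one cell differ by a zero of `F`. `δ = 5H³/U² ≤ 5/144`, `|ξ_i| ≤ δ`, `z' = z₁ - z₂`,
`|ξ'| ≤ 2δ` (`ξ` is additive). `norm_id` for `z'`: `27 αβ |F(z')| = |a'³ - ξ' (((3a' - ξ')/2)² + (27/4) S'²)|
≤ |a'|³ + 2δ ((3|a'| + 1)/2)² + 2δ (27/4) S'²`. First term `≤ 9αβ`. Third: `≤ (27/2)(5H³/U²)(αβ U²/(8H³)) ≤ 8.5 αβ`.
Second: if `a' = 0` it is `≤ δ/2 ≤ αβ`; otherwise `(3|a'|+1)² ≤ 16 a'²`, it is `≤ 8δ a'² ≤ (5/18)|a'|³ ≤ 2.5 αβ`. Sum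
`≤ 20 αβ < 27 αβ`, so `|F(z')| < 1`. -/
theorem diff_zero {H α β : ℕ} {p q : ℝ} (h : Cl α β p q) (hH : 1 ≤ H) (U : ℝ) (hU0 : 0 < U)
    (hU : 144 * (H : ℝ) ^ 3 ≤ U ^ 2) (z₁ z₂ : ℤ × ℤ × ℤ) (h₁ : Sol H α β z₁) (h₂ : Sol H α β z₂)
    (hS₁ : U ≤ sS p q z₁) (hS₂ : U ≤ sS p q z₂)
    (ha : |(z₁.1 : ℝ) - z₂.1| ^ 3 ≤ 9 * ((α : ℝ) * β))
    (hS : 8 * (H : ℝ) ^ 3 * (sS p q z₁ - sS p q z₂) ^ 2 ≤ (α : ℝ) * β * U ^ 2) :
    F α β (z₁ - z₂) = 0 ∧ |xX p q (z₁ - z₂)| ≤ 2 / 25 := by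
  obtain ⟨s1, s2, s3, -, -, -⟩ := size h hH z₁ h₁
  obtain ⟨t1, t2, t3, -, -, -⟩ := size h hH z₂ h₂
  have hH1 : (1 : ℝ) ≤ H := by exact_mod_cast hH
  have hH3 : 0 < (H : ℝ) ^ 3 := by positivity
  have hU2 : 0 < U ^ 2 := by positivity
  have hab : 1 < α * β := h.2.2.2.2.2.1
  have habR : (2 : ℝ) ≤ (α : ℝ) * β := by exact_mod_cast hab
  -- the additive functions
  have eX : xX p q (z₁ - z₂) = xX p q z₁ - xX p q z₂ := by
    unfold xX dD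
    simp only [Prod.fst_sub, Prod.snd_sub, Int.cast_sub]
    ring
  have eS : sS p q (z₁ - z₂) = sS p q z₁ - sS p q z₂ := by
    unfold sS
    simp only [Prod.fst_sub, Prod.snd_sub, Int.cast_sub]
    ring
  have ea : (((z₁ - z₂).1 : ℤ) : ℝ) = (z₁.1 : ℝ) - z₂.1 := by
    simp only [Prod.fst_sub, Int.cast_sub]
  -- bounds for ξ
  have b1 : |xX p q z₁| * U ^ 2 ≤ 5 * (H : ℝ) ^ 3 := by
    refine le_trans (mul_le_mul_of_nonneg_left ?_ (abs_nonneg _)) s2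
    exact pow_le_pow_left₀ hU0.le hS₁ 2
  have b2 : |xX p q z₂| * U ^ 2 ≤ 5 * (H : ℝ) ^ 3 := by
    refine le_trans (mul_le_mul_of_nonneg_left ?_ (abs_nonneg _)) t2
    exact pow_le_pow_left₀ hU0.le hS₂ 2
  have b3 : |xX p q (z₁ - z₂)| ≤ |xX p q z₁| + |xX p q z₂| := by
    rw [eX]; exact abs_sub _ _
  obtain ⟨x, hx⟩ : ∃ x : ℝ, x = |xX p q (z₁ - z₂)| := ⟨_, rfl⟩
  have hx0 : 0 ≤ x := hx ▸ abs_nonneg _
  have b4 : x * U ^ 2 ≤ 10 * (H : ℝ) ^ 3 := by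
    rw [hx]
    have := mul_le_mul_of_nonneg_right b3 hU2.le
    nlinarith
  have b5 : x ≤ 10 / 144 := by
    have : x * (144 * (H : ℝ) ^ 3) ≤ 10 * (H : ℝ) ^ 3 :=
      (mul_le_mul_of_nonneg_left hU hx0).trans b4
    have h2 : (144 * x - 10) * (H : ℝ) ^ 3 ≤ 0 := by nlinarith
    by_contra hcon
    push Not at hcon
    have : 0 < (144 * x - 10) * (H : ℝ) ^ 3 := mul_pos (by linarith) hH3
    linarith
  refine ⟨?_, by rw [← hx]; linarith⟩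
  -- the norm identity
  obtain ⟨-, hn⟩ := norm_id h (z₁ - z₂)
  rw [eS, ea] at hn
  obtain ⟨y, hy⟩ : ∃ y : ℝ, y = xX p q (z₁ - z₂) := ⟨_, rfl⟩
  obtain ⟨a, ha'⟩ : ∃ a : ℝ, a = (z₁.1 : ℝ) - z₂.1 := ⟨_, rfl⟩
  obtain ⟨s, hs⟩ : ∃ s : ℝ, s = sS p q z₁ - sS p q z₂ := ⟨_, rfl⟩
  obtain ⟨g, hg⟩ : ∃ g : ℝ, g = (α : ℝ) * β := ⟨_, rfl⟩
  rw [← hy] at hx hn
  rw [← ha'] at hn ha
  rw [← hs] at hn hS
  rw [← hg] at hn ha hS habR
  -- third part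
  have c3 : x * (27 / 4 * s ^ 2) ≤ 8.5 * g := by
    have e1 : x * (8 * (H : ℝ) ^ 3 * s ^ 2) ≤ x * (g * U ^ 2) :=
      mul_le_mul_of_nonneg_left hS hx0
    have e2 : x * (g * U ^ 2) ≤ g * (10 * (H : ℝ) ^ 3) := by
      have := mul_le_mul_of_nonneg_left b4 (show (0 : ℝ) ≤ g by linarith)
      linarith
    have e3 : (8 * (x * s ^ 2) - 10 * g) * (H : ℝ) ^ 3 ≤ 0 := by linarith
    have e4 : 8 * (x * s ^ 2) - 10 * g ≤ 0 := by
      by_contra hcon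
      push Not at hcon
      have := mul_pos hcon hH3
      linarith
    linarith
  -- second part
  have hy1 : |y| = x := hx.symm
  have c2 : x * ((3 * a - y) / 2) ^ 2 ≤ 3.5 * g := by
    have e0 : |3 * a - y| ≤ 3 * |a| + x := by
      have := abs_sub (3 * a) y
      rw [abs_mul, abs_of_pos (by norm_num : (0 : ℝ) < 3), hy1] at this
      exact this
    have e1 : ((3 * a - y) / 2) ^ 2 ≤ ((3 * |a| + x) / 2) ^ 2 := by
      have : |(3 * a - y) / 2| ≤ (3 * |a| + x) / 2 := by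
        rw [abs_div, abs_of_pos (by norm_num : (0 : ℝ) < 2)]
        linarith
      rw [← sq_abs]
      exact pow_le_pow_left₀ (abs_nonneg _) this 2
    have e2 : x * ((3 * a - y) / 2) ^ 2 ≤ (10 / 144) * ((3 * |a| + x) / 2) ^ 2 :=
      mul_le_mul b5 e1 (sq_nonneg _) (by norm_num)
    refine e2.trans ?_
    rcases eq_or_ne (z₁.1 - z₂.1) 0 with h0 | h0
    · have : a = 0 := by
        rw [ha', ← Int.cast_sub, h0, Int.cast_zero]
      rw [this, abs_zero]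
      nlinarith
    · have h1 : 1 ≤ |a| := by
        have : 1 ≤ |z₁.1 - z₂.1| := Int.one_le_abs h0
        have h2 : ((1 : ℤ) : ℝ) ≤ ((|z₁.1 - z₂.1| : ℤ) : ℝ) := by exact_mod_cast this
        rw [Int.cast_one, Int.cast_abs, Int.cast_sub, ← ha'] at h2
        exact h2
      have h3 : ((3 * |a| + x) / 2) ^ 2 ≤ (2 * |a|) ^ 2 :=
        pow_le_pow_left₀ (by positivity) (by linarith) 2
      have h4 : |a| ^ 2 ≤ |a| ^ 3 := pow_le_pow_right₀ h1 (by norm_num)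
      nlinarith
  -- the sum
  have c4 : |27 * (g * (F α β (z₁ - z₂) : ℝ))| ≤ 21 * g := by
    have e1 : 27 * (g * (F α β (z₁ - z₂) : ℝ)) =
        a ^ 3 - y * (((3 * a - y) / 2) ^ 2 + 27 / 4 * s ^ 2) := by linarith
    rw [e1]
    refine (abs_sub _ _).trans ?_
    rw [abs_pow, abs_mul, hy1, abs_of_nonneg (by positivity :
      0 ≤ ((3 * a - y) / 2) ^ 2 + 27 / 4 * s ^ 2), mul_add]
    linarith
  have hg0 : 0 < g := by linarith
  have c5 : |(F α β (z₁ - z₂) : ℝ)| < 1 := by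
    rw [abs_mul, abs_mul, abs_of_pos (by norm_num : (0 : ℝ) < 27), abs_of_pos hg0] at c4
    by_contra hcon
    push Not at hcon
    have : g * 1 ≤ g * |(F α β (z₁ - z₂) : ℝ)| := mul_le_mul_of_nonneg_left hcon hg0.le
    linarith
  have c6 : |F α β (z₁ - z₂)| < 1 := by
    have : ((|F α β (z₁ - z₂)| : ℤ) : ℝ) < ((1 : ℤ) : ℝ) := by
      rw [Int.cast_abs, Int.cast_one]; exact c5
    exact_mod_cast this
  exact Int.abs_lt_one_iff.mp c6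

/-- Row D1b. A degenerate vector with small `ξ`. If `u = 0` then `α v³ = 0`, `v = 0`, `ξ = a` is an integer with
`|ξ| < 1`, `z = 0`. Similarly `v ≠ 0`. `a ≠ 0` by `cl_indep`. `u v > 0`: `F = 0` gives `ξ V W = D³`
(`aVW = V³ - W³`); if `VW < 0` then `D² ≥ 4|VW|`, `|D|³ = |ξ||VW| ≤ |ξ| D²/4`, `|D| ≤ 1/50`, `|a| = |ξ + 3D| < 1`,
`a = 0`, contradiction. -/
theorem degen {α β : ℕ} {p q : ℝ} (h : Cl α β p q) (z : ℤ × ℤ × ℤ) (hz : z ≠ 0) (hF : F α β z = 0)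
    (hX : |xX p q z| ≤ 2 / 25) : z.1 ≠ 0 ∧ 0 < z.2.1 * z.2.2 := by
  obtain ⟨hα, hβ, -, -, -, hab, hp, hq, e1, e2, e3⟩ := id h
  obtain ⟨a, u, v⟩ := z
  have hαZ : (α : ℤ) ≠ 0 := by
    have : (1 : ℤ) ≤ α := by exact_mod_cast hα
    omega
  have hβZ : (β : ℤ) ≠ 0 := by
    have : (1 : ℤ) ≤ β := by exact_mod_cast hβ
    omega
  have hF' : (α : ℤ) * v ^ 3 - β * u ^ 3 - a * u * v = 0 := hF
  have hX' : |(a : ℝ) - 3 * (v * q - u * p)| ≤ 2 / 25 := hX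
  -- a small integer is zero
  have small : ∀ b : ℤ, |(b : ℝ)| < 1 → b = 0 := by
    intro b hb
    have : ((|b| : ℤ) : ℝ) < ((1 : ℤ) : ℝ) := by
      rw [Int.cast_abs, Int.cast_one]; exact hb
    have h2 : |b| < 1 := by exact_mod_cast this
    exact Int.abs_lt_one_iff.mp h2
  have huv : ¬ (u = 0 ∧ v = 0) := by
    rintro ⟨rfl, rfl⟩
    have : |(a : ℝ)| < 1 := by
      simp only [Int.cast_zero, zero_mul, sub_zero, mul_zero] at hX'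
      linarith
    have ha := small a this
    subst ha
    exact hz rfl
  have hu : u ≠ 0 := by
    rintro rfl
    have h1 : (α : ℤ) * v ^ 3 = 0 := by linarith
    rcases mul_eq_zero.mp h1 with h2 | h2
    · exact hαZ h2
    · exact huv ⟨rfl, pow_eq_zero_iff (by norm_num) |>.mp h2⟩
  have hv : v ≠ 0 := by
    rintro rfl
    have h1 : (β : ℤ) * u ^ 3 = 0 := by linarith
    rcases mul_eq_zero.mp h1 with h2 | h2
    · exact hβZ h2
    · exact huv ⟨pow_eq_zero_iff (by norm_num) |>.mp h2, rfl⟩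
  have ha : a ≠ 0 := by
    rintro rfl
    have h1 : (α : ℤ) * v ^ 3 = β * u ^ 3 := by linarith
    exact huv (cl_indep h u v h1)
  refine ⟨ha, ?_⟩
  by_contra hcon
  push Not at hcon
  have hlt : u * v < 0 := lt_of_le_of_ne hcon (mul_ne_zero hu hv)
  have hltR : (u : ℝ) * v < 0 := by exact_mod_cast hlt
  have hFR : (α : ℝ) * v ^ 3 - β * u ^ 3 - a * u * v = 0 := by exact_mod_cast hF'
  obtain ⟨D, hD⟩ : ∃ D : ℝ, D = (v : ℝ) * q - u * p := ⟨_, rfl⟩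
  obtain ⟨x, hx⟩ : ∃ x : ℝ, x = (a : ℝ) - 3 * D := ⟨_, rfl⟩
  have hX2 : |x| ≤ 2 / 25 := by rw [hx, hD]; exact hX'
  obtain ⟨w, hw⟩ : ∃ w : ℝ, w = -(((v : ℝ) * q) * (u * p)) := ⟨_, rfl⟩
  have hw0 : 0 < w := by
    have : 0 < p * q := mul_pos hp hq
    rw [hw]
    nlinarith
  have hDw : 4 * w ≤ D ^ 2 := by
    rw [hw, hD]
    nlinarith [sq_nonneg ((v : ℝ) * q + u * p)]
  have hcube : D ^ 3 = - (x * w) := by
    rw [hx, hw, hD]
    linear_combination (α : ℝ) * β * hFR + ((α : ℝ) * v ^ 3 - β * u ^ 3 - a * u * v) * e3 +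
      (q * v ^ 3) * e2 + (-p * u ^ 3) * e1
  have hD0 : D ≠ 0 := by
    rintro h0
    rw [h0] at hDw
    norm_num at hDw
    linarith
  have habsD : 0 < |D| := abs_pos.mpr hD0
  have h1 : |D| ^ 3 ≤ |x| * (D ^ 2 / 4) := by
    rw [← abs_pow, hcube, abs_neg, abs_mul, abs_of_pos hw0]
    exact mul_le_mul_of_nonneg_left (by linarith) (abs_nonneg _)
  have h2 : |D| ≤ |x| / 4 := by
    rw [← sq_abs D] at h1
    have h3 : |D| ^ 2 * |D| ≤ |D| ^ 2 * (|x| / 4) := by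
      calc |D| ^ 2 * |D| = |D| ^ 3 := by ring
        _ ≤ |x| * (|D| ^ 2 / 4) := h1
        _ = _ := by ring
    exact le_of_mul_le_mul_left h3 (by positivity)
  have h3 : |(a : ℝ)| < 1 := by
    have e : (a : ℝ) = x + 3 * D := by rw [hx]; ring
    rw [e]
    have := abs_add_le x (3 * D)
    rw [abs_mul, abs_of_pos (by norm_num : (0 : ℝ) < 3)] at this
    linarith
  exact ha (small a h3)

end T44
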