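import Pool.Agent.LibT44.Defs

namespace T44

theorem triple (α β : ℕ) (z₁ z₂ : ℤ × ℤ × ℤ) (h₁ : F α β z₁ = 0) (h₂ : F α β z₂ = 0)
    (h₃ : F α β (z₁ + z₂) = 0) :
    z₁.2.1 * z₂.2.2 = z₂.2.1 * z₁.2.2 ∨
      (α : ℤ) * (z₁.2.2 * z₂.2.2 * (z₁.2.2 + z₂.2.2)) = β * (z₁.2.1 * z₂.2.1 * (z₁.2.1 + z₂.2.1)) := by
  obtain ⟨a1, u1, v1⟩ := z₁
  obtain ⟨a2, u2, v2⟩ := z₂
  simp only [F, Prod.mk_add_mk] at h₁ h₂ h₃ ⊢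
  have key : (u1 * v2 - u2 * v1) ^ 2 * ((α : ℤ) * (v1 * v2 * (v1 + v2)) - β * (u1 * u2 * (u1 + u2))) = 0 := by
    linear_combination (-(u1 * v1 * u2 * v2)) * h₃ + (u2 * v2 * (u1 + u2) * (v1 + v2)) * h₁ +
      (u1 * v1 * (u1 + u2) * (v1 + v2)) * h₂
  rcases mul_eq_zero.mp key with h | h
  · left
    have := pow_eq_zero_iff (two_ne_zero) |>.mp h
    linarith
  · right
    linarith

theorem prop_zero (α β : ℕ) (z₁ z₂ : ℤ × ℤ × ℤ) (h₁ : F α β z₁ = 0) (h₂ : F α β z₂ = 0)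
    (h : z₁.2.1 * z₂.2.2 = z₂.2.1 * z₁.2.2) (hu₁ : z₁.2.1 ≠ 0) (hv₁ : z₁.2.2 ≠ 0) (hu₂ : z₂.2.1 ≠ 0)
    (hv₂ : z₂.2.2 ≠ 0) : z₁.1 * z₂.2.1 = z₂.1 * z₁.2.1 ∧ z₁.1 * z₂.2.2 = z₂.1 * z₁.2.2 := by
  obtain ⟨a1, u1, v1⟩ := z₁
  obtain ⟨a2, u2, v2⟩ := z₂
  simp only [F] at h₁ h₂ h hu₁ hv₁ hu₂ hv₂ ⊢
  have key : (a1 * u2 - a2 * u1) * (u1 * u1 * u2 * v2) = 0 := by
    linear_combination (-u2 ^ 3) * h₁ + (u1 ^ 3) * h₂ +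
      (a1 * u1 * u2 ^ 2 - (α : ℤ) * ((u1 * v2) ^ 2 + u1 * v2 * (u2 * v1) + (u2 * v1) ^ 2)) * h
  have h4 : a1 * u2 = a2 * u1 := by
    rcases mul_eq_zero.mp key with h | h
    · linarith
    · exact absurd h (by positivity)
  refine ⟨h4, ?_⟩
  have h5 : u1 * (a1 * v2 - a2 * v1) = 0 := by
    linear_combination v1 * h4 + a1 * h
  rcases mul_eq_zero.mp h5 with h | h
  · exact absurd h hu₁
  · linarith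

end T44
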