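import Pool.Agent.LibT44.D2

namespace T44

/-- slope of the difference of two points in the `(u,v)`-plane -/
private def d3_r (x y : ℤ × ℤ × ℤ) : ℚ := ((x - y).2.2 : ℚ) / ((x - y).2.1 : ℚ)

private lemma d3_r_symm (x y : ℤ × ℤ × ℤ) : d3_r x y = d3_r y x := by
  unfold d3_r
  have h1 : (x - y).2.2 = -((y - x).2.2) := by simp
  have h2 : (x - y).2.1 = -((y - x).2.1) := by simp
  rw [h1, h2]
  push_cast
  rw [neg_div_neg_eq]

private lemma d3_r_pos {x y : ℤ × ℤ × ℤ} (h : 0 < (x - y).2.1 * (x - y).2.2) : 0 < d3_r x y := by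
  unfold d3_r
  have h' : (0 : ℚ) < ((x - y).2.1 : ℚ) * ((x - y).2.2 : ℚ) := by exact_mod_cast h
  rcases pos_and_pos_or_neg_and_neg_of_mul_pos h' with ⟨a, b⟩ | ⟨a, b⟩
  · exact div_pos b a
  · exact div_pos_of_neg_of_neg b a

/-- cross product -/
private def d3_C (x y w : ℤ × ℤ × ℤ) : Prop :=
  (y - x).2.1 * (w - x).2.2 = (w - x).2.1 * (y - x).2.2

private lemma d3_C_iff {x y w : ℤ × ℤ × ℤ} (h1 : (y - x).2.1 ≠ 0) (h2 : (w - x).2.1 ≠ 0) :
    d3_C x y w ↔ d3_r y x = d3_r w x := by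
  unfold d3_C d3_r
  have h1' : ((y - x).2.1 : ℚ) ≠ 0 := by exact_mod_cast h1
  have h2' : ((w - x).2.1 : ℚ) ≠ 0 := by exact_mod_cast h2
  rw [div_eq_div_iff h1' h2']
  constructor
  · intro h
    have : ((y - x).2.1 : ℚ) * ((w - x).2.2 : ℚ) = ((w - x).2.1 : ℚ) * ((y - x).2.2 : ℚ) := by
      exact_mod_cast h
    linarith
  · intro h
    have : ((y - x).2.1 : ℚ) * ((w - x).2.2 : ℚ) = ((w - x).2.1 : ℚ) * ((y - x).2.2 : ℚ) := by
      linarith
    exact_mod_cast this

private lemma d3_C_swap (x y w : ℤ × ℤ × ℤ) : d3_C x y w ↔ d3_C x w y := by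
  unfold d3_C
  constructor <;> intro h <;> linarith

private lemma d3_C_rot (x y w : ℤ × ℤ × ℤ) : d3_C x y w ↔ d3_C y w x := by
  unfold d3_C
  simp only [Prod.fst_sub, Prod.snd_sub]
  constructor <;> intro h <;> nlinarith [h]

private lemma d3_fact {α β : ℕ} {x y w : ℤ × ℤ × ℤ}
    (hxy : F α β (y - x) = 0 ∧ 0 < (y - x).2.1 * (y - x).2.2)
    (hyw : F α β (w - y) = 0 ∧ 0 < (w - y).2.1 * (w - y).2.2)
    (hxw : F α β (w - x) = 0 ∧ 0 < (w - x).2.1 * (w - x).2.2) (hC : ¬ d3_C x y w) :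
    (α : ℚ) * (d3_r y x * d3_r w y * d3_r w x) = β := by
  have e : (y - x) + (w - y) = w - x := by abel
  rcases triple α β (y - x) (w - y) hxy.1 hyw.1 (by rw [e]; exact hxw.1) with h | h
  · exfalso
    apply hC
    unfold d3_C
    rw [← e]
    simp only [Prod.fst_add, Prod.snd_add]
    linarith
  · unfold d3_r
    have e1 : (w - x).2.1 = (y - x).2.1 + (w - y).2.1 := by rw [← e]; rfl
    have e2 : (w - x).2.2 = (y - x).2.2 + (w - y).2.2 := by rw [← e]; rfl
    rw [← e1, ← e2] at h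
    have n1 : ((y - x).2.1 : ℚ) ≠ 0 := by
      have : (y - x).2.1 ≠ 0 := by intro h0; rw [h0] at hxy; simp at hxy
      exact_mod_cast this
    have n2 : ((w - y).2.1 : ℚ) ≠ 0 := by
      have : (w - y).2.1 ≠ 0 := by intro h0; rw [h0] at hyw; simp at hyw
      exact_mod_cast this
    have n3 : ((w - x).2.1 : ℚ) ≠ 0 := by
      have : (w - x).2.1 ≠ 0 := by intro h0; rw [h0] at hxw; simp at hxw
      exact_mod_cast this
    have h' : (α : ℚ) * (((y - x).2.2 : ℚ) * ((w - y).2.2 : ℚ) * ((w - x).2.2 : ℚ)) =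
        β * (((y - x).2.1 : ℚ) * ((w - y).2.1 : ℚ) * ((w - x).2.1 : ℚ)) := by exact_mod_cast h
    generalize ((y - x).2.1 : ℚ) = u1 at *
    generalize ((w - y).2.1 : ℚ) = u2 at *
    generalize ((w - x).2.1 : ℚ) = u3 at *
    generalize ((y - x).2.2 : ℚ) = v1 at *
    generalize ((w - y).2.2 : ℚ) = v2 at *
    generalize ((w - x).2.2 : ℚ) = v3 at *
    field_simp
    linarith

private lemma d3_step2 {α β : ℕ} (hα : 1 ≤ α) {T : Finset (ℤ × ℤ × ℤ)}
    (h : ∀ x ∈ T, ∀ y ∈ T, x ≠ y → F α β (x - y) = 0 ∧ 0 < (x - y).2.1 * (x - y).2.2)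
    {a b c d : ℤ × ℤ × ℤ} (ha : a ∈ T) (hb : b ∈ T) (hc : c ∈ T) (hd : d ∈ T)
    (hab : a ≠ b) (hac : a ≠ c) (had : a ≠ d) (hbc : b ≠ c) (hbd : b ≠ d) (hcd : c ≠ d)
    (hC : d3_C a b c) : d3_C a b d := by
  have hu : ∀ x ∈ T, ∀ y ∈ T, x ≠ y → (x - y).2.1 ≠ 0 := by
    intro x hx y hy hxy h0
    have := (h x hx y hy hxy).2
    rw [h0] at this
    simp at this
  have hr : ∀ x ∈ T, ∀ y ∈ T, x ≠ y → 0 < d3_r x y := by
    intro x hx y hy hxy
    exact d3_r_pos (h x hx y hy hxy).2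
  by_contra hn
  have hba := hu b hb a ha hab.symm
  have hca := hu c hc a ha hac.symm
  have hda := hu d hd a ha had.symm
  have hbd' := hu b hb d hd hbd
  have hcd' := hu c hc d hd hcd
  have hdb' := hu d hd b hb hbd.symm
  have hcb' := hu c hc b hb hbc.symm
  have hab' := hu a ha b hb hab
  have e1 : d3_r b a = d3_r c a := (d3_C_iff hba hca).1 hC
  have hn2 : ¬ d3_C a c d := by
    intro hh
    have e2 : d3_r c a = d3_r d a := (d3_C_iff hca hda).1 hh
    exact hn ((d3_C_iff hba hda).2 (e1.trans e2))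
  have f1 := d3_fact (h b hb a ha hab.symm) (h d hd b hb hbd.symm) (h d hd a ha had.symm) hn
  have f2 := d3_fact (h c hc a ha hac.symm) (h d hd c hc hcd.symm) (h d hd a ha had.symm) hn2
  have p1 := hr c hc a ha hac.symm
  have p2 := hr d hd a ha had.symm
  have hα' : (0 : ℚ) < α := by exact_mod_cast hα
  rw [e1] at f1
  have e3 : d3_r d b = d3_r d c := by
    have h0 : (α : ℚ) * d3_r c a * d3_r d a * (d3_r d b - d3_r d c) = 0 := by linarith
    rcases mul_eq_zero.mp h0 with h1 | h1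
    · exact absurd h1 (by positivity)
    · linarith
  have g1 : d3_C b d a := by
    -- slopes at b : d b, a b, c b all equal
    have k1 : d3_C d b c := (d3_C_iff hbd' hcd').2 (by rw [d3_r_symm b d, d3_r_symm c d]; exact e3)
    -- d b c collinear, a b c collinear
    have k2 : d3_C b c d := (d3_C_rot d b c).1 k1
    have k3 : d3_C b c a := (d3_C_rot a b c).1 hC
    have k4 := (d3_C_iff hcb' hdb').1 k2
    have k5 := (d3_C_iff hcb' hab').1 k3
    exact (d3_C_iff hdb' hab').2 (k4.symm.trans k5)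
  exact hn ((d3_C_rot a b d).2 g1)

private lemma d3_step1 {α β : ℕ} (hα : 1 ≤ α) {T : Finset (ℤ × ℤ × ℤ)}
    (h : ∀ x ∈ T, ∀ y ∈ T, x ≠ y → F α β (x - y) = 0 ∧ 0 < (x - y).2.1 * (x - y).2.2)
    {a b c d : ℤ × ℤ × ℤ} (ha : a ∈ T) (hb : b ∈ T) (hc : c ∈ T) (hd : d ∈ T)
    (hab : a ≠ b) (hac : a ≠ c) (had : a ≠ d) (hbc : b ≠ c) (hbd : b ≠ d) (hcd : c ≠ d) :
    d3_C a b c ∨ d3_C a b d ∨ d3_C a c d ∨ d3_C b c d := by
  have hr : ∀ x ∈ T, ∀ y ∈ T, x ≠ y → 0 < d3_r x y := by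
    intro x hx y hy hxy
    exact d3_r_pos (h x hx y hy hxy).2
  have hu : ∀ x ∈ T, ∀ y ∈ T, x ≠ y → (x - y).2.1 ≠ 0 := by
    intro x hx y hy hxy h0
    have := (h x hx y hy hxy).2
    rw [h0] at this
    simp at this
  by_contra hn
  simp only [not_or] at hn
  obtain ⟨n1, n2, n3, n4⟩ := hn
  have f1 := d3_fact (h b hb a ha hab.symm) (h c hc b hb hbc.symm) (h c hc a ha hac.symm) n1
  have f2 := d3_fact (h b hb a ha hab.symm) (h d hd b hb hbd.symm) (h d hd a ha had.symm) n2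
  have f3 := d3_fact (h c hc a ha hac.symm) (h d hd c hc hcd.symm) (h d hd a ha had.symm) n3
  have f4 := d3_fact (h c hc b hb hbc.symm) (h d hd c hc hcd.symm) (h d hd b hb hbd.symm) n4
  have hα' : (0 : ℚ) < α := by exact_mod_cast hα
  have p1 := hr b hb a ha hab.symm
  have p2 := hr c hc a ha hac.symm
  have p3 := hr d hd a ha had.symm
  have p4 := hr c hc b hb hbc.symm
  have p5 := hr d hd b hb hbd.symm
  have p6 := hr d hd c hc hcd.symm
  obtain ⟨q1, q2, q3⟩ : d3_r b a = d3_r d c ∧ d3_r c a = d3_r d b ∧ d3_r d a = d3_r c b := by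
    generalize d3_r b a = r01 at *
    generalize d3_r c a = r02 at *
    generalize d3_r d a = r03 at *
    generalize d3_r c b = r12 at *
    generalize d3_r d b = r13 at *
    generalize d3_r d c = r23 at *
    have a1 : r12 * r02 = r13 * r03 := by
      have h0 : (α : ℚ) * r01 * (r12 * r02 - r13 * r03) = 0 := by linarith
      rcases mul_eq_zero.mp h0 with h1 | h1
      · exact absurd h1 (by positivity)
      · linarith
    have a2 : r01 * r12 = r23 * r03 := by
      have h0 : (α : ℚ) * r02 * (r01 * r12 - r23 * r03) = 0 := by linarith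
      rcases mul_eq_zero.mp h0 with h1 | h1
      · exact absurd h1 (by positivity)
      · linarith
    have a3 : r01 * r02 = r23 * r13 := by
      have h0 : (α : ℚ) * r12 * (r01 * r02 - r23 * r13) = 0 := by linarith
      rcases mul_eq_zero.mp h0 with h1 | h1
      · exact absurd h1 (by positivity)
      · linarith
    have a4 : r01 = r23 := by
      have h0 : (r12 * r02) * (r01 ^ 2 - r23 ^ 2) = 0 := by
        linear_combination (r01 * r02) * a2 + (r23 * r03) * a3 - r23 ^ 2 * a1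
      rcases mul_eq_zero.mp h0 with h1 | h1
      · exact absurd h1 (by positivity)
      · have h2 : (r01 - r23) * (r01 + r23) = 0 := by linarith
        rcases mul_eq_zero.mp h2 with h3 | h3
        · linarith
        · linarith
    refine ⟨a4, ?_, ?_⟩
    · rw [a4] at a3
      exact mul_left_cancel₀ p6.ne' a3
    · rw [a4] at a2
      exact (mul_left_cancel₀ p6.ne' a2).symm
  -- now cross products
  have c1 : (b - a).2.1 * (d - c).2.2 = (d - c).2.1 * (b - a).2.2 := by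
    have := q1
    unfold d3_r at this
    have h1' : ((b - a).2.1 : ℚ) ≠ 0 := by exact_mod_cast hu b hb a ha hab.symm
    have h2' : ((d - c).2.1 : ℚ) ≠ 0 := by exact_mod_cast hu d hd c hc hcd.symm
    rw [div_eq_div_iff h1' h2'] at this
    have h3 : ((b - a).2.2) * ((d - c).2.1) = ((d - c).2.2) * ((b - a).2.1) := by exact_mod_cast this
    linarith
  have c2 : (c - a).2.1 * (d - b).2.2 = (d - b).2.1 * (c - a).2.2 := by
    have := q2
    unfold d3_r at this
    have h1' : ((c - a).2.1 : ℚ) ≠ 0 := by exact_mod_cast hu c hc a ha hac.symm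
    have h2' : ((d - b).2.1 : ℚ) ≠ 0 := by exact_mod_cast hu d hd b hb hbd.symm
    rw [div_eq_div_iff h1' h2'] at this
    have h3 : ((c - a).2.2) * ((d - b).2.1) = ((d - b).2.2) * ((c - a).2.1) := by exact_mod_cast this
    linarith
  have c3 : (d - a).2.1 * (c - b).2.2 = (c - b).2.1 * (d - a).2.2 := by
    have := q3
    unfold d3_r at this
    have h1' : ((d - a).2.1 : ℚ) ≠ 0 := by exact_mod_cast hu d hd a ha had.symm
    have h2' : ((c - b).2.1 : ℚ) ≠ 0 := by exact_mod_cast hu c hc b hb hbc.symm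
    rw [div_eq_div_iff h1' h2'] at this
    have h3 : ((d - a).2.2) * ((c - b).2.1) = ((c - b).2.2) * ((d - a).2.1) := by exact_mod_cast this
    linarith
  apply n1
  unfold d3_C
  simp only [Prod.fst_sub, Prod.snd_sub] at c1 c2 c3 ⊢
  linarith

theorem collinear (α β : ℕ) (hα : 1 ≤ α) (hβ : 1 ≤ β) (T : Finset (ℤ × ℤ × ℤ)) (hT : 4 ≤ T.card)
    (h : ∀ x ∈ T, ∀ y ∈ T, x ≠ y → F α β (x - y) = 0 ∧ 0 < (x - y).2.1 * (x - y).2.2) :
    ∀ x ∈ T, ∀ y ∈ T, ∀ w ∈ T, (y - x).2.1 * (w - x).2.2 = (w - x).2.1 * (y - x).2.2 := by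
  intro x hx y hy w hw
  by_cases hxy : x = y
  · subst hxy; simp
  by_cases hxw : x = w
  · subst hxw; simp
  by_cases hyw : y = w
  · subst hyw; ring
  obtain ⟨z, hz, hz'⟩ : ∃ z ∈ T, z ∉ ({x, y, w} : Finset (ℤ × ℤ × ℤ)) := by
    apply Finset.exists_mem_notMem_of_card_lt_card
    have := Finset.card_le_three (a := x) (b := y) (c := w)
    omega
  simp only [Finset.mem_insert, Finset.mem_singleton, not_or] at hz'
  obtain ⟨zx, zy, zw⟩ := hz'
  rcases d3_step1 hα h hx hy hw hz hxy hxw (Ne.symm zx) hyw (Ne.symm zy) (Ne.symm zw) with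
    h1 | h1 | h1 | h1
  · exact h1
  · exact d3_step2 hα h hx hy hz hw hxy (Ne.symm zx) hxw (Ne.symm zy) hyw zw h1
  · have h2 := d3_step2 hα h hx hw hz hy hxw (Ne.symm zx) hxy (Ne.symm zw) (Ne.symm hyw) zy h1
    exact (d3_C_swap x w y).1 h2
  · have h2 := d3_step2 hα h hy hw hz hx hyw (Ne.symm zy) (Ne.symm hxy) (Ne.symm zw) (Ne.symm hxw) zx h1
    -- C y w x → C x y w
    exact (d3_C_rot x y w).2 h2

end T44
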