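import Pool.Agent.LibT44.A3
import Pool.Agent.LibT44.D2

namespace T44

theorem line_nonconst {α β : ℕ} {p q : ℝ} (h : Cl α β p q) (z₀ z' : ℤ × ℤ × ℤ) (h' : F α β z' = 0)
    (hu : z'.2.1 ≠ 0) (hv : z'.2.2 ≠ 0)
    (e₂ : 3 * (α : ℤ) * z'.2.2 ^ 2 * z₀.2.2 - 3 * (β : ℤ) * z'.2.1 ^ 2 * z₀.2.1 -
      (z'.1 * z'.2.1 * z₀.2.2 + z'.1 * z₀.2.1 * z'.2.2 + z₀.1 * z'.2.1 * z'.2.2) = 0)
    (e₁ : 3 * (α : ℤ) * z'.2.2 * z₀.2.2 ^ 2 - 3 * (β : ℤ) * z'.2.1 * z₀.2.1 ^ 2 -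
      (z'.1 * z₀.2.1 * z₀.2.2 + z₀.1 * z'.2.1 * z₀.2.2 + z₀.1 * z₀.2.1 * z'.2.2) = 0) :
    F α β z₀ = 0 := by
  obtain ⟨a0, u0, v0⟩ := z₀
  obtain ⟨a1, u1, v1⟩ := z'
  simp only [F] at h' hu hv e₂ e₁ ⊢
  -- V = u1 v0 - u0 v1, A = u1 a0 - u0 a1
  have I3 : (α : ℤ) * (u1 * v0 - u0 * v1) ^ 3 =
      u1 ^ 3 * ((α : ℤ) * v0 ^ 3 - β * u0 ^ 3 - a0 * u0 * v0) := by
    linear_combination (-(u1 ^ 2 * u0)) * e₁ + (u1 * u0 ^ 2) * e₂ - u0 ^ 3 * h'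
  have I2 : (u1 * v0 - u0 * v1) * (3 * (α : ℤ) * v1 * (u1 * v0 - u0 * v1) - (u1 * a0 - u0 * a1) * u1) = 0 := by
    linear_combination (u1 ^ 2) * e₁ + (-2 * u1 * u0) * e₂ + (3 * u0 ^ 2) * h'
  have I1 : 3 * (α : ℤ) * v1 ^ 2 * (u1 * v0 - u0 * v1) -
      (a1 * u1 * (u1 * v0 - u0 * v1) + (u1 * a0 - u0 * a1) * u1 * v1) = 0 := by
    linear_combination u1 * e₂ + (-3 * u0) * h'
  rcases mul_eq_zero.mp I2 with hV | hV
  · rw [hV] at I3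
    have h3 : u1 ^ 3 * ((α : ℤ) * v0 ^ 3 - β * u0 ^ 3 - a0 * u0 * v0) = 0 := by
      rw [← I3]; ring
    rcases mul_eq_zero.mp h3 with h4 | h4
    · exact absurd h4 (pow_ne_zero _ hu)
    · exact h4
  · have h5 : (u1 * v0 - u0 * v1) * (a1 * u1) = 0 := by
      linear_combination v1 * hV - I1
    rcases mul_eq_zero.mp h5 with h6 | h6
    · rw [h6] at I3
      have h3 : u1 ^ 3 * ((α : ℤ) * v0 ^ 3 - β * u0 ^ 3 - a0 * u0 * v0) = 0 := by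
        rw [← I3]; ring
      rcases mul_eq_zero.mp h3 with h4 | h4
      · exact absurd h4 (pow_ne_zero _ hu)
      · exact h4
    · rcases mul_eq_zero.mp h6 with h7 | h7
      · rw [h7] at h'
        have := cl_indep h u1 v1 (by linarith)
        exact absurd this.1 hu
      · exact absurd h7 hu

theorem line_count {α β : ℕ} {p q : ℝ} (h : Cl α β p q) (K : ℕ) (T : Finset (ℤ × ℤ × ℤ))
    (hT : 2 ≤ T.card) (hF : ∀ z ∈ T, F α β z ≠ 0 ∧ |F α β z| ≤ K)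
    (hd : ∀ x ∈ T, ∀ y ∈ T, x ≠ y → F α β (x - y) = 0 ∧ 0 < (x - y).2.1 * (x - y).2.2)
    (hl : ∀ x ∈ T, ∀ y ∈ T, ∀ w ∈ T,
      (y - x).2.1 * (w - x).2.2 = (w - x).2.1 * (y - x).2.2) :
    T.card ≤ 4 * K := by
  classical
  obtain ⟨x0, hx0, x1, hx1, hne⟩ := Finset.one_lt_card.mp (by omega : 1 < T.card)
  have hd1 := hd x1 hx1 x0 hx0 (Ne.symm hne)
  have hF0 := hF x0 hx0
  -- the direction
  have key : ∀ z ∈ T, (x1 - x0).1 * (z - x0).2.1 = (z - x0).1 * (x1 - x0).2.1 ∧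
      (x1 - x0).2.2 * (z - x0).2.1 = (z - x0).2.2 * (x1 - x0).2.1 := by
    intro z hz
    by_cases hzx : z = x0
    · subst hzx; simp
    · have hdz := hd z hz x0 hx0 hzx
      have hl' := hl x0 hx0 x1 hx1 z hz
      have hu1 : (x1 - x0).2.1 ≠ 0 := by
        intro h0; rw [h0] at hd1; simp at hd1
      have hv1 : (x1 - x0).2.2 ≠ 0 := by
        intro h0; rw [h0] at hd1; simp at hd1
      have hu2 : (z - x0).2.1 ≠ 0 := by
        intro h0; rw [h0] at hdz; simp at hdz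
      have hv2 : (z - x0).2.2 ≠ 0 := by
        intro h0; rw [h0] at hdz; simp at hdz
      refine ⟨(prop_zero α β (x1 - x0) (z - x0) hd1.1 hdz.1 hl' hu1 hv1 hu2 hv2).1, ?_⟩
      linarith
  have hu1 : (x1 - x0).2.1 ≠ 0 := by
    intro h0; rw [h0] at hd1; simp at hd1
  have hv1 : (x1 - x0).2.2 ≠ 0 := by
    intro h0; rw [h0] at hd1; simp at hd1
  obtain ⟨a0, u0, v0⟩ := x0
  obtain ⟨b1, w1, y1⟩ := x1
  simp only [Prod.fst_sub, Prod.snd_sub] at key hu1 hv1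
  set a1 : ℤ := b1 - a0 with ha1
  set u1 : ℤ := w1 - u0 with hu1d
  set v1 : ℤ := y1 - v0 with hv1d
  have hz' : F α β (a1, u1, v1) = 0 := hd1.1
  set E₂ : ℤ := 3 * (α : ℤ) * v1 ^ 2 * v0 - 3 * (β : ℤ) * u1 ^ 2 * u0 -
      (a1 * u1 * v0 + a1 * u0 * v1 + a0 * u1 * v1) with hE₂
  set E₁ : ℤ := 3 * (α : ℤ) * v1 * v0 ^ 2 - 3 * (β : ℤ) * u1 * u0 ^ 2 -
      (a1 * u0 * v0 + a0 * u1 * v0 + a0 * u0 * v1) with hE₁
  have hnc : ¬ (E₂ = 0 ∧ E₁ = 0) := by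
    rintro ⟨g2, g1⟩
    exact hF0.1 (line_nonconst h (a0, u0, v0) (a1, u1, v1) hz' hu1 hv1 g2 g1)
  have hval : ∀ z ∈ T, u1 ^ 2 * F α β z = u1 ^ 2 * F α β (a0, u0, v0) + (z.2.1 - u0) * u1 * E₁ +
      (z.2.1 - u0) ^ 2 * E₂ := by
    intro z hz
    obtain ⟨k1, k2⟩ := key z hz
    obtain ⟨a, u, v⟩ := z
    simp only [F] at hz' k1 k2 ⊢
    have hmul : u1 * (u1 ^ 2 * ((α : ℤ) * v ^ 3 - β * u ^ 3 - a * u * v) -
        (u1 ^ 2 * ((α : ℤ) * v0 ^ 3 - β * u0 ^ 3 - a0 * u0 * v0) + (u - u0) * u1 * E₁ +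
      (u - u0) ^ 2 * E₂)) = 0 := by
      have e1 : u1 * a = a0 * u1 + a1 * (u - u0) := by linarith
      have e2 : u1 * v = v0 * u1 + v1 * (u - u0) := by linarith
      have e3 : u1 ^ 3 * ((α : ℤ) * v ^ 3 - β * u ^ 3 - a * u * v) =
          (α : ℤ) * (u1 * v) ^ 3 - β * (u1 * u) ^ 3 - (u1 * a) * (u1 * u) * (u1 * v) := by ring
      have e4 : u1 * (u1 ^ 2 * ((α : ℤ) * v ^ 3 - β * u ^ 3 - a * u * v) -
        (u1 ^ 2 * ((α : ℤ) * v0 ^ 3 - β * u0 ^ 3 - a0 * u0 * v0) + (u - u0) * u1 * E₁ +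
      (u - u0) ^ 2 * E₂)) = u1 ^ 3 * ((α : ℤ) * v ^ 3 - β * u ^ 3 - a * u * v) -
        u1 * (u1 ^ 2 * ((α : ℤ) * v0 ^ 3 - β * u0 ^ 3 - a0 * u0 * v0) + (u - u0) * u1 * E₁ +
      (u - u0) ^ 2 * E₂) := by ring
      rw [e4, e3, e1, e2, hE₁, hE₂]
      have e5 : u1 * u = u0 * u1 + u1 * (u - u0) := by ring
      rw [e5]
      linear_combination (u - u0) ^ 3 * hz'
    rcases mul_eq_zero.mp hmul with g | g
    · exact absurd g hu1
    · linarith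
  -- injectivity in u
  have hinj : ∀ z ∈ T, ∀ z₂ ∈ T, z.2.1 = z₂.2.1 → z = z₂ := by
    intro z hz z₂ hz₂ he
    by_contra hzz
    have := (hd z hz z₂ hz₂ hzz).2
    have h0 : (z - z₂).2.1 = 0 := by
      simp only [Prod.fst_sub, Prod.snd_sub]; linarith
    rw [h0] at this
    simp at this
  -- counting
  have himg : (T.image (F α β)) ⊆ (Finset.Icc (-(K : ℤ)) K).erase 0 := by
    intro f hf
    obtain ⟨z, hz, rfl⟩ := Finset.mem_image.mp hf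
    obtain ⟨g1, g2⟩ := hF z hz
    rw [Finset.mem_erase, Finset.mem_Icc]
    exact ⟨g1, abs_le.mp g2⟩
  have hcard : (T.image (F α β)).card ≤ 2 * K := by
    refine (Finset.card_le_card himg).trans ?_
    rw [Finset.card_erase_of_mem (by simp), Int.card_Icc]
    omega
  have hfib : ∀ f ∈ T.image (F α β), (T.filter (fun z => F α β z = f)).card ≤ 2 := by
    intro f _
    by_contra hgt
    push Not at hgt
    obtain ⟨x, y, w, hx, hy, hw, hxy, hxw, hyw⟩ := Finset.two_lt_card_iff.mp hgt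
    rw [Finset.mem_filter] at hx hy hw
    have v1' := hval x hx.1
    have v2' := hval y hy.1
    have v3' := hval w hw.1
    rw [hx.2] at v1'
    rw [hy.2] at v2'
    rw [hw.2] at v3'
    have nxy : x.2.1 - y.2.1 ≠ 0 := fun h0 => hxy (hinj x hx.1 y hy.1 (by linarith))
    have nxw : x.2.1 - w.2.1 ≠ 0 := fun h0 => hxw (hinj x hx.1 w hw.1 (by linarith))
    have nyw : y.2.1 - w.2.1 ≠ 0 := fun h0 => hyw (hinj y hy.1 w hw.1 (by linarith))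
    have s1 : (x.2.1 - y.2.1) * (u1 * E₁ + (x.2.1 + y.2.1 - 2 * u0) * E₂) = 0 := by
      linear_combination v2' - v1'
    have s2 : (x.2.1 - w.2.1) * (u1 * E₁ + (x.2.1 + w.2.1 - 2 * u0) * E₂) = 0 := by
      linear_combination v3' - v1'
    have s1' := (mul_eq_zero.mp s1).resolve_left nxy
    have s2' := (mul_eq_zero.mp s2).resolve_left nxw
    have s3 : (y.2.1 - w.2.1) * E₂ = 0 := by linear_combination s1' - s2'
    have s4 := (mul_eq_zero.mp s3).resolve_left nyw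
    rw [s4] at s1'
    have s5 : u1 * E₁ = 0 := by linarith
    exact hnc ⟨s4, (mul_eq_zero.mp s5).resolve_left hu1⟩
  calc T.card ≤ 2 * (T.image (F α β)).card := Finset.card_le_mul_card_image T 2 hfib
    _ ≤ 2 * (2 * K) := by omega
    _ = 4 * K := by ring

end T44
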