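import Pool.Agent.LibT44.D1
import Pool.Agent.LibT44.D3
import Pool.Agent.LibT44.D4

namespace T44

/-- points of one cell -/
private theorem d5_cell {H α β : ℕ} {p q : ℝ} (h : Cl α β p q) (hH : 1 ≤ H) (U : ℝ) (hU0 : 0 < U)
    (hU : 144 * (H : ℝ) ^ 3 ≤ U ^ 2) (K : ℕ) (hK : 1 ≤ K) (T : Finset (ℤ × ℤ × ℤ))
    (hT : ∀ z ∈ T, Sol H α β z ∧ U ≤ sS p q z)
    (hF : ∀ z ∈ T, F α β z ≠ 0 ∧ |F α β z| ≤ K)
    (ha : ∀ x ∈ T, ∀ y ∈ T, |(x.1 : ℝ) - y.1| ^ 3 ≤ 9 * ((α : ℝ) * β))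
    (hS : ∀ x ∈ T, ∀ y ∈ T, 8 * (H : ℝ) ^ 3 * (sS p q x - sS p q y) ^ 2 ≤ (α : ℝ) * β * U ^ 2) :
    T.card ≤ 4 * K := by
  have hd : ∀ x ∈ T, ∀ y ∈ T, x ≠ y → F α β (x - y) = 0 ∧ 0 < (x - y).2.1 * (x - y).2.2 := by
    intro x hx y hy hxy
    obtain ⟨h1, h2⟩ := diff_zero h hH U hU0 hU x y (hT x hx).1 (hT y hy).1 (hT x hx).2 (hT y hy).2
      (ha x hx y hy) (hS x hx y hy)
    exact ⟨h1, (degen h (x - y) (sub_ne_zero.2 hxy) h1 h2).2⟩
  rcases le_or_gt 4 T.card with h4 | h4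
  · have hα : 1 ≤ α := h.1
    have hβ : 1 ≤ β := h.2.1
    exact line_count h K T (by omega) hF hd (collinear α β hα hβ T h4 hd)
  · omega

/-- Row D5 (one dyadic block). `M = H³/(αβ) ≥ 1` (if `T` is nonempty: `αβ ≤ αβ|F| ≤ H³`), `K = ⌊M⌋`. Cells:
`a`-cells of width `A₁ = (9αβ)^(1/3)` (index `⌊a/A₁⌋`, at most `2H/A₁ + 2 ≤ 3 M^(1/3)` of them), `S`-cells of width
`S₁ = U/√(8M)` (index `⌊(S-U)/S₁⌋`, at most `√(8M) + 1 ≤ 4√M`). Two solutions in one cell satisfy `diff_zero`, so by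
`degen` the difference is a zero of `F` with `uv > 0`; by `collinear` and `line_count` a cell contains at most `max 3 (4K) ≤ 4M`
solutions. Total `≤ 12 M^(5/6) · 4M ≤ 48 M²`. -/
theorem block {H α β : ℕ} {p q : ℝ} (h : Cl α β p q) (hH : 1 ≤ H) (U : ℝ) (hU0 : 0 < U)
    (hU : 144 * (H : ℝ) ^ 3 ≤ U ^ 2) (T : Finset (ℤ × ℤ × ℤ))
    (hT : ∀ z ∈ T, Sol H α β z ∧ U ≤ sS p q z ∧ sS p q z < 2 * U) :
    (T.card : ℝ) ≤ 48 * ((H : ℝ) ^ 3 / (α * β)) ^ 2 := by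
  classical
  rcases T.eq_empty_or_nonempty with hem | ⟨z₀, hz₀⟩
  · rw [hem, Finset.card_empty, Nat.cast_zero]
    positivity
  have hα : (1 : ℝ) ≤ α := by exact_mod_cast h.1
  have hβ : (1 : ℝ) ≤ β := by exact_mod_cast h.2.1
  have hH1 : (1 : ℝ) ≤ H := by exact_mod_cast hH
  have hαβ : (0 : ℝ) < (α : ℝ) * β := by positivity
  set M : ℝ := (H : ℝ) ^ 3 / (α * β) with hM
  have hMmul : M * (α * β) = (H : ℝ) ^ 3 := by
    rw [hM]
    field_simp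
  have hFM : ∀ z ∈ T, |(F α β z : ℝ)| ≤ M := by
    intro z hz
    obtain ⟨⟨-, -, h3, -, -⟩, -, -⟩ := hT z hz
    have h4 : ((α : ℝ) * β) * |(F α β z : ℝ)| ≤ (H : ℝ) ^ 3 := by exact_mod_cast h3
    rw [hM, le_div_iff₀ hαβ]
    linarith
  have hM1 : 1 ≤ M := by
    have h1 := hFM z₀ hz₀
    have h2 : F α β z₀ ≠ 0 := (hT z₀ hz₀).1.2.1
    have h3 : (1 : ℝ) ≤ |(F α β z₀ : ℝ)| := by
      have h4 : (1 : ℤ) ≤ |F α β z₀| := Int.one_le_abs h2
      exact_mod_cast h4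
    linarith
  have hM0 : 0 < M := by linarith
  set K : ℕ := ⌊M⌋₊ with hK
  have hK1 : 1 ≤ K := Nat.le_floor (by exact_mod_cast hM1)
  have hKM : (K : ℝ) ≤ M := Nat.floor_le hM0.le
  -- square root of `M`
  set s : ℝ := √M with hs
  have hs2 : s ^ 2 = M := Real.sq_sqrt hM0.le
  have hs1 : 1 ≤ s := by
    rw [hs, Real.one_le_sqrt]
    exact hM1
  -- the widths
  set A : ℝ := (9 * ((α : ℝ) * β)) ^ (1 / 3 : ℝ) with hA
  have hA0 : 0 < A := Real.rpow_pos_of_pos (by positivity) _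
  have hA3 : A ^ 3 = 9 * ((α : ℝ) * β) := by
    rw [hA, ← Real.rpow_natCast, ← Real.rpow_mul (by positivity)]
    norm_num
  set R : ℝ := √(8 * M) with hR
  have hR2 : R ^ 2 = 8 * M := Real.sq_sqrt (by positivity)
  have hR0 : 0 < R := Real.sqrt_pos.2 (by positivity)
  have hR3 : R ≤ 3 * s := by
    have h1 : R ^ 2 ≤ (3 * s) ^ 2 := by nlinarith
    exact (sq_le_sq₀ hR0.le (by positivity)).1 h1
  set y : ℝ := (H : ℝ) / A with hy
  have hy0 : 0 ≤ y := by positivity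
  have hy3 : 9 * y ^ 3 = M := by
    rw [hy, div_pow, hA3, hM]
    field_simp
  have hys : y ≤ s / 2 := by
    by_contra hcon
    push Not at hcon
    have h1 : (s / 2) ^ 3 < y ^ 3 := pow_lt_pow_left₀ hcon (by positivity) (by norm_num)
    nlinarith [sq_nonneg s]
  -- the cells
  set f : ℤ × ℤ × ℤ → ℤ × ℤ := fun z => (⌊(z.1 : ℝ) / A⌋, ⌊(sS p q z - U) / (U / R)⌋) with hf
  set t : Finset (ℤ × ℤ) := Finset.Icc (-⌊y⌋ - 1) ⌊y⌋ ×ˢ Finset.Icc 0 ⌊R⌋ with ht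
  have hmaps : ∀ z ∈ T, f z ∈ t := by
    intro z hz
    obtain ⟨⟨h1, -, -, -, -⟩, h2, h3⟩ := hT z hz
    have h4 : |(z.1 : ℝ)| ≤ H := by exact_mod_cast h1
    obtain ⟨h5, h6⟩ := abs_le.1 h4
    have h7 : (z.1 : ℝ) / A ≤ y := div_le_div_of_nonneg_right h6 hA0.le
    have h8 : -y ≤ (z.1 : ℝ) / A := by
      rw [hy, ← neg_div]
      exact div_le_div_of_nonneg_right h5 hA0.le
    have h9 : (⌊y⌋ : ℝ) ≤ y := Int.floor_le y
    have h10 : y < ⌊y⌋ + 1 := Int.lt_floor_add_one y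
    have hUR : 0 < U / R := div_pos hU0 hR0
    have h11 : (sS p q z - U) / (U / R) ≤ R := by
      rw [div_le_iff₀ hUR]
      have h12 : R * (U / R) = U := by field_simp
      rw [h12]
      linarith
    have h13 : 0 ≤ (sS p q z - U) / (U / R) := div_nonneg (by linarith) hUR.le
    rw [ht, Finset.mem_product, Finset.mem_Icc, Finset.mem_Icc]
    refine ⟨⟨?_, Int.floor_mono h7⟩, Int.floor_nonneg.2 h13, Int.floor_mono h11⟩
    rw [Int.le_floor]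
    push_cast
    linarith
  have hfib : ∀ b ∈ t, (T.filter fun z => f z = b).card ≤ 4 * K := by
    intro b _
    have hUR : 0 < U / R := div_pos hU0 hR0
    refine d5_cell h hH U hU0 hU K hK1 _ ?_ ?_ ?_ ?_
    · intro z hz
      have := hT z (Finset.mem_filter.1 hz).1
      exact ⟨this.1, this.2.1⟩
    · intro z hz
      have hz1 := (Finset.mem_filter.1 hz).1
      refine ⟨(hT z hz1).1.2.1, ?_⟩
      have h1 := hFM z hz1
      have h2 : ((|F α β z|.toNat : ℕ) : ℝ) ≤ M := by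
        have h3 : ((|F α β z|.toNat : ℕ) : ℝ) = |(F α β z : ℝ)| := by
          have h4 : ((|F α β z|.toNat : ℕ) : ℤ) = |F α β z| := Int.toNat_of_nonneg (abs_nonneg _)
          have h5 : (((|F α β z|.toNat : ℕ) : ℤ) : ℝ) = ((|F α β z| : ℤ) : ℝ) := by rw [h4]
          push_cast at h5
          exact h5
        rw [h3]
        exact h1
      have h6 : |F α β z|.toNat ≤ K := Nat.le_floor h2
      have h7 : ((|F α β z|.toNat : ℕ) : ℤ) = |F α β z| := Int.toNat_of_nonneg (abs_nonneg _)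
      rw [← h7]
      exact_mod_cast h6
    · intro x hx z hz
      have h1 : f x = f z := (Finset.mem_filter.1 hx).2.trans (Finset.mem_filter.1 hz).2.symm
      have h2 : ⌊(x.1 : ℝ) / A⌋ = ⌊(z.1 : ℝ) / A⌋ := congrArg Prod.fst h1
      have h3 := Int.abs_sub_lt_one_of_floor_eq_floor h2
      have h4 : |(x.1 : ℝ) - z.1| ≤ A := by
        rw [← sub_div, abs_div, abs_of_pos hA0, div_lt_one hA0] at h3
        exact h3.le
      rw [← hA3]
      exact pow_le_pow_left₀ (abs_nonneg _) h4 3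
    · intro x hx z hz
      have h1 : f x = f z := (Finset.mem_filter.1 hx).2.trans (Finset.mem_filter.1 hz).2.symm
      have h2 : ⌊(sS p q x - U) / (U / R)⌋ = ⌊(sS p q z - U) / (U / R)⌋ := congrArg Prod.snd h1
      have h3 := Int.abs_sub_lt_one_of_floor_eq_floor h2
      have h4 : |sS p q x - sS p q z| ≤ U / R := by
        rw [← sub_div, abs_div, abs_of_pos hUR, div_lt_one hUR] at h3
        have h5 : sS p q x - U - (sS p q z - U) = sS p q x - sS p q z := by ring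
        rw [h5] at h3
        exact h3.le
      have h6 : (sS p q x - sS p q z) ^ 2 ≤ (U / R) ^ 2 := by
        rw [← sq_abs]
        exact pow_le_pow_left₀ (abs_nonneg _) h4 2
      rw [div_pow, hR2] at h6
      calc 8 * (H : ℝ) ^ 3 * (sS p q x - sS p q z) ^ 2
          ≤ 8 * (H : ℝ) ^ 3 * (U ^ 2 / (8 * M)) := mul_le_mul_of_nonneg_left h6 (by positivity)
        _ = (α : ℝ) * β * U ^ 2 := by
            rw [← hMmul]
            field_simp
  have hcard := Finset.card_le_mul_card_image_of_maps_to hmaps (4 * K) hfib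
  have hyf : (⌊y⌋ : ℝ) ≤ y := Int.floor_le y
  have hyf0 : 0 ≤ ⌊y⌋ := Int.floor_nonneg.2 hy0
  have hRf : (⌊R⌋ : ℝ) ≤ R := Int.floor_le R
  have hRf0 : 0 ≤ ⌊R⌋ := Int.floor_nonneg.2 hR0.le
  have htc : (t.card : ℝ) ≤ (3 * s) * (4 * s) := by
    rw [ht, Finset.card_product, Int.card_Icc, Int.card_Icc]
    push_cast
    have h1 : (((⌊y⌋ + 1 - (-⌊y⌋ - 1)).toNat : ℕ) : ℝ) ≤ 3 * s := by
      have h2 : (((⌊y⌋ + 1 - (-⌊y⌋ - 1)).toNat : ℕ) : ℤ) = 2 * ⌊y⌋ + 2 := by omega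
      have h3 : ((((⌊y⌋ + 1 - (-⌊y⌋ - 1)).toNat : ℕ) : ℤ) : ℝ) = ((2 * ⌊y⌋ + 2 : ℤ) : ℝ) := by
        rw [h2]
      push_cast at h3
      rw [h3]
      linarith
    have h4 : (((⌊R⌋ + 1 - 0).toNat : ℕ) : ℝ) ≤ 4 * s := by
      have h2 : (((⌊R⌋ + 1 - 0).toNat : ℕ) : ℤ) = ⌊R⌋ + 1 := by omega
      have h3 : ((((⌊R⌋ + 1 - 0).toNat : ℕ) : ℤ) : ℝ) = ((⌊R⌋ + 1 : ℤ) : ℝ) := by rw [h2]
      push_cast at h3
      rw [h3]
      linarith
    exact mul_le_mul h1 h4 (Nat.cast_nonneg _) (by positivity)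
  calc (T.card : ℝ) ≤ ((4 * K * t.card : ℕ) : ℝ) := by exact_mod_cast hcard
    _ = 4 * K * t.card := by push_cast; ring
    _ ≤ 4 * M * ((3 * s) * (4 * s)) := by
        refine mul_le_mul (by linarith) htc (Nat.cast_nonneg _) (by positivity)
    _ = 48 * M * s ^ 2 := by ring
    _ = 48 * M ^ 2 := by rw [hs2]; ring

end T44
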