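import Mathlib

/-! Theorem T (MP_a1107e): integral points on the curves with a rational point of order three.
Model `y (y + a x + b) = x ^ 3`; a vector `z = (a, u, v)` of class `(α, β)` is the integral point
`x = αβuv`, `y = αβ²u³`, `y + a x + b = α²βv³` on the curve with `b = αβ F(z)`. -/

namespace T44

/-- `F (a,u,v) = α v³ - β u³ - a u v` -/
def F (α β : ℕ) (z : ℤ × ℤ × ℤ) : ℤ :=
  α * z.2.2 ^ 3 - β * z.2.1 ^ 3 - z.1 * z.2.1 * z.2.2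

/-- class data: `α, β ≥ 1` squarefree, coprime, `αβ > 1`; `p = (αβ²)^(1/3)`, `q = (α²β)^(1/3)` -/
def Cl (α β : ℕ) (p q : ℝ) : Prop :=
  1 ≤ α ∧ 1 ≤ β ∧ Squarefree α ∧ Squarefree β ∧ Nat.Coprime α β ∧ 1 < α * β ∧ 0 < p ∧ 0 < q ∧
    p ^ 2 = β * q ∧ q ^ 2 = α * p ∧ p * q = α * β

/-- `S = V + W`, `V = v q`, `W = u p` -/
def sS (p q : ℝ) (z : ℤ × ℤ × ℤ) : ℝ := z.2.2 * q + z.2.1 * p

/-- `D = V - W` -/
def dD (p q : ℝ) (z : ℤ × ℤ × ℤ) : ℝ := z.2.2 * q - z.2.1 * p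

/-- real value `ξ = a - 3 D` -/
def xX (p q : ℝ) (z : ℤ × ℤ × ℤ) : ℝ := z.1 - 3 * dD p q z

/-- solutions of class `(α, β)` and height `H` with large `x` -/
def Sol (H α β : ℕ) (z : ℤ × ℤ × ℤ) : Prop :=
  |z.1| ≤ (H : ℤ) ∧ F α β z ≠ 0 ∧ ((α : ℤ) * β) * |F α β z| ≤ (H : ℤ) ^ 3 ∧
    z.1 ^ 3 ≠ 27 * ((α : ℤ) * β * F α β z) ∧
    36 * (H : ℤ) ^ 3 < |(α : ℤ) * β * z.2.1 * z.2.2|

end T44
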