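import Pool.Agent.LibT44.B1

namespace T44

/-- Row G1a (identities; machine checked). With `V = vq`, `W = up`, `ξ = a - 3(V - W)`, `S = V + W`,
`P = a₂(3V₁² - a₁W₁) + W₂(a₁² + 9V₁W₁) - 9V₂W₁² - 3a₁V₁V₂`,
`R = a₂(3W₁² + a₁V₁) - V₂(a₁² + 9V₁W₁) + 9W₂V₁² - 3a₁W₁W₂`:
`P = m p`, `R = n q` with the integers
`m = a₂(3αv₁² - a₁u₁) + u₂(a₁² + 9αβu₁v₁) - 9αβv₂u₁² - 3αa₁v₁v₂`... (`p² = βq`, `q² = αp`, `pq = αβ`), precisely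
`m = a₂(3αv₁² - a₁u₁) + u₂(a₁² + 9αβu₁v₁) - αv₂(9βu₁² + 3a₁v₁)`,
`n = a₂(3βu₁² + a₁v₁) - v₂(a₁² + 9αβu₁v₁) + βu₂(9αv₁² - 3a₁u₁)`, and
`P - R = (ξ₁/2)(S₂(3a₁ - ξ₁) - S₁(3a₂ - ξ₂))`,
`P + R = (2/9)(ξ₂ Q₁ - ξ₁((3a₁ - ξ₁)(3a₂ - ξ₂)/4 + (27/4) S₁S₂))`, `Q₁ = ((3a₁-ξ₁)/2)² + (27/4) S₁²`. -/
theorem gap_id {α β : ℕ} {p q : ℝ} (h : Cl α β p q) (z₁ z₂ : ℤ × ℤ × ℤ) : ∃ m n : ℤ,
    (m * p - n * q = xX p q z₁ / 2 * (sS p q z₂ * (3 * z₁.1 - xX p q z₁) -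
      sS p q z₁ * (3 * z₂.1 - xX p q z₂))) ∧
    (m * p + n * q = 2 / 9 * (xX p q z₂ * (((3 * z₁.1 - xX p q z₁) / 2) ^ 2 +
      27 / 4 * sS p q z₁ ^ 2) - xX p q z₁ * ((3 * z₁.1 - xX p q z₁) * (3 * z₂.1 - xX p q z₂) / 4 +
      27 / 4 * (sS p q z₁ * sS p q z₂)))) := by
  obtain ⟨-, -, -, -, -, -, -, -, e1, e2, e3⟩ := h
  obtain ⟨a₁, u₁, v₁⟩ := z₁
  obtain ⟨a₂, u₂, v₂⟩ := z₂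
  refine ⟨a₂ * (3 * α * v₁ ^ 2 - a₁ * u₁) + u₂ * (a₁ ^ 2 + 9 * α * β * u₁ * v₁) -
      α * v₂ * (9 * β * u₁ ^ 2 + 3 * a₁ * v₁),
    a₂ * (3 * β * u₁ ^ 2 + a₁ * v₁) - v₂ * (a₁ ^ 2 + 9 * α * β * u₁ * v₁) +
      β * u₂ * (9 * α * v₁ ^ 2 - 3 * a₁ * u₁), ?_, ?_⟩
  · simp only [xX, dD, sS]
    push_cast
    linear_combination (-3 * (a₂ : ℝ) * v₁ ^ 2 + 3 * a₁ * v₁ * v₂) * e2 +
      (-9 * (u₁ : ℝ) * v₁ * u₂ * p + 9 * v₂ * u₁ ^ 2 * p) * e3 -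
      ((-3 * (a₂ : ℝ) * u₁ ^ 2 + 3 * a₁ * u₁ * u₂) * e1 +
      (9 * (v₂ : ℝ) * u₁ * v₁ * q - 9 * u₂ * v₁ ^ 2 * q) * e3)
  · simp only [xX, dD, sS]
    push_cast
    linear_combination (-3 * (a₂ : ℝ) * v₁ ^ 2 + 3 * a₁ * v₁ * v₂) * e2 +
      (-9 * (u₁ : ℝ) * v₁ * u₂ * p + 9 * v₂ * u₁ ^ 2 * p) * e3 +
      ((-3 * (a₂ : ℝ) * u₁ ^ 2 + 3 * a₁ * u₁ * u₂) * e1 +
      (9 * (v₂ : ℝ) * u₁ * v₁ * q - 9 * u₂ * v₁ ^ 2 * q) * e3)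

/-- Row G1b. If `m = n = 0` in `gap_id` and `ξ₁ ≠ 0`, then `z₂ = λ z₁` with real `λ`, so all cross products vanish.
Put `λ = S₂/S₁` (`S₁ ≠ 0`): first identity: `3a₂ - ξ₂ = λ(3a₁ - ξ₁)`; second: `ξ₂ Q₁ = ξ₁ λ Q₁`, `Q₁ > 0`, so `ξ₂ = λξ₁`; hence
`a₂ = λa₁`, `D₂ = (a₂ - ξ₂)/3 = λD₁`, `V₂ = λV₁`, `W₂ = λW₁`, `u₂ = λu₁`, `v₂ = λv₁`. -/
theorem gap_prop {α β : ℕ} {p q : ℝ} (h : Cl α β p q) (z₁ z₂ : ℤ × ℤ × ℤ) (hX : xX p q z₁ ≠ 0)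
    (hS : sS p q z₁ ≠ 0)
    (h1 : xX p q z₁ / 2 * (sS p q z₂ * (3 * z₁.1 - xX p q z₁) -
      sS p q z₁ * (3 * z₂.1 - xX p q z₂)) = 0)
    (h2 : xX p q z₂ * (((3 * z₁.1 - xX p q z₁) / 2) ^ 2 + 27 / 4 * sS p q z₁ ^ 2) -
      xX p q z₁ * ((3 * z₁.1 - xX p q z₁) * (3 * z₂.1 - xX p q z₂) / 4 +
      27 / 4 * (sS p q z₁ * sS p q z₂)) = 0) :
    z₁.1 * z₂.2.1 = z₂.1 * z₁.2.1 ∧ z₁.1 * z₂.2.2 = z₂.1 * z₁.2.2 ∧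
      z₁.2.1 * z₂.2.2 = z₂.2.1 * z₁.2.2 := by
  obtain ⟨-, -, -, -, -, -, hp, hq, -, -, -⟩ := h
  obtain ⟨a₁, u₁, v₁⟩ := z₁
  obtain ⟨a₂, u₂, v₂⟩ := z₂
  simp only at h1 h2
  have hX1 : xX p q (a₁, u₁, v₁) = a₁ - 3 * (v₁ * q - u₁ * p) := rfl
  have hX2 : xX p q (a₂, u₂, v₂) = a₂ - 3 * (v₂ * q - u₂ * p) := rfl
  have hS1 : sS p q (a₁, u₁, v₁) = v₁ * q + u₁ * p := rfl
  have hS2 : sS p q (a₂, u₂, v₂) = v₂ * q + u₂ * p := rfl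
  obtain ⟨x₁, hx₁⟩ : ∃ x : ℝ, x = xX p q (a₁, u₁, v₁) := ⟨_, rfl⟩
  obtain ⟨x₂, hx₂⟩ : ∃ x : ℝ, x = xX p q (a₂, u₂, v₂) := ⟨_, rfl⟩
  obtain ⟨s₁, hs₁⟩ : ∃ x : ℝ, x = sS p q (a₁, u₁, v₁) := ⟨_, rfl⟩
  obtain ⟨s₂, hs₂⟩ : ∃ x : ℝ, x = sS p q (a₂, u₂, v₂) := ⟨_, rfl⟩
  rw [← hx₁] at hX h1 h2 hX1
  rw [← hx₂] at h1 h2 hX2
  rw [← hs₁] at hS h1 h2 hS1
  rw [← hs₂] at h1 h2 hS2
  have k1 : s₂ * (3 * a₁ - x₁) = s₁ * (3 * a₂ - x₂) := by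
    have := mul_eq_zero.mp h1
    rcases this with h | h
    · exact absurd (by linarith) hX
    · linarith
  have hQ : 0 < ((3 * (a₁ : ℝ) - x₁) / 2) ^ 2 + 27 / 4 * s₁ ^ 2 := by positivity
  have k2 : x₂ * s₁ = x₁ * s₂ := by
    have : (x₂ * s₁ - x₁ * s₂) * (((3 * (a₁ : ℝ) - x₁) / 2) ^ 2 + 27 / 4 * s₁ ^ 2) = 0 := by
      linear_combination s₁ * h2 - x₁ * (3 * (a₁ : ℝ) - x₁) / 4 * k1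
    rcases mul_eq_zero.mp this with h | h
    · linarith
    · exact absurd h hQ.ne'
  have k3 : (a₂ : ℝ) * s₁ = a₁ * s₂ := by linarith
  have k4 : ((v₂ : ℝ) * q - u₂ * p) * s₁ = (v₁ * q - u₁ * p) * s₂ := by
    rw [hX1, hX2] at k2
    linarith
  have k5 : ((v₂ : ℝ) * q + u₂ * p) * s₁ = (v₁ * q + u₁ * p) * s₂ := by
    rw [← hS1, ← hS2]
    ring
  have k6 : (v₂ : ℝ) * s₁ = v₁ * s₂ := by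
    have : q * ((v₂ : ℝ) * s₁) = q * (v₁ * s₂) := by linarith
    exact mul_left_cancel₀ hq.ne' this
  have k7 : (u₂ : ℝ) * s₁ = u₁ * s₂ := by
    have : p * ((u₂ : ℝ) * s₁) = p * (u₁ * s₂) := by linarith
    exact mul_left_cancel₀ hp.ne' this
  refine ⟨?_, ?_, ?_⟩
  · have : ((a₁ : ℝ) * u₂) * s₁ = ((a₂ : ℝ) * u₁) * s₁ := by
      linear_combination (a₁ : ℝ) * k7 - (u₁ : ℝ) * k3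
    have := mul_right_cancel₀ hS this
    exact_mod_cast this
  · have : ((a₁ : ℝ) * v₂) * s₁ = ((a₂ : ℝ) * v₁) * s₁ := by
      linear_combination (a₁ : ℝ) * k6 - (v₁ : ℝ) * k3
    have := mul_right_cancel₀ hS this
    exact_mod_cast this
  · have : ((u₁ : ℝ) * v₂) * s₁ = ((u₂ : ℝ) * v₁) * s₁ := by
      linear_combination (u₁ : ℝ) * k6 - (v₁ : ℝ) * k7
    have := mul_right_cancel₀ hS this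
    exact_mod_cast this

end T44
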