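import Pool.Agent.LibT44.G1

namespace T44

/-- the cubic identity -/
theorem g2_cube {α β : ℕ} {p q : ℝ} (h : Cl α β p q) (m n : ℤ) :
    ((m : ℝ) * p) ^ 3 - (n * q) ^ 3 = (α * β : ℝ) * (((β : ℤ) * m ^ 3 - α * n ^ 3 : ℤ) : ℝ) := by
  obtain ⟨-, -, -, -, -, -, -, -, h1, h2, h3⟩ := h
  push_cast
  have e1 : p ^ 3 = α * β ^ 2 := by
    calc p ^ 3 = p * p ^ 2 := by ring
      _ = β * (p * q) := by rw [h1]; ring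
      _ = α * β ^ 2 := by rw [h3]; ring
  have e2 : q ^ 3 = α ^ 2 * β := by
    calc q ^ 3 = q * q ^ 2 := by ring
      _ = α * (p * q) := by rw [h2]; ring
      _ = α ^ 2 * β := by rw [h3]; ring
  rw [mul_pow, mul_pow, e1, e2]
  ring

/-- the real inequalities -/
theorem g2_real {h S₁ S₂ a₁ a₂ x₁ x₂ A B : ℝ} (hh : 1 ≤ h) (hS₁ : 0 < S₁) (hS : S₁ ≤ S₂)
    (ha₁ : |a₁| ≤ h) (ha₂ : |a₂| ≤ h) (hs₁ : 144 * h ^ 3 ≤ S₁ ^ 2)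
    (hx₁ : |x₁| * S₁ ^ 2 ≤ 5 * h ^ 3) (hx₂ : |x₂| * S₂ ^ 2 ≤ 5 * h ^ 3)
    (hy₁ : |x₁| ≤ 1 / 25) (hy₂ : |x₂| ≤ 1 / 25)
    (hD : A - B = x₁ / 2 * (S₂ * (3 * a₁ - x₁) - S₁ * (3 * a₂ - x₂)))
    (hE : A + B = 2 / 9 * (x₂ * (((3 * a₁ - x₁) / 2) ^ 2 + 27 / 4 * S₁ ^ 2) -
      x₁ * ((3 * a₁ - x₁) * (3 * a₂ - x₂) / 4 + 27 / 4 * (S₁ * S₂))))
    (h1 : 1 ≤ |A ^ 3 - B ^ 3|) : S₁ ^ 4 ≤ 3000 * h ^ 10 * S₂ ^ 3 := by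
  have hS₂ : 0 < S₂ := hS₁.trans_le hS
  have h0 : 0 < h := by linarith
  have b₁ : |3 * a₁ - x₁| ≤ 3.04 * h := by
    have := abs_sub (3 * a₁) x₁
    rw [abs_mul, abs_of_pos (by norm_num : (0:ℝ) < 3)] at this
    linarith
  have b₂ : |3 * a₂ - x₂| ≤ 3.04 * h := by
    have := abs_sub (3 * a₂) x₂
    rw [abs_mul, abs_of_pos (by norm_num : (0:ℝ) < 3)] at this
    linarith
  have hx0 : 0 ≤ |x₁| := abs_nonneg _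
  have hx0' : 0 ≤ |x₂| := abs_nonneg _
  -- `h ^ 2 ≤ S₁ ^ 2 / 144`
  have hh2 : 144 * h ^ 2 ≤ S₁ ^ 2 := by
    have : h ^ 2 ≤ h ^ 3 := pow_le_pow_right₀ hh (by norm_num)
    linarith
  have hsq : 0 ≤ S₁ ^ 2 := sq_nonneg _
  have hsq' : 0 ≤ S₁ * S₂ := by positivity
  -- the difference
  have d1 : |A - B| ≤ |x₁| * (S₂ * (3.04 * h)) := by
    rw [hD, abs_mul, abs_div, abs_of_pos (by norm_num : (0:ℝ) < 2)]
    have c1 : |S₂ * (3 * a₁ - x₁) - S₁ * (3 * a₂ - x₂)| ≤ 2 * (S₂ * (3.04 * h)) := by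
      refine (abs_sub _ _).trans ?_
      rw [abs_mul, abs_mul, abs_of_pos hS₂, abs_of_pos hS₁]
      have c2 : S₂ * |3 * a₁ - x₁| ≤ S₂ * (3.04 * h) := mul_le_mul_of_nonneg_left b₁ hS₂.le
      have c3 : S₁ * |3 * a₂ - x₂| ≤ S₂ * (3.04 * h) :=
        mul_le_mul hS b₂ (abs_nonneg _) hS₂.le
      linarith
    have c4 := mul_le_mul_of_nonneg_left c1 (by positivity : 0 ≤ |x₁| / 2)
    linarith
  have d2 : |A - B| * S₁ ^ 2 ≤ 15.2 * h ^ 4 * S₂ := by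
    have c1 : |A - B| * S₁ ^ 2 ≤ |x₁| * (S₂ * (3.04 * h)) * S₁ ^ 2 :=
      mul_le_mul_of_nonneg_right d1 (sq_nonneg _)
    have c2 : |x₁| * S₁ ^ 2 * (3.04 * h * S₂) ≤ 5 * h ^ 3 * (3.04 * h * S₂) :=
      mul_le_mul_of_nonneg_right hx₁ (by positivity)
    linarith
  -- the sum
  have q1 : ((3 * a₁ - x₁) / 2) ^ 2 ≤ 2.3104 * h ^ 2 := by
    rw [← sq_abs]
    have c1 : |(3 * a₁ - x₁) / 2| ≤ 1.52 * h := by
      rw [abs_div, abs_of_pos (by norm_num : (0:ℝ) < 2)]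
      linarith
    have c2 := pow_le_pow_left₀ (abs_nonneg _) c1 2
    linarith
  have q2 : ((3 * a₁ - x₁) / 2) ^ 2 + 27 / 4 * S₁ ^ 2 ≤ 6.77 * S₁ ^ 2 := by linarith
  have q3 : |x₂| * (((3 * a₁ - x₁) / 2) ^ 2 + 27 / 4 * S₁ ^ 2) ≤ 33.85 * h ^ 3 := by
    have c1 : |x₂| * (((3 * a₁ - x₁) / 2) ^ 2 + 27 / 4 * S₁ ^ 2) ≤ |x₂| * (6.77 * S₁ ^ 2) :=
      mul_le_mul_of_nonneg_left q2 hx0'
    have c2 : |x₂| * S₁ ^ 2 ≤ |x₂| * S₂ ^ 2 :=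
      mul_le_mul_of_nonneg_left (pow_le_pow_left₀ hS₁.le hS 2) hx0'
    linarith
  have q4 : |(3 * a₁ - x₁) * (3 * a₂ - x₂) / 4 + 27 / 4 * (S₁ * S₂)| ≤ 6.77 * (S₁ * S₂) := by
    have c1 : |(3 * a₁ - x₁) * (3 * a₂ - x₂) / 4| ≤ 2.3104 * h ^ 2 := by
      rw [abs_div, abs_mul, abs_of_pos (by norm_num : (0:ℝ) < 4)]
      have := mul_le_mul b₁ b₂ (abs_nonneg _) (by positivity)
      linarith
    have c2 : S₁ ^ 2 ≤ S₁ * S₂ := by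
      rw [sq]
      exact mul_le_mul_of_nonneg_left hS hS₁.le
    have c3 : |27 / 4 * (S₁ * S₂)| = 27 / 4 * (S₁ * S₂) := abs_of_pos (by positivity)
    refine (abs_add_le _ _).trans ?_
    rw [c3]
    linarith
  have e1 : |A + B| ≤ 2 / 9 * (33.85 * h ^ 3 + |x₁| * (6.77 * (S₁ * S₂))) := by
    rw [hE, abs_mul, abs_of_pos (by norm_num : (0:ℝ) < 2 / 9)]
    refine mul_le_mul_of_nonneg_left ?_ (by norm_num)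
    refine (abs_sub _ _).trans ?_
    rw [abs_mul, abs_mul]
    refine add_le_add ?_ (mul_le_mul_of_nonneg_left q4 hx0)
    rwa [abs_of_nonneg (by positivity : 0 ≤ ((3 * a₁ - x₁) / 2) ^ 2 + 27 / 4 * S₁ ^ 2)]
  have e2 : |A + B| * S₁ ≤ 15.05 * h ^ 3 * S₂ := by
    have c1 := mul_le_mul_of_nonneg_right e1 hS₁.le
    have c2 : |x₁| * S₁ ^ 2 * (6.77 * S₂) ≤ 5 * h ^ 3 * (6.77 * S₂) :=
      mul_le_mul_of_nonneg_right hx₁ (by positivity)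
    have c3 : 33.85 * h ^ 3 * S₁ ≤ 33.85 * h ^ 3 * S₂ :=
      mul_le_mul_of_nonneg_left hS (by positivity)
    have c4 : 0 ≤ h ^ 3 * S₂ := by positivity
    have c5 : 2 / 9 * (33.85 * h ^ 3 + |x₁| * (6.77 * (S₁ * S₂))) * S₁ =
        2 / 9 * (33.85 * h ^ 3 * S₁ + |x₁| * S₁ ^ 2 * (6.77 * S₂)) := by ring
    rw [c5] at c1
    linarith
  -- the cubic
  have f1 : |A ^ 3 - B ^ 3| ≤ |A - B| * ((3 * |A + B| ^ 2 + |A - B| ^ 2) / 4) := by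
    have c1 : A ^ 3 - B ^ 3 = (A - B) * ((3 * |A + B| ^ 2 + |A - B| ^ 2) / 4) := by
      rw [sq_abs, sq_abs]
      ring
    rw [c1, abs_mul]
    refine mul_le_mul_of_nonneg_left ?_ (abs_nonneg _)
    rw [abs_of_nonneg (by positivity)]
  have f2 : (|A + B| * S₁) ^ 2 ≤ 226.51 * (h ^ 6 * S₂ ^ 2) := by
    have c1 := pow_le_pow_left₀ (by positivity) e2 2
    have c2 : (15.05 * h ^ 3 * S₂) ^ 2 = 226.5025 * (h ^ 6 * S₂ ^ 2) := by ring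
    have c3 : 0 ≤ h ^ 6 * S₂ ^ 2 := by positivity
    rw [c2] at c1
    linarith
  have f3 : (|A - B| * S₁) ^ 2 ≤ 1.61 * (h ^ 6 * S₂ ^ 2) := by
    have c1 := pow_le_pow_left₀ (by positivity) d2 2
    have c2 : (15.2 * h ^ 4 * S₂) ^ 2 = 231.04 * (h ^ 8 * S₂ ^ 2) := by ring
    have c3 : (|A - B| * S₁ ^ 2) ^ 2 = (|A - B| * S₁) ^ 2 * S₁ ^ 2 := by ring
    rw [c2, c3] at c1
    have c4 : (|A - B| * S₁) ^ 2 * (144 * h ^ 3) ≤ (|A - B| * S₁) ^ 2 * S₁ ^ 2 :=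
      mul_le_mul_of_nonneg_left hs₁ (sq_nonneg _)
    have c5 : (|A - B| * S₁) ^ 2 * (144 * h ^ 3) ≤ 231.04 * (h ^ 5 * S₂ ^ 2) * h ^ 3 := by
      have : 231.04 * (h ^ 5 * S₂ ^ 2) * h ^ 3 = 231.04 * (h ^ 8 * S₂ ^ 2) := by ring
      rw [this]
      exact c4.trans c1
    have c6 : (|A - B| * S₁) ^ 2 * 144 ≤ 231.04 * (h ^ 5 * S₂ ^ 2) := by
      have h3 : 0 < h ^ 3 := by positivity
      refine le_of_mul_le_mul_right ?_ h3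
      linarith
    have c7 : h ^ 5 * S₂ ^ 2 ≤ h ^ 6 * S₂ ^ 2 :=
      mul_le_mul_of_nonneg_right (pow_le_pow_right₀ hh (by norm_num)) (sq_nonneg _)
    have c8 : 0 ≤ h ^ 6 * S₂ ^ 2 := by positivity
    linarith
  have f4 : S₁ ^ 4 ≤ |A - B| * S₁ ^ 2 * ((3 * (|A + B| * S₁) ^ 2 + (|A - B| * S₁) ^ 2) / 4) := by
    have c1 : 1 * S₁ ^ 4 ≤ |A - B| * ((3 * |A + B| ^ 2 + |A - B| ^ 2) / 4) * S₁ ^ 4 :=
      mul_le_mul_of_nonneg_right (h1.trans f1) (by positivity)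
    have c2 : |A - B| * ((3 * |A + B| ^ 2 + |A - B| ^ 2) / 4) * S₁ ^ 4 =
        |A - B| * S₁ ^ 2 * ((3 * (|A + B| * S₁) ^ 2 + (|A - B| * S₁) ^ 2) / 4) := by ring
    rw [c2, one_mul] at c1
    exact c1
  refine f4.trans ?_
  have g1 : (3 * (|A + B| * S₁) ^ 2 + (|A - B| * S₁) ^ 2) / 4 ≤ 171 * (h ^ 6 * S₂ ^ 2) := by
    have : 0 ≤ h ^ 6 * S₂ ^ 2 := by positivity
    linarith
  have g2 := mul_le_mul d2 g1 (by positivity) (by positivity)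
  refine g2.trans ?_
  have g3 : 15.2 * h ^ 4 * S₂ * (171 * (h ^ 6 * S₂ ^ 2)) = 2599.2 * (h ^ 10 * S₂ ^ 3) := by ring
  have g4 : 0 ≤ h ^ 10 * S₂ ^ 3 := by positivity
  rw [g3]
  linarith

/-- Row G2 (the gap between solutions of the same class, possibly on different curves). Not proportional, so
`(m, n) ≠ (0, 0)` in `gap_id` (`gap_prop`; `ξ₁ ≠ 0` because `N₁ = ξ₁Q₁ ≠ 0` by `norm_id`), and
`(mp)³ - (nq)³ = αβ(βm³ - αn³)` is a nonzero multiple of `αβ` (`cl_indep`), so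
`1 ≤ αβ ≤ |P - R| (3(P+R)² + (P-R)²)/4`. By `size`: `|ξ_i| S_i² ≤ 5H³`, `|ξ_i| ≤ 1/25`, `S₁² ≥ 144H³ ≥ 144H²`:
`|P - R| ≤ |ξ₁| S₂ (3H + 1/25) ≤ 15.2 H⁴ S₂/S₁²`; `Q₁ ≤ (3.04H)²/4 + 6.75 S₁² ≤ 6.77 S₁²`,
`|P + R| ≤ (2/9)(33.9 H³ + 33.9 H³ S₂/S₁) ≤ 15.1 H³ S₂/S₁`; so `1 ≤ 15.2·(171 + 1) H^10 S₂³/S₁⁴`. -/
theorem gap {H α β : ℕ} {p q : ℝ} (h : Cl α β p q) (hH : 1 ≤ H) (z₁ z₂ : ℤ × ℤ × ℤ)
    (h₁ : Sol H α β z₁) (h₂ : Sol H α β z₂) (hS₁ : 0 < sS p q z₁) (hS : sS p q z₁ ≤ sS p q z₂)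
    (hn : ¬ (z₁.1 * z₂.2.1 = z₂.1 * z₁.2.1 ∧ z₁.1 * z₂.2.2 = z₂.1 * z₁.2.2 ∧
      z₁.2.1 * z₂.2.2 = z₂.2.1 * z₁.2.2)) :
    sS p q z₁ ^ 4 ≤ 3000 * (H : ℝ) ^ 10 * sS p q z₂ ^ 3 := by
  obtain ⟨m, n, hD, hE⟩ := gap_id h z₁ z₂
  obtain ⟨s1, s2, s3, -, -, -⟩ := size h hH z₁ h₁
  obtain ⟨-, t2, t3, -, -, -⟩ := size h hH z₂ h₂
  -- `ξ₁ ≠ 0`
  have hX : xX p q z₁ ≠ 0 := by
    intro h0
    have e1 := (norm_id h z₁).2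
    rw [h0, zero_mul] at e1
    apply h₁.2.2.2.1
    have e2 : ((z₁.1 ^ 3 : ℤ) : ℝ) = ((27 * ((α : ℤ) * β * F α β z₁) : ℤ) : ℝ) := by
      push_cast
      linarith
    exact_mod_cast e2
  -- `(m, n) ≠ (0, 0)`
  have hmn : ¬ (m = 0 ∧ n = 0) := by
    rintro ⟨rfl, rfl⟩
    apply hn
    refine gap_prop h z₁ z₂ hX hS₁.ne' ?_ ?_
    · rw [← hD]
      simp
    · have : (0 : ℝ) = 2 / 9 * (xX p q z₂ * (((3 * z₁.1 - xX p q z₁) / 2) ^ 2 +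
          27 / 4 * sS p q z₁ ^ 2) - xX p q z₁ * ((3 * z₁.1 - xX p q z₁) *
          (3 * z₂.1 - xX p q z₂) / 4 + 27 / 4 * (sS p q z₁ * sS p q z₂))) := by
        rw [← hE]
        simp
      linarith
  have hne : (β : ℤ) * m ^ 3 - α * n ^ 3 ≠ 0 := by
    intro h0
    have := cl_indep h m n (by linarith)
    exact hmn this
  have hαβ : (1 : ℝ) ≤ α * β := by
    have h1 : 1 ≤ α * β := Nat.mul_pos h.1 h.2.1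
    exact_mod_cast h1
  have h1 : 1 ≤ |((m : ℝ) * p) ^ 3 - (n * q) ^ 3| := by
    rw [g2_cube h, abs_mul, abs_of_pos (by linarith)]
    have h2 : (1 : ℝ) ≤ |(((β : ℤ) * m ^ 3 - α * n ^ 3 : ℤ) : ℝ)| := by
      rw [← Int.cast_abs]
      exact_mod_cast Int.one_le_abs hne
    nlinarith
  have ha₁ : |(z₁.1 : ℝ)| ≤ H := by
    rw [← Int.cast_abs]
    exact_mod_cast h₁.1
  have ha₂ : |(z₂.1 : ℝ)| ≤ H := by
    rw [← Int.cast_abs]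
    exact_mod_cast h₂.1
  exact g2_real (h := (H : ℝ)) (by exact_mod_cast hH) hS₁ hS ha₁ ha₂ s1 s2 t2 s3 t3 hD hE h1

end T44
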