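import Mathlib

namespace T44

/-- Row G3. Chain lemma. `log y ≥ (7/6) log x`, so `loglog y ≥ loglog x + 1/7` (`log (7/6) ≥ 1/7`), and
`loglog x ∈ [0, Y]` for `x ∈ T`. -/
theorem chain (T : Finset ℝ) (Y : ℝ) (hY : 0 ≤ Y)
    (h1 : ∀ x ∈ T, Real.exp 1 ≤ x ∧ Real.log x ≤ Real.exp Y)
    (h2 : ∀ x ∈ T, ∀ y ∈ T, x < y → x ^ 7 ≤ y ^ 6) : (T.card : ℝ) ≤ 1 + 7 * Y := by
  have hlog1 : ∀ x ∈ T, 1 ≤ Real.log x := fun x hx => by
    have h := Real.log_le_log (Real.exp_pos 1) (h1 x hx).1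
    rwa [Real.log_exp] at h
  have hpos : ∀ x ∈ T, 0 < x := fun x hx => (Real.exp_pos 1).trans_le (h1 x hx).1
  have hll0 : ∀ x ∈ T, 0 ≤ Real.log (Real.log x) := fun x hx => Real.log_nonneg (hlog1 x hx)
  have hllY : ∀ x ∈ T, Real.log (Real.log x) ≤ Y := fun x hx => by
    have h := Real.log_le_log (by linarith [hlog1 x hx]) (h1 x hx).2
    rwa [Real.log_exp] at h
  have h76 : (1 : ℝ) / 7 ≤ Real.log (7 / 6) := by
    have := Real.one_sub_inv_le_log_of_pos (show (0 : ℝ) < 7 / 6 by norm_num)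
    norm_num at this ⊢
    linarith
  have hstep : ∀ x ∈ T, ∀ y ∈ T, x < y →
      Real.log (Real.log x) + 1 / 7 ≤ Real.log (Real.log y) := by
    intro x hx y hy hxy
    have e1 : Real.log (x ^ 7) ≤ Real.log (y ^ 6) :=
      Real.log_le_log (pow_pos (hpos x hx) 7) (h2 x hx y hy hxy)
    rw [Real.log_pow, Real.log_pow] at e1
    push_cast at e1
    have e2 : 7 / 6 * Real.log x ≤ Real.log y := by linarith
    have e3 := Real.log_le_log (by have := hlog1 x hx; positivity) e2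
    rw [Real.log_mul (by norm_num) (by linarith [hlog1 x hx])] at e3
    linarith
  have hmaps : ∀ x ∈ T, ⌊7 * Real.log (Real.log x)⌋₊ ∈ Finset.range (⌊7 * Y⌋₊ + 1) := by
    intro x hx
    rw [Finset.mem_range]
    exact Nat.lt_succ_of_le (Nat.floor_le_floor (by linarith [hllY x hx]))
  have hinj : ∀ x ∈ T, ∀ y ∈ T, x < y →
      ⌊7 * Real.log (Real.log x)⌋₊ < ⌊7 * Real.log (Real.log y)⌋₊ := by
    intro x hx y hy hxy
    have e := hstep x hx y hy hxy
    have e0 := hll0 x hx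
    have e1 : 7 * Real.log (Real.log x) + 1 ≤ 7 * Real.log (Real.log y) := by linarith
    have e2 := Nat.floor_le_floor e1
    rw [Nat.floor_add_one (by positivity)] at e2
    omega
  have hcard : T.card ≤ (Finset.range (⌊7 * Y⌋₊ + 1)).card := by
    refine Finset.card_le_card_of_injOn (fun x => ⌊7 * Real.log (Real.log x)⌋₊) hmaps ?_
    intro x hx y hy hxy
    rcases lt_trichotomy x y with h | h | h
    · exact absurd hxy (hinj x hx y hy h).ne
    · exact h
    · exact absurd hxy.symm (hinj y hy x hx h).ne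
  rw [Finset.card_range] at hcard
  have : (T.card : ℝ) ≤ ((⌊7 * Y⌋₊ + 1 : ℕ) : ℝ) := by exact_mod_cast hcard
  have hf : ((⌊7 * Y⌋₊ : ℕ) : ℝ) ≤ 7 * Y := Nat.floor_le (by positivity)
  push_cast at this
  linarith

end T44
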