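import Pool.Agent.LibT44.G2
import Pool.Agent.LibT44.G3

namespace T44

/-- content -/
def g4_g (z : ℤ × ℤ × ℤ) : ℕ := Nat.gcd z.1.natAbs (Nat.gcd z.2.1.natAbs z.2.2.natAbs)

/-- direction -/
def g4_dir (z : ℤ × ℤ × ℤ) : ℤ × ℤ × ℤ :=
  (z.1 / (g4_g z : ℤ), z.2.1 / (g4_g z : ℤ), z.2.2 / (g4_g z : ℤ))

theorem g4_mul (z : ℤ × ℤ × ℤ) : z.1 = g4_g z * (g4_dir z).1 ∧
    z.2.1 = g4_g z * (g4_dir z).2.1 ∧ z.2.2 = g4_g z * (g4_dir z).2.2 := by
  have h1 : ((g4_g z : ℕ) : ℤ) ∣ z.1 := by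
    rw [← Int.dvd_natAbs, Int.natCast_dvd_natCast]
    exact Nat.gcd_dvd_left _ _
  have h2 : ((g4_g z : ℕ) : ℤ) ∣ z.2.1 := by
    rw [← Int.dvd_natAbs, Int.natCast_dvd_natCast]
    exact (Nat.gcd_dvd_right _ _).trans (Nat.gcd_dvd_left _ _)
  have h3 : ((g4_g z : ℕ) : ℤ) ∣ z.2.2 := by
    rw [← Int.dvd_natAbs, Int.natCast_dvd_natCast]
    exact (Nat.gcd_dvd_right _ _).trans (Nat.gcd_dvd_right _ _)
  exact ⟨(Int.mul_ediv_cancel' h1).symm, (Int.mul_ediv_cancel' h2).symm,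
    (Int.mul_ediv_cancel' h3).symm⟩

theorem g4_bez (z : ℤ × ℤ × ℤ) : ∃ r s t : ℤ,
    r * z.1 + s * z.2.1 + t * z.2.2 = g4_g z := by
  have h1 : ((g4_g z : ℕ) : ℤ) = Int.gcd z.1 ((Int.gcd z.2.1 z.2.2 : ℕ) : ℤ) := by
    unfold g4_g
    rfl
  have h2 := Int.gcd_eq_gcd_ab z.1 ((Int.gcd z.2.1 z.2.2 : ℕ) : ℤ)
  have h3 := Int.gcd_eq_gcd_ab z.2.1 z.2.2
  set G : ℤ := ((Int.gcd z.2.1 z.2.2 : ℕ) : ℤ) with hG
  refine ⟨Int.gcdA z.1 G, Int.gcdB z.1 G * Int.gcdA z.2.1 z.2.2,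
    Int.gcdB z.1 G * Int.gcdB z.2.1 z.2.2, ?_⟩
  rw [h1, h2]
  linear_combination (-(Int.gcdB z.1 G)) * h3

theorem g4_par {z w : ℤ × ℤ × ℤ} (hz : 0 < g4_g z) (hw : 0 < g4_g w)
    (h1 : z.1 * w.2.1 = w.1 * z.2.1) (h2 : z.1 * w.2.2 = w.1 * z.2.2)
    (h3 : z.2.1 * w.2.2 = w.2.1 * z.2.2) : g4_dir w = g4_dir z ∨
      ((g4_dir w).1 = -(g4_dir z).1 ∧ (g4_dir w).2.1 = -(g4_dir z).2.1 ∧
        (g4_dir w).2.2 = -(g4_dir z).2.2) := by
  obtain ⟨r, s, t, hr⟩ := g4_bez z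
  obtain ⟨r', s', t', hr'⟩ := g4_bez w
  obtain ⟨m1, m2, m3⟩ := g4_mul z
  obtain ⟨n1, n2, n3⟩ := g4_mul w
  set g : ℤ := (g4_g z : ℤ) with hg
  set g' : ℤ := (g4_g w : ℤ) with hg'
  have hgp : g ≠ 0 := by
    rw [hg]
    exact_mod_cast hz.ne'
  have hgp' : g' ≠ 0 := by
    rw [hg']
    exact_mod_cast hw.ne'
  have hg0' : 0 < g' := by
    rw [hg']
    exact_mod_cast hw
  set k : ℤ := r * w.1 + s * w.2.1 + t * w.2.2 with hk
  -- w = k dir z
  have e1 : w.1 = k * (g4_dir z).1 := by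
    apply mul_left_cancel₀ hgp
    have : g * w.1 = k * z.1 := by
      rw [← hr, hk]
      linear_combination s * (-h1) + t * (-h2)
    rw [this]
    nth_rewrite 1 [m1]
    ring
  have e2 : w.2.1 = k * (g4_dir z).2.1 := by
    apply mul_left_cancel₀ hgp
    have : g * w.2.1 = k * z.2.1 := by
      rw [← hr, hk]
      linear_combination r * h1 - t * h3
    rw [this]
    nth_rewrite 1 [m2]
    ring
  have e3 : w.2.2 = k * (g4_dir z).2.2 := by
    apply mul_left_cancel₀ hgp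
    have : g * w.2.2 = k * z.2.2 := by
      rw [← hr, hk]
      linear_combination r * h2 + s * h3
    rw [this]
    nth_rewrite 1 [m3]
    ring
  -- r . dir z = 1
  have hr1 : r * (g4_dir z).1 + s * (g4_dir z).2.1 + t * (g4_dir z).2.2 = 1 := by
    apply mul_left_cancel₀ hgp
    have h4 : g * (r * (g4_dir z).1 + s * (g4_dir z).2.1 + t * (g4_dir z).2.2) =
        r * (g * (g4_dir z).1) + s * (g * (g4_dir z).2.1) + t * (g * (g4_dir z).2.2) := by ring
    rw [h4, ← m1, ← m2, ← m3, hr, mul_one]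
  have d1 : k ∣ g' := by
    rw [← hr', e1, e2, e3]
    refine ⟨r' * (g4_dir z).1 + s' * (g4_dir z).2.1 + t' * (g4_dir z).2.2, ?_⟩
    ring
  have d2 : g' ∣ k := by
    refine ⟨r * (g4_dir w).1 + s * (g4_dir w).2.1 + t * (g4_dir w).2.2, ?_⟩
    rw [hk]
    nth_rewrite 1 [n1]
    nth_rewrite 1 [n2]
    nth_rewrite 1 [n3]
    ring
  have hab : k.natAbs = g'.natAbs :=
    Nat.dvd_antisymm (Int.natAbs_dvd_natAbs.2 d1) (Int.natAbs_dvd_natAbs.2 d2)
  rcases Int.natAbs_eq_natAbs_iff.1 hab with hkk | hkk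
  · left
    rw [hkk] at e1 e2 e3
    have f1 : (g4_dir w).1 = (g4_dir z).1 := mul_left_cancel₀ hgp' (n1.symm.trans e1)
    have f2 : (g4_dir w).2.1 = (g4_dir z).2.1 := mul_left_cancel₀ hgp' (n2.symm.trans e2)
    have f3 : (g4_dir w).2.2 = (g4_dir z).2.2 := mul_left_cancel₀ hgp' (n3.symm.trans e3)
    exact Prod.ext f1 (Prod.ext f2 f3)
  · right
    rw [hkk] at e1 e2 e3
    refine ⟨?_, ?_, ?_⟩
    · apply mul_left_cancel₀ hgp'
      rw [← n1, e1]
      ring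
    · apply mul_left_cancel₀ hgp'
      rw [← n2, e2]
      ring
    · apply mul_left_cancel₀ hgp'
      rw [← n3, e3]
      ring

theorem g4_sS (p q : ℝ) (z : ℤ × ℤ × ℤ) : sS p q z = g4_g z * sS p q (g4_dir z) := by
  obtain ⟨-, m2, m3⟩ := g4_mul z
  unfold sS
  have h2 : (z.2.1 : ℝ) = (g4_g z : ℝ) * ((g4_dir z).2.1 : ℝ) := by exact_mod_cast m2
  have h3 : (z.2.2 : ℝ) = (g4_g z : ℝ) * ((g4_dir z).2.2 : ℝ) := by exact_mod_cast m3
  rw [h2, h3]
  ring

/-- Row G4 (large solutions of one class). Two nonproportional `z₁, z₂ ∈ T` with `S₁ ≤ S₂`: `gap` and `S₁ ≥ 10^7 H^20` give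
`S₂⁶ ≥ S₁⁸/(9·10^6 H^20) ≥ S₁⁷` (so `S₁ < S₂`). Direction of `z`: `z/g`, `g = gcd(a,u,v)`; `z ↦ (direction, g)` is injective and
`1 ≤ g ≤ J`, so `card ≤ J · #directions`; choose one `z` in each direction: their `S` are distinct and satisfy `chain`
(`e ≤ 10^7 H^20 ≤ S`). Two `z` in the same direction: proportional; `S > 0` fixes the sign. -/
theorem large {H α β : ℕ} {p q : ℝ} (h : Cl α β p q) (hH : 1 ≤ H) (J : ℕ) (Y : ℝ) (hY : 0 ≤ Y)
    (T : Finset (ℤ × ℤ × ℤ))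
    (hT : ∀ z ∈ T, Sol H α β z ∧ 10 ^ 7 * (H : ℝ) ^ 20 ≤ sS p q z ∧
      Real.log (sS p q z) ≤ Real.exp Y ∧ Nat.gcd z.1.natAbs (Nat.gcd z.2.1.natAbs z.2.2.natAbs) ≤ J) :
    (T.card : ℝ) ≤ J * (1 + 7 * Y) := by
  classical
  have hH1 : (1 : ℝ) ≤ H := by exact_mod_cast hH
  have hHp : (1 : ℝ) ≤ (H : ℝ) ^ 20 := one_le_pow₀ hH1
  have hSpos : ∀ z ∈ T, 10 ^ 7 ≤ sS p q z := by
    intro z hz
    have h1 := (hT z hz).2.1
    nlinarith
  have hgpos : ∀ z ∈ T, 0 < g4_g z := by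
    intro z hz
    rcases Nat.eq_zero_or_pos (g4_g z) with h0 | h0
    · exfalso
      have h1 := hSpos z hz
      rw [g4_sS, h0] at h1
      norm_num at h1
    · exact h0
  have hfib : T.card ≤ J * (T.image g4_dir).card := by
    apply Finset.card_le_mul_card_image
    intro d _
    have h1 : ((T.filter fun z => g4_dir z = d).image g4_g).card =
        (T.filter fun z => g4_dir z = d).card := by
      apply Finset.card_image_of_injOn
      intro z hz w hw hzw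
      simp only [Finset.coe_filter, Set.mem_setOf_eq] at hz hw
      obtain ⟨m1, m2, m3⟩ := g4_mul z
      obtain ⟨n1, n2, n3⟩ := g4_mul w
      have hzw' : g4_g z = g4_g w := hzw
      refine Prod.ext ?_ (Prod.ext ?_ ?_)
      · rw [m1, n1, hzw', hz.2, hw.2]
      · rw [m2, n2, hzw', hz.2, hw.2]
      · rw [m3, n3, hzw', hz.2, hw.2]
    rw [← h1]
    have h2 : (T.filter fun z => g4_dir z = d).image g4_g ⊆ Finset.Icc 1 J := by
      intro g hg
      rw [Finset.mem_image] at hg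
      obtain ⟨z, hz, rfl⟩ := hg
      rw [Finset.mem_filter] at hz
      rw [Finset.mem_Icc]
      exact ⟨hgpos z hz.1, (hT z hz.1).2.2.2⟩
    calc _ ≤ (Finset.Icc 1 J).card := Finset.card_le_card h2
      _ = J := by simp
  have hrep : ∀ d ∈ T.image g4_dir, ∃ z ∈ T, g4_dir z = d := by
    intro d hd
    rw [Finset.mem_image] at hd
    exact hd
  choose! rep hrep1 hrep2 using hrep
  have key : ∀ z ∈ T, ∀ w ∈ T, g4_dir z ≠ g4_dir w → sS p q z ≤ sS p q w →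
      sS p q z ^ 7 ≤ sS p q w ^ 6 := by
    intro z hz w hw hne hle
    have hn : ¬ (z.1 * w.2.1 = w.1 * z.2.1 ∧ z.1 * w.2.2 = w.1 * z.2.2 ∧
        z.2.1 * w.2.2 = w.2.1 * z.2.2) := by
      rintro ⟨c1, c2, c3⟩
      rcases g4_par (hgpos z hz) (hgpos w hw) c1 c2 c3 with h1 | ⟨h1, h2, h3⟩
      · exact hne h1.symm
      · have hz1 := hSpos z hz
        have hw1 := hSpos w hw
        rw [g4_sS] at hz1 hw1
        have hs : sS p q (g4_dir w) = -sS p q (g4_dir z) := by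
          unfold sS
          rw [h2, h3]
          push_cast
          ring
        rw [hs] at hw1
        have hgz : (0 : ℝ) < g4_g z := by exact_mod_cast hgpos z hz
        have hgw : (0 : ℝ) < g4_g w := by exact_mod_cast hgpos w hw
        have hp1 : 0 < sS p q (g4_dir z) := by
          by_contra hcon
          rw [not_lt] at hcon
          have := mul_nonpos_of_nonneg_of_nonpos hgz.le hcon
          linarith
        have hp2 := mul_pos hgw hp1
        nlinarith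
    have h1 := gap h hH z w (hT z hz).1 (hT w hw).1 (by have := hSpos z hz; linarith) hle hn
    have hsz := (hT z hz).2.1
    have hz7 := hSpos z hz
    have hw7 := hSpos w hw
    set s := sS p q z with hs
    set t := sS p q w with ht
    have hs0 : 0 < s := by linarith
    have ht0 : 0 < t := by linarith
    have h2 : (s ^ 4) ^ 2 ≤ (3000 * (H : ℝ) ^ 10 * t ^ 3) ^ 2 :=
      pow_le_pow_left₀ (by positivity) h1 2
    have h3 : s ^ 7 * (9 * 10 ^ 6 * (H : ℝ) ^ 20) ≤ t ^ 6 * (9 * 10 ^ 6 * (H : ℝ) ^ 20) := by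
      calc s ^ 7 * (9 * 10 ^ 6 * (H : ℝ) ^ 20) ≤ s ^ 7 * s := by
            apply mul_le_mul_of_nonneg_left _ (by positivity)
            nlinarith
        _ = (s ^ 4) ^ 2 := by ring
        _ ≤ (3000 * (H : ℝ) ^ 10 * t ^ 3) ^ 2 := h2
        _ = t ^ 6 * (9 * 10 ^ 6 * (H : ℝ) ^ 20) := by ring
    exact le_of_mul_le_mul_right h3 (by positivity)
  have hinj : Set.InjOn (fun d => sS p q (rep d)) (T.image g4_dir : Set (ℤ × ℤ × ℤ)) := by
    intro d hd e he hde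
    by_contra hne
    have hd' := Finset.mem_coe.1 hd
    have he' := Finset.mem_coe.1 he
    have h1 := key (rep d) (hrep1 d hd') (rep e) (hrep1 e he')
      (by rw [hrep2 d hd', hrep2 e he']; exact hne) (le_of_eq hde)
    have hde' : sS p q (rep d) = sS p q (rep e) := hde
    rw [hde'] at h1
    have h2 := hSpos (rep e) (hrep1 e he')
    set s := sS p q (rep e) with hs
    have h3 : s ^ 7 = s ^ 6 * s := by ring
    rw [h3] at h1
    have h4 : 0 < s ^ 6 := pow_pos (by linarith) 6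
    nlinarith
  have hch := chain ((T.image g4_dir).image fun d => sS p q (rep d)) Y hY (by
    intro x hx
    rw [Finset.mem_image] at hx
    obtain ⟨d, hd, rfl⟩ := hx
    refine ⟨?_, (hT _ (hrep1 d hd)).2.2.1⟩
    have h1 := hSpos _ (hrep1 d hd)
    have h2 := Real.exp_one_lt_d9
    linarith) (by
    intro x hx y hy hxy
    rw [Finset.mem_image] at hx hy
    obtain ⟨d, hd, rfl⟩ := hx
    obtain ⟨e, he, rfl⟩ := hy
    apply key _ (hrep1 d hd) _ (hrep1 e he) _ hxy.le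
    rw [hrep2 d hd, hrep2 e he]
    rintro rfl
    exact lt_irrefl _ hxy)
  rw [Finset.card_image_of_injOn hinj] at hch
  calc (T.card : ℝ) ≤ ((J * (T.image g4_dir).card : ℕ) : ℝ) := by exact_mod_cast hfib
    _ = J * ((T.image g4_dir).card : ℝ) := by push_cast; ring
    _ ≤ J * (1 + 7 * Y) := mul_le_mul_of_nonneg_left hch (Nat.cast_nonneg J)

end T44
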