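import Mathlib

namespace T44

/-- pairs `(α, β)`, `α, β ≥ 1`, `αβ ≤ N` -/
def Prs (N : ℕ) : Finset (ℕ × ℕ) :=
  ((Finset.Icc 1 N) ×ˢ (Finset.Icc 1 N)).filter (fun z => z.1 * z.2 ≤ N)

theorem h1_harm (N : ℕ) : ∑ a ∈ Finset.Icc 1 N, (1 : ℝ) / a ≤ 1 + Real.log N := by
  have h := harmonic_le_one_add_log N
  have e : ((harmonic N : ℚ) : ℝ) = ∑ a ∈ Finset.Icc 1 N, (1 : ℝ) / a := by
    rw [harmonic_eq_sum_Icc]
    push_cast
    exact Finset.sum_congr rfl (fun a _ => by rw [one_div])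
  rw [← e]
  exact h

theorem h1_sum (N : ℕ) (p : ℕ × ℕ → Prop) [DecidablePred p] (g : ℕ × ℕ → ℝ) (hg : ∀ z, 0 ≤ g z) :
    ∑ z ∈ (Prs N).filter p, g z ≤
      ∑ a ∈ Finset.Icc 1 N, ∑ b ∈ (Finset.Icc 1 N).filter (fun b => p (a, b)), g (a, b) := by
  have : ∑ a ∈ Finset.Icc 1 N, ∑ b ∈ (Finset.Icc 1 N).filter (fun b => p (a, b)), g (a, b)
      = ∑ z ∈ ((Finset.Icc 1 N) ×ˢ (Finset.Icc 1 N)).filter p, g z := by
    rw [Finset.sum_filter, Finset.sum_product]
    exact Finset.sum_congr rfl (fun a _ => by rw [Finset.sum_filter])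
  rw [this]
  apply Finset.sum_le_sum_of_subset_of_nonneg
  · intro z hz
    unfold Prs at hz
    simp only [Finset.mem_filter] at hz ⊢
    exact ⟨hz.1.1, hz.2⟩
  · intro z _ _
    exact hg z

/-- Row H1a. `∑_{α ≤ N} N/α`. -/
theorem prs_card (N : ℕ) (hN : 1 ≤ N) : ((Prs N).card : ℝ) ≤ N * (1 + Real.log N) := by
  have h1 : (Prs N).card ≤ ∑ a ∈ Finset.Icc 1 N, N / a := by
    have e : (Prs N).card = ∑ a ∈ Finset.Icc 1 N, ((Finset.Icc 1 N).filter (fun b => a * b ≤ N)).card := by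
      unfold Prs
      rw [Finset.card_filter, Finset.sum_product]
      exact Finset.sum_congr rfl (fun a _ => by rw [Finset.card_filter])
    rw [e]
    apply Finset.sum_le_sum
    intro a ha
    have ha1 := (Finset.mem_Icc.1 ha).1
    calc ((Finset.Icc 1 N).filter (fun b => a * b ≤ N)).card ≤ (Finset.Icc 1 (N / a)).card := by
          apply Finset.card_le_card
          intro b hb
          simp only [Finset.mem_filter, Finset.mem_Icc] at hb ⊢
          refine ⟨hb.1.1, ?_⟩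
          rw [Nat.le_div_iff_mul_le (by omega)]
          rw [mul_comm]; exact hb.2
      _ = N / a := by simp
  have h2 : ((∑ a ∈ Finset.Icc 1 N, N / a : ℕ) : ℝ) ≤ ∑ a ∈ Finset.Icc 1 N, (N : ℝ) * (1 / a) := by
    push_cast
    apply Finset.sum_le_sum
    intro a ha
    have := @Nat.cast_div_le ℝ _ _ _ N a
    rw [mul_one_div]; exact this
  calc ((Prs N).card : ℝ) ≤ ((∑ a ∈ Finset.Icc 1 N, N / a : ℕ) : ℝ) := by exact_mod_cast h1
    _ ≤ _ := h2
    _ = N * ∑ a ∈ Finset.Icc 1 N, (1 : ℝ) / a := by rw [Finset.mul_sum]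
    _ ≤ _ := by
      apply mul_le_mul_of_nonneg_left (h1_harm N) (by positivity)

theorem h1_halfsum (n : ℕ) : ∑ b ∈ Finset.Icc 1 n, 1 / √(b : ℝ) ≤ 2 * √(n : ℝ) := by
  induction n with
  | zero => simp
  | succ n ih =>
    rw [Finset.sum_Icc_succ_top (by omega)]
    have h0 : (0 : ℝ) ≤ n := by positivity
    have h1 : √((n + 1 : ℕ) : ℝ) ^ 2 = n + 1 := by
      rw [Real.sq_sqrt (by positivity)]; push_cast; ring
    have h2 : √(n : ℝ) ^ 2 = n := Real.sq_sqrt h0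
    have hp : 0 < √((n + 1 : ℕ) : ℝ) := Real.sqrt_pos.2 (by positivity)
    have hq : 0 ≤ √(n : ℝ) := Real.sqrt_nonneg _
    set x := √((n + 1 : ℕ) : ℝ)
    set y := √(n : ℝ)
    have key : 1 / x ≤ 2 * x - 2 * y := by
      rw [div_le_iff₀ hp]
      nlinarith [sq_nonneg (x - y)]
    linarith

theorem h1_half (N : ℕ) (y : ℝ) (hy : 0 ≤ y) :
    ∑ b ∈ (Finset.Icc 1 N).filter (fun b : ℕ => (b : ℝ) ≤ y), 1 / √(b : ℝ) ≤ 2 * √y := by
  calc ∑ b ∈ (Finset.Icc 1 N).filter (fun b : ℕ => (b : ℝ) ≤ y), 1 / √(b : ℝ)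
      ≤ ∑ b ∈ Finset.Icc 1 ⌊y⌋₊, 1 / √(b : ℝ) := by
        apply Finset.sum_le_sum_of_subset_of_nonneg
        · intro b hb
          simp only [Finset.mem_filter, Finset.mem_Icc] at hb ⊢
          exact ⟨hb.1.1, Nat.le_floor hb.2⟩
        · intro b _ _; positivity
    _ ≤ 2 * √(⌊y⌋₊ : ℝ) := h1_halfsum _
    _ ≤ 2 * √y := by
        have := Real.sqrt_le_sqrt (Nat.floor_le hy)
        linarith

/-- Row H1b. `∑_α α^(-1/2) ∑_{β ≤ Y/α} β^(-1/2) ≤ ∑_α α^(-1/2) 2 (Y/α)^(1/2)`. -/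
theorem prs_half (N : ℕ) (hN : 1 ≤ N) (Y : ℝ) (hY : 1 ≤ Y) :
    ∑ z ∈ (Prs N).filter (fun z => ((z.1 * z.2 : ℕ) : ℝ) ≤ Y), 1 / √(((z.1 * z.2 : ℕ) : ℝ))
      ≤ 2 * √Y * (1 + Real.log N) := by
  refine (h1_sum N _ _ (fun z => by positivity)).trans ?_
  calc ∑ a ∈ Finset.Icc 1 N, ∑ b ∈ (Finset.Icc 1 N).filter (fun b => ((a * b : ℕ) : ℝ) ≤ Y),
        1 / √(((a * b : ℕ) : ℝ))
      ≤ ∑ a ∈ Finset.Icc 1 N, 2 * √Y * (1 / (a : ℝ)) := by
        apply Finset.sum_le_sum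
        intro a ha
        have ha1 := (Finset.mem_Icc.1 ha).1
        have ha0 : (0 : ℝ) < a := by exact_mod_cast ha1
        have e : ∑ b ∈ (Finset.Icc 1 N).filter (fun b => ((a * b : ℕ) : ℝ) ≤ Y), 1 / √(((a * b : ℕ) : ℝ))
            = (1 / √(a : ℝ)) * ∑ b ∈ (Finset.Icc 1 N).filter (fun b : ℕ => (b : ℝ) ≤ Y / a), 1 / √(b : ℝ) := by
          rw [Finset.mul_sum]
          apply Finset.sum_congr
          · apply Finset.filter_congr
            intro b _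
            rw [le_div_iff₀ ha0]
            push_cast
            rw [mul_comm]
          · intro b _
            push_cast
            rw [Real.sqrt_mul ha0.le]
            rw [one_div_mul_one_div]
        rw [e]
        calc (1 / √(a : ℝ)) * ∑ b ∈ (Finset.Icc 1 N).filter (fun b : ℕ => (b : ℝ) ≤ Y / a), 1 / √(b : ℝ)
            ≤ (1 / √(a : ℝ)) * (2 * √(Y / a)) := by
              apply mul_le_mul_of_nonneg_left (h1_half N _ (by positivity)) (by positivity)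
          _ = 2 * √Y * (1 / (a : ℝ)) := by
              rw [Real.sqrt_div (by linarith)]
              have hs : √(a : ℝ) * √(a : ℝ) = a := Real.mul_self_sqrt ha0.le
              have hs0 : √(a : ℝ) ≠ 0 := (Real.sqrt_pos.2 ha0).ne'
              field_simp
              rw [sq, hs]
    _ = 2 * √Y * ∑ a ∈ Finset.Icc 1 N, 1 / (a : ℝ) := by rw [Finset.mul_sum]
    _ ≤ _ := by
        apply mul_le_mul_of_nonneg_left (h1_harm N) (by positivity)

theorem h1_sq (N : ℕ) (y : ℝ) (hy : 0 < y) :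
    ∑ b ∈ (Finset.Icc 1 N).filter (fun b : ℕ => y < (b : ℝ)), 1 / (b : ℝ) ^ 2 ≤ max 0 (2 / y - 2 / (N + 1)) := by
  induction N with
  | zero => simp
  | succ N ih =>
    rw [Finset.sum_filter, Finset.sum_Icc_succ_top (by omega), ← Finset.sum_filter]
    split_ifs with h
    · have h' : y ≤ (N : ℝ) + 1 := by push_cast at h; linarith
      have hN : (0 : ℝ) < (N : ℝ) + 1 := by positivity
      have e1 : max 0 (2 / y - 2 / ((N : ℝ) + 1)) = 2 / y - 2 / ((N : ℝ) + 1) := by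
        apply max_eq_right
        have := div_le_div_of_nonneg_left (by norm_num : (0:ℝ) ≤ 2) hy h'
        linarith
      rw [e1] at ih
      refine le_trans ?_ (le_max_right _ _)
      push_cast
      have key : 1 / ((N : ℝ) + 1) ^ 2 ≤ 2 / ((N : ℝ) + 1) - 2 / ((N : ℝ) + 1 + 1) := by
        have hN2 : (0 : ℝ) < (N : ℝ) + 1 + 1 := by positivity
        rw [div_sub_div _ _ hN.ne' hN2.ne', div_le_div_iff₀ (by positivity) (by positivity)]
        have hN0 : (0 : ℝ) ≤ N := by positivity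
        nlinarith [mul_nonneg hN0 hN0, mul_nonneg (mul_nonneg hN0 hN0) hN0]
      linarith
    · have hN : (0 : ℝ) < (N : ℝ) + 1 := by positivity
      rw [add_zero]
      refine ih.trans ?_
      apply max_le_max le_rfl
      push_cast
      have : 2 / ((N : ℝ) + 1 + 1) ≤ 2 / ((N : ℝ) + 1) :=
        div_le_div_of_nonneg_left (by norm_num) hN (by linarith)
      linarith

theorem h1_sq' (N : ℕ) (y : ℝ) (hy : 0 < y) :
    ∑ b ∈ (Finset.Icc 1 N).filter (fun b : ℕ => y < (b : ℝ)), 1 / (b : ℝ) ^ 2 ≤ 2 / y := by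
  refine (h1_sq N y hy).trans (max_le (by positivity) ?_)
  have : (0 : ℝ) ≤ 2 / ((N : ℝ) + 1) := by positivity
  linarith

/-- Row H1c. `∑_{β > Y/α} β^(-2) ≤ 2 min(1, 2α/Y)`-type bound: for `Y/α ≥ 1`: `∑_{β > Y/α} β^(-2) ≤ 2α/Y`
(`≤ 1/⌊Y/α⌋ ≤ 2α/Y`); for `α > Y`: `∑_{β ≥ 1} β^(-2) ≤ 2 ≤ 2α/Y`. So the sum is `≤ ∑_{α ≤ N} α^(-2) · 2α/Y`. -/
theorem prs_sq (N : ℕ) (hN : 1 ≤ N) (Y : ℝ) (hY : 1 ≤ Y) :
    ∑ z ∈ (Prs N).filter (fun z => Y < ((z.1 * z.2 : ℕ) : ℝ)), 1 / (((z.1 * z.2 : ℕ) : ℝ)) ^ 2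
      ≤ 2 / Y * (1 + Real.log N) := by
  refine (h1_sum N _ _ (fun z => by positivity)).trans ?_
  calc ∑ a ∈ Finset.Icc 1 N, ∑ b ∈ (Finset.Icc 1 N).filter (fun b => Y < ((a * b : ℕ) : ℝ)),
        1 / (((a * b : ℕ) : ℝ)) ^ 2
      ≤ ∑ a ∈ Finset.Icc 1 N, 2 / Y * (1 / (a : ℝ)) := by
        apply Finset.sum_le_sum
        intro a ha
        have ha1 := (Finset.mem_Icc.1 ha).1
        have ha0 : (0 : ℝ) < a := by exact_mod_cast ha1
        have e : ∑ b ∈ (Finset.Icc 1 N).filter (fun b => Y < ((a * b : ℕ) : ℝ)), 1 / (((a * b : ℕ) : ℝ)) ^ 2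
            = (1 / (a : ℝ) ^ 2) * ∑ b ∈ (Finset.Icc 1 N).filter (fun b : ℕ => Y / a < (b : ℝ)), 1 / (b : ℝ) ^ 2 := by
          rw [Finset.mul_sum]
          apply Finset.sum_congr
          · apply Finset.filter_congr
            intro b _
            rw [div_lt_iff₀ ha0]
            push_cast
            rw [mul_comm]
          · intro b _
            push_cast
            rw [mul_pow, one_div_mul_one_div]
        rw [e]
        calc (1 / (a : ℝ) ^ 2) * ∑ b ∈ (Finset.Icc 1 N).filter (fun b : ℕ => Y / a < (b : ℝ)), 1 / (b : ℝ) ^ 2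
            ≤ (1 / (a : ℝ) ^ 2) * (2 / (Y / a)) := by
              apply mul_le_mul_of_nonneg_left (h1_sq' N _ (by positivity)) (by positivity)
          _ = 2 / Y * (1 / (a : ℝ)) := by
              have hY0 : Y ≠ 0 := by linarith
              field_simp
    _ = 2 / Y * ∑ a ∈ Finset.Icc 1 N, 1 / (a : ℝ) := by rw [Finset.mul_sum]
    _ ≤ _ := by
        apply mul_le_mul_of_nonneg_left (h1_harm N) (by positivity)

end T44
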