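import Pool.Agent.LibT44.H1

namespace T44

/-- Row H2. Sum over the classes, `N = H³`, `Y = H^(7/3)`: `αβ ≤ Y`: `9H H^(3/2) ∑ (αβ)^(-1/2) ≤ 18 H^(5/2) H^(7/6) (1 + 3 log H)`;
`αβ > Y`: `48 H⁶ ∑ (αβ)^(-2) ≤ 96 H⁶ H^(-7/3) (1 + 3 log H)`; `5/2 + 7/6 = 6 - 7/3 = 11/3`. -/
theorem mid_sum (H : ℕ) (hH : 1 ≤ H) :
    ∑ z ∈ Prs (H ^ 3), min (48 * ((H : ℝ) ^ 3 / ((z.1 : ℝ) * z.2)) ^ 2)
      (9 * H * √((H : ℝ) ^ 3 / ((z.1 : ℝ) * z.2)))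
      ≤ 114 * (H : ℝ) ^ (11 / 3 : ℝ) * (1 + 3 * Real.log H) := by
  have hH1 : (1 : ℝ) ≤ H := by exact_mod_cast hH
  have hH0 : (0 : ℝ) < H := by linarith
  have hN : 1 ≤ H ^ 3 := Nat.one_le_pow _ _ hH
  obtain ⟨Y, hY⟩ : ∃ Y : ℝ, Y = (H : ℝ) ^ (7 / 3 : ℝ) := ⟨_, rfl⟩
  have hY1 : 1 ≤ Y := hY ▸ Real.one_le_rpow hH1 (by norm_num)
  have hlog : Real.log ((H ^ 3 : ℕ) : ℝ) = 3 * Real.log H := by
    rw [Nat.cast_pow, Real.log_pow]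
    norm_num
  have h1 := prs_half (H ^ 3) hN Y hY1
  have h2 := prs_sq (H ^ 3) hN Y hY1
  rw [hlog] at h1 h2
  have hL0 : 0 ≤ 1 + 3 * Real.log H := by
    have := Real.log_nonneg hH1
    linarith
  -- positivity of the pairs
  have hpos : ∀ z ∈ Prs (H ^ 3), 0 < (((z.1 * z.2 : ℕ) : ℝ)) := by
    intro z hz
    unfold Prs at hz
    rw [Finset.mem_filter, Finset.mem_product, Finset.mem_Icc, Finset.mem_Icc] at hz
    have : 0 < z.1 * z.2 := Nat.mul_pos hz.1.1.1 hz.1.2.1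
    exact_mod_cast this
  rw [← Finset.sum_filter_add_sum_filter_not (Prs (H ^ 3))
    (fun z => ((z.1 * z.2 : ℕ) : ℝ) ≤ Y)]
  have hA : ∑ z ∈ (Prs (H ^ 3)).filter (fun z => ((z.1 * z.2 : ℕ) : ℝ) ≤ Y),
      min (48 * ((H : ℝ) ^ 3 / ((z.1 : ℝ) * z.2)) ^ 2)
      (9 * H * √((H : ℝ) ^ 3 / ((z.1 : ℝ) * z.2))) ≤
      9 * H * √((H : ℝ) ^ 3) * (2 * √Y * (1 + 3 * Real.log H)) := by
    refine le_trans ?_ (mul_le_mul_of_nonneg_left h1 (by positivity))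
    rw [Finset.mul_sum]
    refine Finset.sum_le_sum fun z hz => ?_
    refine (min_le_right _ _).trans (le_of_eq ?_)
    rw [Real.sqrt_div (by positivity), Nat.cast_mul]
    ring
  have hB : ∑ z ∈ (Prs (H ^ 3)).filter (fun z => ¬ ((z.1 * z.2 : ℕ) : ℝ) ≤ Y),
      min (48 * ((H : ℝ) ^ 3 / ((z.1 : ℝ) * z.2)) ^ 2)
      (9 * H * √((H : ℝ) ^ 3 / ((z.1 : ℝ) * z.2))) ≤
      48 * ((H : ℝ) ^ 3) ^ 2 * (2 / Y * (1 + 3 * Real.log H)) := by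
    refine le_trans ?_ (mul_le_mul_of_nonneg_left h2 (by positivity))
    rw [Finset.mul_sum]
    have e : (Prs (H ^ 3)).filter (fun z => ¬ ((z.1 * z.2 : ℕ) : ℝ) ≤ Y) =
        (Prs (H ^ 3)).filter (fun z => Y < ((z.1 * z.2 : ℕ) : ℝ)) := by
      refine Finset.filter_congr fun z _ => ?_
      rw [not_le]
    rw [e]
    refine Finset.sum_le_sum fun z hz => ?_
    refine (min_le_left _ _).trans (le_of_eq ?_)
    rw [div_pow, Nat.cast_mul]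
    ring
  refine (add_le_add hA hB).trans ?_
  -- the powers of H
  have p1 : (H : ℝ) * √((H : ℝ) ^ 3) * √Y = (H : ℝ) ^ (11 / 3 : ℝ) := by
    rw [hY, Real.sqrt_eq_rpow, Real.sqrt_eq_rpow, ← Real.rpow_natCast, ← Real.rpow_mul hH0.le,
      ← Real.rpow_mul hH0.le]
    nth_rewrite 1 [← Real.rpow_one (H : ℝ)]
    rw [← Real.rpow_add hH0, ← Real.rpow_add hH0]
    norm_num
  have p2 : ((H : ℝ) ^ 3) ^ 2 * (1 / Y) = (H : ℝ) ^ (11 / 3 : ℝ) := by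
    rw [hY, ← pow_mul, ← Real.rpow_natCast, one_div, ← Real.rpow_neg hH0.le,
      ← Real.rpow_add hH0]
    norm_num
  have e1 : 9 * H * √((H : ℝ) ^ 3) * (2 * √Y * (1 + 3 * Real.log H)) =
      18 * ((H : ℝ) * √((H : ℝ) ^ 3) * √Y) * (1 + 3 * Real.log H) := by ring
  have e2 : 48 * ((H : ℝ) ^ 3) ^ 2 * (2 / Y * (1 + 3 * Real.log H)) =
      96 * (((H : ℝ) ^ 3) ^ 2 * (1 / Y)) * (1 + 3 * Real.log H) := by ring
  rw [e1, e2, p1, p2]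
  exact le_of_eq (by ring)

/-- Row H2b. Multiples: `b ≠ 0`, `j³ ∣ b` for some `j > J`: at most `(2H+1) ∑_{j > J} 2H³/j³ ≤ 3H · 2H³/J²`
(`∑_{j > J} 1/j³ ≤ 1/J²`). -/
theorem cube_mult (H J : ℕ) (hH : 1 ≤ H) (hJ : 1 ≤ J) (S : Finset (ℤ × ℤ))
    (hS : ∀ z ∈ S, |z.1| ≤ (H : ℤ) ∧ |z.2| ≤ (H : ℤ) ^ 3 ∧ z.2 ≠ 0 ∧
      ∃ j : ℕ, J < j ∧ (j : ℤ) ^ 3 ∣ z.2) :
    (S.card : ℝ) ≤ 6 * (H : ℝ) ^ 4 / (J : ℝ) ^ 2 := by
  have hJ1 : (1 : ℝ) ≤ J := by exact_mod_cast hJ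
  have hH1 : (1 : ℝ) ≤ H := by exact_mod_cast hH
  -- the tail of the series
  have tail : ∀ n : ℕ, ∑ j ∈ Finset.Ioc J (J + n), 1 / ((j : ℝ)) ^ 3 ≤
      1 / (J : ℝ) ^ 2 - 1 / ((J + n : ℕ) : ℝ) ^ 2 := by
    intro n
    induction n with
    | zero => simp
    | succ n ih =>
      rw [← add_assoc, Finset.sum_Ioc_succ_top (by omega)]
      have h0 : (0 : ℝ) < ((J + n : ℕ) : ℝ) := by
        have : 0 < J + n := by omega
        exact_mod_cast this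
      have key : 1 / ((((J + n + 1 : ℕ)) : ℝ)) ^ 3 ≤
          1 / (((J + n : ℕ)) : ℝ) ^ 2 - 1 / ((((J + n + 1 : ℕ)) : ℝ)) ^ 2 := by
        obtain ⟨t, ht⟩ : ∃ t : ℝ, t = ((J + n : ℕ) : ℝ) := ⟨_, rfl⟩
        have ht1 : ((J + n + 1 : ℕ) : ℝ) = t + 1 := by rw [ht]; push_cast; ring
        rw [ht1, ← ht]
        rw [← ht] at h0
        rw [div_sub_div _ _ (by positivity) (by positivity),
          div_le_div_iff₀ (by positivity) (by positivity)]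
        nlinarith [mul_pos h0 h0, mul_pos (mul_pos h0 h0) h0, pow_pos h0 4, pow_pos h0 5]
      linarith
  -- the union
  have hsub : S ⊆ (Finset.Ioc J H).biUnion (fun j : ℕ => (Finset.Icc (-(H : ℤ)) H) ×ˢ
      (((Finset.Icc (-((H ^ 3 / j ^ 3 : ℕ) : ℤ)) ((H ^ 3 / j ^ 3 : ℕ) : ℤ)).erase 0).image
        (fun k : ℤ => (j : ℤ) ^ 3 * k))) := by
    intro z hz
    obtain ⟨ha, hb, hb0, j, hj, k, hk⟩ := hS z hz
    have hj1 : 1 ≤ j := by omega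
    have hk0 : k ≠ 0 := by
      rintro rfl
      rw [mul_zero] at hk
      exact hb0 hk
    have hjZ : (0 : ℤ) < (j : ℤ) ^ 3 := by positivity
    have hkabs : (j : ℤ) ^ 3 * |k| ≤ (H : ℤ) ^ 3 := by
      rw [hk, abs_mul, abs_of_pos hjZ] at hb
      exact hb
    have hkN : j ^ 3 * k.natAbs ≤ H ^ 3 := by
      have : ((j ^ 3 * k.natAbs : ℕ) : ℤ) ≤ ((H ^ 3 : ℕ) : ℤ) := by
        push_cast
        exact hkabs
      exact_mod_cast this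
    have hk1 : 1 ≤ k.natAbs := Int.natAbs_pos.mpr hk0
    have hjH : j ≤ H := by
      have h3 : j ^ 3 ≤ H ^ 3 := le_trans (Nat.le_mul_of_pos_right _ hk1) hkN
      exact (Nat.pow_le_pow_iff_left (by norm_num)).mp h3
    rw [Finset.mem_biUnion]
    refine ⟨j, Finset.mem_Ioc.mpr ⟨hj, hjH⟩, ?_⟩
    rw [Finset.mem_product]
    refine ⟨?_, ?_⟩
    · rw [Finset.mem_Icc]
      exact abs_le.mp ha
    · rw [Finset.mem_image]
      refine ⟨k, ?_, hk.symm⟩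
      rw [Finset.mem_erase, Finset.mem_Icc]
      refine ⟨hk0, ?_⟩
      have hdiv : k.natAbs ≤ H ^ 3 / j ^ 3 := by
        rw [Nat.le_div_iff_mul_le (by positivity)]
        rw [mul_comm]
        exact hkN
      have : |k| ≤ ((H ^ 3 / j ^ 3 : ℕ) : ℤ) := by
        rw [← Int.natCast_natAbs]
        exact_mod_cast hdiv
      exact abs_le.mp this
  have hcard := (Finset.card_le_card hsub).trans Finset.card_biUnion_le
  have hcardR : (S.card : ℝ) ≤ ∑ j ∈ Finset.Ioc J H, 6 * (H : ℝ) ^ 4 * (1 / (j : ℝ) ^ 3) := by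
    refine le_trans (b := ((∑ j ∈ Finset.Ioc J H, ((Finset.Icc (-(H : ℤ)) H) ×ˢ
      (((Finset.Icc (-((H ^ 3 / j ^ 3 : ℕ) : ℤ)) ((H ^ 3 / j ^ 3 : ℕ) : ℤ)).erase 0).image
        (fun k : ℤ => (j : ℤ) ^ 3 * k))).card : ℕ) : ℝ)) (by exact_mod_cast hcard) ?_
    rw [Nat.cast_sum]
    refine Finset.sum_le_sum fun j hj => ?_
    have hj1 : 1 ≤ j := by
      have := (Finset.mem_Ioc.mp hj).1
      omega
    have hjR : (0 : ℝ) < j := by exact_mod_cast hj1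
    rw [Finset.card_product, Nat.cast_mul]
    have c1 : (((Finset.Icc (-(H : ℤ)) H).card : ℕ) : ℝ) ≤ 3 * H := by
      rw [Int.card_Icc]
      have : ((H : ℤ) + 1 - -(H : ℤ)).toNat = 2 * H + 1 := by omega
      rw [this]
      push_cast
      linarith
    have c2 : ((((((Finset.Icc (-((H ^ 3 / j ^ 3 : ℕ) : ℤ))
        ((H ^ 3 / j ^ 3 : ℕ) : ℤ)).erase 0).image
        (fun k : ℤ => (j : ℤ) ^ 3 * k))).card : ℕ) : ℝ) ≤ 2 * ((H : ℝ) ^ 3 / (j : ℝ) ^ 3) := by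
      have d1 : (((Finset.Icc (-((H ^ 3 / j ^ 3 : ℕ) : ℤ))
        ((H ^ 3 / j ^ 3 : ℕ) : ℤ)).erase 0).image
        (fun k : ℤ => (j : ℤ) ^ 3 * k)).card ≤ 2 * (H ^ 3 / j ^ 3) := by
        refine Finset.card_image_le.trans ?_
        rw [Finset.card_erase_of_mem (Finset.mem_Icc.mpr
          ⟨neg_nonpos.mpr (Int.natCast_nonneg _), Int.natCast_nonneg _⟩), Int.card_Icc]
        generalize H ^ 3 / j ^ 3 = K
        omega
      have d2 : ((H ^ 3 / j ^ 3 : ℕ) : ℝ) ≤ ((H ^ 3 : ℕ) : ℝ) / ((j ^ 3 : ℕ) : ℝ) :=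
        Nat.cast_div_le
      push_cast at d2
      have d3 : ((((((Finset.Icc (-((H ^ 3 / j ^ 3 : ℕ) : ℤ))
        ((H ^ 3 / j ^ 3 : ℕ) : ℤ)).erase 0).image
        (fun k : ℤ => (j : ℤ) ^ 3 * k))).card : ℕ) : ℝ) ≤ ((2 * (H ^ 3 / j ^ 3) : ℕ) : ℝ) := by
        exact_mod_cast d1
      refine d3.trans ?_
      rw [Nat.cast_mul]
      push_cast
      linarith
    calc _ ≤ (3 * (H : ℝ)) * (2 * ((H : ℝ) ^ 3 / (j : ℝ) ^ 3)) :=
          mul_le_mul c1 c2 (Nat.cast_nonneg _) (by positivity)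
      _ = 6 * (H : ℝ) ^ 4 * (1 / (j : ℝ) ^ 3) := by ring
  refine hcardR.trans ?_
  rw [← Finset.mul_sum, mul_div_assoc]
  rw [div_eq_mul_one_div ((H : ℝ) ^ 4) ((J : ℝ) ^ 2), mul_assoc]
  refine mul_le_mul_of_nonneg_left (mul_le_mul_of_nonneg_left ?_ (by positivity)) (by norm_num)
  rcases le_total H J with hle | hle
  · rw [Finset.Ioc_eq_empty (by omega), Finset.sum_empty]
    positivity
  · obtain ⟨n, rfl⟩ := Nat.exists_eq_add_of_le hle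
    refine (tail n).trans ?_
    have : 0 ≤ 1 / ((J + n : ℕ) : ℝ) ^ 2 := by positivity
    linarith

end T44
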