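import Pool.Agent.LibT44.C1
import Pool.Agent.LibT44.D5
import Pool.Agent.LibT44.H2

namespace T44

theorem h3a_unique {α β : ℕ} {p q p' q' : ℝ} (h : Cl α β p q) (h' : Cl α β p' q') :
    p = p' ∧ q = q' := by
  obtain ⟨hα, hβ, -, -, -, -, hp, hq, e1, e2, e3⟩ := h
  obtain ⟨-, -, -, -, -, -, hp', hq', e1', e2', e3'⟩ := h'
  have hβ' : (0:ℝ) < β := by exact_mod_cast hβ
  have k1 : p ^ 3 = α * β ^ 2 := by
    have h0 : p * (p ^ 3 - α * β ^ 2) = 0 := by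
      linear_combination (p ^ 2 + β * q) * e1 + β ^ 2 * e2
    rcases mul_eq_zero.1 h0 with h1 | h1
    · exact absurd h1 hp.ne'
    · linarith
  have k2 : p' ^ 3 = α * β ^ 2 := by
    have h0 : p' * (p' ^ 3 - α * β ^ 2) = 0 := by
      linear_combination (p' ^ 2 + β * q') * e1' + β ^ 2 * e2'
    rcases mul_eq_zero.1 h0 with h1 | h1
    · exact absurd h1 hp'.ne'
    · linarith
  have k3 : p = p' := by
    have : p ^ 3 = p' ^ 3 := by rw [k1, k2]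
    exact (pow_left_inj₀ hp.le hp'.le (by norm_num)).1 this
  refine ⟨k3, ?_⟩
  have : (β:ℝ) * q = β * q' := by rw [← e1, ← e1', k3]
  exact mul_left_cancel₀ hβ'.ne' this

theorem h3a_fibre (H : ℕ) (hH : 1 ≤ H) (α β : ℕ) (U : ℝ) (hU0 : 0 < U)
    (hU : 144 * (H : ℝ) ^ 3 ≤ U ^ 2) (S : Finset (ℤ × ℤ))
    (hS : ∀ w ∈ S, ∃ (p q : ℝ) (z : ℤ × ℤ × ℤ), Cl α β p q ∧ Sol H α β z ∧ z.1 = w.1 ∧
      w.2 = (α : ℤ) * β * F α β z ∧ U ≤ sS p q z ∧ sS p q z < 2 * U) :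
    (S.card : ℝ) ≤ min (48 * ((H : ℝ) ^ 3 / ((α : ℝ) * β)) ^ 2)
      (9 * H * √((H : ℝ) ^ 3 / ((α : ℝ) * β))) := by
  rcases S.eq_empty_or_nonempty with h0 | ⟨w0, hw0⟩
  · subst h0
    simp only [Finset.card_empty, Nat.cast_zero]
    exact le_min (by positivity) (by positivity)
  choose! p q z h1 h2 h3 h4 h5 h6 using hS
  have hinj : Set.InjOn z (S : Set (ℤ × ℤ)) := by
    intro w hw w' hw' e
    have hw := Finset.mem_coe.1 hw
    have hw' := Finset.mem_coe.1 hw'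
    refine Prod.ext ?_ ?_
    · rw [← h3 w hw, ← h3 w' hw', e]
    · rw [h4 w hw, h4 w' hw', e]
  have hcard : (S.image z).card = S.card := Finset.card_image_of_injOn hinj
  have hT : ∀ x ∈ S.image z, Sol H α β x ∧ U ≤ sS (p w0) (q w0) x ∧ sS (p w0) (q w0) x < 2 * U := by
    intro x hx
    obtain ⟨w, hw, rfl⟩ := Finset.mem_image.1 hx
    obtain ⟨ep, eq⟩ := h3a_unique (h1 w hw) (h1 w0 hw0)
    rw [← ep, ← eq]
    exact ⟨h2 w hw, h5 w hw, h6 w hw⟩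
  rw [← hcard]
  exact le_min (block (h1 w0 hw0) hH U hU0 hU _ hT) (all_a (h1 w0 hw0) hH U hU0 hU _ hT)

theorem h3a_prs {H α β : ℕ} {p q : ℝ} {z : ℤ × ℤ × ℤ} (h : Cl α β p q) (hz : Sol H α β z) :
    (α, β) ∈ Prs (H ^ 3) := by
  obtain ⟨hα, hβ, -⟩ := h
  obtain ⟨-, hF, hb, -, -⟩ := hz
  have h1 : (1:ℤ) ≤ |F α β z| := Int.one_le_abs hF
  have h2 : (0:ℤ) ≤ (α:ℤ) * β := by positivity
  have h3 : (α:ℤ) * β ≤ (H:ℤ) ^ 3 := by nlinarith
  have h4 : α * β ≤ H ^ 3 := by exact_mod_cast h3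
  have h5 : α ≤ α * β := Nat.le_mul_of_pos_right _ hβ
  have h6 : β ≤ α * β := Nat.le_mul_of_pos_left _ hα
  simp only [Prs, Finset.mem_filter, Finset.mem_product, Finset.mem_Icc]
  exact ⟨⟨⟨hα, h5.trans h4⟩, ⟨hβ, h6.trans h4⟩⟩, h4⟩

theorem h3a_block (H : ℕ) (hH : 1 ≤ H) (s : ℝ) (hs : 0 < s) (h1 : 144 * (H : ℝ) ^ 3 ≤ s ^ 2)
    (h2 : s < 10 ^ 7 * (H : ℝ) ^ 20) :
    ∃ i : ℕ, i < ⌈40 * (1 + Real.log H)⌉₊ ∧ 12 * √((H : ℝ) ^ 3) * 2 ^ i ≤ s ∧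
      s < 2 * (12 * √((H : ℝ) ^ 3) * 2 ^ i) := by
  have hH' : (1:ℝ) ≤ H := by exact_mod_cast hH
  obtain ⟨r, hr⟩ : ∃ r, r = √((H : ℝ) ^ 3) := ⟨_, rfl⟩
  have hr0 : 0 ≤ r := hr ▸ Real.sqrt_nonneg _
  have hr2 : r ^ 2 = (H : ℝ) ^ 3 := by rw [hr]; exact Real.sq_sqrt (by positivity)
  have hr1 : 1 ≤ r := by
    rw [hr]; exact Real.one_le_sqrt.2 (one_le_pow₀ hH')
  rw [← hr]
  have h3 : 12 * r ≤ s := by
    have : (12 * r) ^ 2 ≤ s ^ 2 := by nlinarith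
    exact (pow_le_pow_iff_left₀ (by positivity) hs.le (by norm_num)).1 this
  have h4 : 1 ≤ s / (12 * r) := by rw [le_div_iff₀ (by positivity)]; linarith
  obtain ⟨i, hi1, hi2⟩ := exists_nat_pow_near h4 (by norm_num : (1:ℝ) < 2)
  rw [le_div_iff₀ (by positivity)] at hi1
  rw [div_lt_iff₀ (by positivity)] at hi2
  refine ⟨i, ?_, by linarith, ?_⟩
  · rw [Nat.lt_ceil]
    have hL : 0 ≤ Real.log H := Real.log_nonneg hH'
    have h5 : (2:ℝ) ^ i ≤ 2 ^ 28 * (H : ℝ) ^ 20 := by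
      have h6 : (2:ℝ) ^ i ≤ 2 ^ i * (12 * r) := by
        have : (0:ℝ) < 2 ^ i := by positivity
        nlinarith
      have h7 : (10:ℝ) ^ 7 * (H : ℝ) ^ 20 ≤ 2 ^ 28 * (H : ℝ) ^ 20 := by
        apply mul_le_mul_of_nonneg_right _ (by positivity)
        norm_num
      linarith
    have h6 := Real.log_le_log (by positivity) h5
    rw [Real.log_pow, Real.log_mul (by positivity) (by positivity), Real.log_pow,
      Real.log_pow] at h6
    push_cast at h6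
    have h7 := Real.log_two_gt_d9
    by_contra hc
    have hc := not_lt.1 hc
    have h8 : 40 * (1 + Real.log H) * Real.log 2 ≤ i * Real.log 2 :=
      mul_le_mul_of_nonneg_right hc (by linarith)
    have h9 : 0.6931471803 * Real.log H ≤ Real.log 2 * Real.log H :=
      mul_le_mul_of_nonneg_right h7.le hL
    nlinarith
  · rw [pow_succ] at hi2
    linarith

/-- Row H3a. Middle solutions of positive `S`: pairs `(a, b)` which have a solution of some class with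
`12 H^(3/2) ≤ S < 10^7 H^20`. Dyadic blocks `U = 12 H^(3/2) 2^i`, `i < 2 + log₂(10^7 H^20)` `≤ C (1 + log H)`; for given class and
block `card ≤ min (48M²) (9H√M)` (`block`, `all_a`), `M = H³/(αβ)`, and `αβ ≤ H³`; `(α, β, z)` determines `(a, b)`; `mid_sum`;
`(1 + log H)² ≤ C H^(1/30)`. (`p, q > 0` are determined by `α, β`: `p³ = αβ²`, `q³ = α²β`.) -/
theorem mid_total : ∃ C : ℝ, 0 < C ∧ ∀ H : ℕ, 1 ≤ H → ∀ S : Finset (ℤ × ℤ),
    (∀ w ∈ S, ∃ (α β : ℕ) (p q : ℝ) (z : ℤ × ℤ × ℤ), Cl α β p q ∧ Sol H α β z ∧ z.1 = w.1 ∧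
      w.2 = (α : ℤ) * β * F α β z ∧ 0 < sS p q z ∧ sS p q z < 10 ^ 7 * (H : ℝ) ^ 20) →
    (S.card : ℝ) ≤ C * (H : ℝ) ^ (37 / 10 : ℝ) := by
  refine ⟨41 * 61 * 183 * 114, by norm_num, ?_⟩
  intro H hH S hS
  have hH' : (1:ℝ) ≤ H := by exact_mod_cast hH
  have hL : 0 ≤ Real.log H := Real.log_nonneg hH'
  obtain ⟨N, hN⟩ : ∃ N, N = ⌈40 * (1 + Real.log H)⌉₊ := ⟨_, rfl⟩
  have hkey : ∀ w ∈ S, ∃ (α β : ℕ) (i : ℕ), (α, β) ∈ Prs (H ^ 3) ∧ i < N ∧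
      ∃ (p q : ℝ) (z : ℤ × ℤ × ℤ), Cl α β p q ∧ Sol H α β z ∧ z.1 = w.1 ∧
      w.2 = (α : ℤ) * β * F α β z ∧ 12 * √((H : ℝ) ^ 3) * 2 ^ i ≤ sS p q z ∧
      sS p q z < 2 * (12 * √((H : ℝ) ^ 3) * 2 ^ i) := by
    intro w hw
    obtain ⟨α, β, p, q, z, hc, hs, h1, h2, h3, h4⟩ := hS w hw
    obtain ⟨i, hi, h5, h6⟩ := h3a_block H hH _ h3 (size hc hH z hs).1 h4
    exact ⟨α, β, i, h3a_prs hc hs, hN ▸ hi, p, q, z, hc, hs, h1, h2, h5, h6⟩
  choose! α β i hp hi hz using hkey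
  obtain ⟨f, hf⟩ : ∃ f : ℤ × ℤ → (ℕ × ℕ) × ℕ, f = fun w => ((α w, β w), i w) := ⟨_, rfl⟩
  obtain ⟨g, hg⟩ : ∃ g : ℕ × ℕ → ℝ, g = fun z => min (48 * ((H : ℝ) ^ 3 / ((z.1 : ℝ) * z.2)) ^ 2)
      (9 * H * √((H : ℝ) ^ 3 / ((z.1 : ℝ) * z.2))) := ⟨_, rfl⟩
  have hcard : S.card = ∑ k ∈ Prs (H ^ 3) ×ˢ Finset.range N, (S.filter (fun w => f w = k)).card := by
    apply Finset.card_eq_sum_card_fiberwise
    intro w hw
    have hw := Finset.mem_coe.1 hw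
    simp only [hf, Finset.coe_product, Set.mem_prod, Finset.mem_coe, Finset.mem_range]
    exact ⟨hp w hw, hi w hw⟩
  have hfib : ∀ k ∈ Prs (H ^ 3) ×ˢ Finset.range N,
      ((S.filter (fun w => f w = k)).card : ℝ) ≤ g k.1 := by
    rintro ⟨⟨a, b⟩, j⟩ hk
    rw [hg]
    apply h3a_fibre H hH a b (12 * √((H : ℝ) ^ 3) * 2 ^ j)
    · have : 0 < √((H : ℝ) ^ 3) := Real.sqrt_pos.2 (by positivity)
      positivity
    · have h1 : √((H : ℝ) ^ 3) ^ 2 = (H : ℝ) ^ 3 := Real.sq_sqrt (by positivity)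
      have h2 : (1:ℝ) ≤ (2 ^ j) ^ 2 := one_le_pow₀ (one_le_pow₀ (by norm_num))
      have h3 : (12 * √((H : ℝ) ^ 3) * 2 ^ j) ^ 2 = 144 * (H : ℝ) ^ 3 * (2 ^ j) ^ 2 := by
        rw [mul_pow, mul_pow, h1]; norm_num
      rw [h3]
      have h4 : 0 ≤ 144 * (H : ℝ) ^ 3 := by positivity
      nlinarith
    · intro w hw
      obtain ⟨hw1, hw2⟩ := Finset.mem_filter.1 hw
      simp only [hf, Prod.mk.injEq] at hw2
      obtain ⟨⟨ea, eb⟩, ej⟩ := hw2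
      have := hz w hw1
      rw [ea, eb, ej] at this
      exact this
  have h1 : (S.card : ℝ) ≤ N * ∑ z ∈ Prs (H ^ 3), g z := by
    rw [hcard]
    push_cast
    calc ∑ k ∈ Prs (H ^ 3) ×ˢ Finset.range N, ((S.filter (fun w => f w = k)).card : ℝ)
        ≤ ∑ k ∈ Prs (H ^ 3) ×ˢ Finset.range N, g k.1 := Finset.sum_le_sum hfib
      _ = N * ∑ z ∈ Prs (H ^ 3), g z := by
        rw [Finset.sum_product, Finset.mul_sum]
        apply Finset.sum_congr rfl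
        intro z _
        simp
  have h2 := mid_sum H hH
  have h3 : ∑ z ∈ Prs (H ^ 3), g z ≤ 114 * (H : ℝ) ^ (11 / 3 : ℝ) * (1 + 3 * Real.log H) := by
    rw [hg]; exact h2
  have h4 : (N : ℝ) ≤ 41 * (1 + Real.log H) := by
    have := (Nat.ceil_lt_add_one (by positivity : 0 ≤ 40 * (1 + Real.log H))).le
    rw [← hN] at this
    linarith
  obtain ⟨y, hy⟩ : ∃ y, y = (H : ℝ) ^ (1 / 60 : ℝ) := ⟨_, rfl⟩
  have hy1 : 1 ≤ y := by
    rw [hy]; exact Real.one_le_rpow hH' (by norm_num)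
  have h5 : Real.log H ≤ 60 * y := by
    have := Real.log_le_rpow_div (by linarith : (0:ℝ) ≤ H) (by norm_num : (0:ℝ) < 1 / 60)
    rw [← hy] at this
    linarith
  have h6 : (H : ℝ) ^ (37 / 10 : ℝ) = (H : ℝ) ^ (11 / 3 : ℝ) * y * y := by
    rw [hy, ← Real.rpow_add (by linarith), ← Real.rpow_add (by linarith)]
    norm_num
  have h7 : 0 ≤ (H : ℝ) ^ (11 / 3 : ℝ) := by positivity
  calc (S.card : ℝ) ≤ N * ∑ z ∈ Prs (H ^ 3), g z := h1
    _ ≤ (41 * (1 + Real.log H)) * (114 * (H : ℝ) ^ (11 / 3 : ℝ) * (1 + 3 * Real.log H)) := by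
        apply mul_le_mul h4 h3 _ (by positivity)
        apply Finset.sum_nonneg
        intro z _
        rw [hg]
        exact le_min (by positivity) (by positivity)
    _ ≤ (41 * (61 * y)) * (114 * (H : ℝ) ^ (11 / 3 : ℝ) * (183 * y)) := by
        apply mul_le_mul
        · linarith
        · apply mul_le_mul_of_nonneg_left _ (by positivity)
          linarith
        · positivity
        · positivity
    _ = 41 * 61 * 183 * 114 * (H : ℝ) ^ (37 / 10 : ℝ) := by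
        rw [h6]; ring

end T44
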