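import Pool.Agent.LibT44.G4
import Pool.Agent.LibT44.H2

namespace T44

open Finset

theorem h3b_pq {α β : ℕ} {p q p' q' : ℝ} (h : Cl α β p q) (h' : Cl α β p' q') :
    p = p' ∧ q = q' := by
  obtain ⟨hα, hβ, -, -, -, -, hp, hq, h1, h2, h3⟩ := h
  obtain ⟨-, -, -, -, -, -, hp', hq', h1', h2', h3'⟩ := h'
  have hβ0 : (0 : ℝ) < β := by exact_mod_cast hβ
  have e1 : p ^ 3 = α * (β : ℝ) ^ 2 := by
    linear_combination p * h1 + β * h3
  have e2 : p' ^ 3 = α * (β : ℝ) ^ 2 := by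
    linear_combination p' * h1' + β * h3'
  have hpp : p = p' :=
    (pow_left_inj₀ hp.le hp'.le (by norm_num : (3 : ℕ) ≠ 0)).1 (e1.trans e2.symm)
  refine ⟨hpp, mul_left_cancel₀ hβ0.ne' ?_⟩
  rw [← h1, ← h1', hpp]

theorem h3b_dvd (α β : ℕ) (z : ℤ × ℤ × ℤ) (g : ℤ) (h1 : g ∣ z.1) (h2 : g ∣ z.2.1)
    (h3 : g ∣ z.2.2) : g ^ 3 ∣ F α β z := by
  obtain ⟨a, ha⟩ := h1
  obtain ⟨u, hu⟩ := h2
  obtain ⟨v, hv⟩ := h3
  refine ⟨α * v ^ 3 - β * u ^ 3 - a * u * v, ?_⟩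
  unfold F
  rw [ha, hu, hv]
  ring

theorem h3b_gcd (α β : ℕ) (z : ℤ × ℤ × ℤ) :
    ((Nat.gcd z.1.natAbs (Nat.gcd z.2.1.natAbs z.2.2.natAbs) : ℕ) : ℤ) ^ 3 ∣
      (α : ℤ) * β * F α β z := by
  set g := Nat.gcd z.1.natAbs (Nat.gcd z.2.1.natAbs z.2.2.natAbs) with hg
  have h1 : (g : ℤ) ∣ z.1 := Int.natCast_dvd.2 (Nat.gcd_dvd_left _ _)
  have h2 : (g : ℤ) ∣ z.2.1 :=
    Int.natCast_dvd.2 ((Nat.gcd_dvd_right _ _).trans (Nat.gcd_dvd_left _ _))
  have h3 : (g : ℤ) ∣ z.2.2 :=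
    Int.natCast_dvd.2 ((Nat.gcd_dvd_right _ _).trans (Nat.gcd_dvd_right _ _))
  exact (h3b_dvd α β z g h1 h2 h3).mul_left _

/-- Row H3b. Large solutions of positive `S`, `log S ≤ exp (H^(1/10) + 2)`. `J = ⌈H^(3/10)⌉`: if `gcd(a,u,v) = g > J` then
`g³ ∣ F(z)`, so `g³ ∣ b`: `cube_mult`: `≤ 6 H^4/H^(6/10)`. Otherwise `large` with `Y = H^(1/10) + 2` for each class
(`αβ ≤ H³`: `Prs (H^3)`, `prs_card`): `≤ H³ (1 + 3 log H) (2 H^(3/10)) (15 + 7 H^(1/10))`. (`p, q > 0` are determined by `α, β`.) -/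
theorem large_total : ∃ C : ℝ, 0 < C ∧ ∀ H : ℕ, 1 ≤ H → ∀ S : Finset (ℤ × ℤ),
    (∀ w ∈ S, ∃ (α β : ℕ) (p q : ℝ) (z : ℤ × ℤ × ℤ), Cl α β p q ∧ Sol H α β z ∧ z.1 = w.1 ∧
      w.2 = (α : ℤ) * β * F α β z ∧ 10 ^ 7 * (H : ℝ) ^ 20 ≤ sS p q z ∧
      Real.log (sS p q z) ≤ Real.exp ((H : ℝ) ^ (1 / 10 : ℝ) + 2)) →
    (S.card : ℝ) ≤ C * (H : ℝ) ^ (37 / 10 : ℝ) := by
  classical
  refine ⟨490, by norm_num, fun H hH S hS => ?_⟩
  choose! α β p q z hz using hS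
  have hH1 : (1 : ℝ) ≤ H := by exact_mod_cast hH
  have hH0 : (0 : ℝ) < H := by linarith
  set t : ℝ := (H : ℝ) ^ (3 / 10 : ℝ) with ht
  have ht1 : 1 ≤ t := Real.one_le_rpow hH1 (by norm_num)
  set s : ℝ := (H : ℝ) ^ (1 / 10 : ℝ) with hs
  have hs1 : 1 ≤ s := Real.one_le_rpow hH1 (by norm_num)
  set J : ℕ := ⌈t⌉₊ with hJ
  have hJ1 : 1 ≤ J := Nat.one_le_ceil_iff.2 (by linarith)
  have hJt : t ≤ J := Nat.le_ceil t
  have hJ2 : (J : ℝ) ≤ 2 * t := by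
    have := Nat.ceil_lt_add_one (by linarith : (0 : ℝ) ≤ t)
    linarith
  have hcard := Finset.card_filter_add_card_filter_not (s := S)
    (fun w : ℤ × ℤ => ∃ j : ℕ, J < j ∧ (j : ℤ) ^ 3 ∣ w.2)
  set S1 := S.filter (fun w : ℤ × ℤ => ∃ j : ℕ, J < j ∧ (j : ℤ) ^ 3 ∣ w.2) with hS1
  set S2 := S.filter (fun w : ℤ × ℤ => ¬ ∃ j : ℕ, J < j ∧ (j : ℤ) ^ 3 ∣ w.2) with hS2
  have hb : ∀ w ∈ S, |w.1| ≤ (H : ℤ) ∧ |w.2| ≤ (H : ℤ) ^ 3 ∧ w.2 ≠ 0 ∧
      (α w, β w) ∈ Prs (H ^ 3) := by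
    intro w hw
    obtain ⟨hcl, hsol, h1, h2, -, -⟩ := hz w hw
    obtain ⟨hα, hβ, -, -, -, -, -, -, -, -, -⟩ := hcl
    obtain ⟨k1, k2, k3, -, -⟩ := hsol
    have hα' : (1 : ℤ) ≤ α w := by exact_mod_cast hα
    have hβ' : (1 : ℤ) ≤ β w := by exact_mod_cast hβ
    have hab : (0 : ℤ) < (α w : ℤ) * β w := by positivity
    refine ⟨by rw [← h1]; exact k1, ?_, ?_, ?_⟩
    · rw [h2, abs_mul, abs_of_pos hab]
      exact k3
    · rw [h2]
      exact mul_ne_zero hab.ne' k2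
    · have hF : 1 ≤ |F (α w) (β w) (z w)| := Int.one_le_abs k2
      have h3 : (α w : ℤ) * β w ≤ (H : ℤ) ^ 3 := by nlinarith
      have h4 : α w * β w ≤ H ^ 3 := by exact_mod_cast h3
      unfold Prs
      rw [Finset.mem_filter, Finset.mem_product, Finset.mem_Icc, Finset.mem_Icc]
      refine ⟨⟨⟨hα, ?_⟩, ⟨hβ, ?_⟩⟩, h4⟩
      · exact (Nat.le_mul_of_pos_right _ hβ).trans h4
      · exact (Nat.le_mul_of_pos_left _ hα).trans h4
  -- the multiples of large cubes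
  have hA : (S1.card : ℝ) ≤ 6 * (H : ℝ) ^ (37 / 10 : ℝ) := by
    have h1 := cube_mult H J hH hJ1 S1 (fun w hw => by
      rw [hS1, Finset.mem_filter] at hw
      obtain ⟨k1, k2, k3, -⟩ := hb w hw.1
      exact ⟨k1, k2, k3, hw.2⟩)
    refine h1.trans ?_
    have h2 : t ^ 2 ≤ (J : ℝ) ^ 2 := by nlinarith
    have h3 : 6 * (H : ℝ) ^ 4 / (J : ℝ) ^ 2 ≤ 6 * (H : ℝ) ^ 4 / t ^ 2 :=
      div_le_div_of_nonneg_left (by positivity) (by positivity) h2
    refine h3.trans ?_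
    rw [div_le_iff₀ (by positivity)]
    have h4 : t ^ 2 = (H : ℝ) ^ (6 / 10 : ℝ) := by
      rw [ht, ← Real.rpow_natCast, ← Real.rpow_mul hH0.le]
      norm_num
    have h5 : (H : ℝ) ^ 4 ≤ (H : ℝ) ^ (37 / 10 : ℝ) * t ^ 2 := by
      rw [h4, ← Real.rpow_add hH0, ← Real.rpow_natCast]
      exact Real.rpow_le_rpow_of_exponent_le hH1 (by norm_num)
    nlinarith
  -- the classes
  have hB : (S2.card : ℝ) ≤ 484 * (H : ℝ) ^ (37 / 10 : ℝ) := by
    have hfib := Finset.card_eq_sum_card_fiberwise (s := S2) (t := Prs (H ^ 3))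
      (f := fun w => (α w, β w)) (fun w hw => by
        have hw' : w ∈ S2 := hw
        rw [hS2, Finset.mem_filter] at hw'
        exact (hb w hw'.1).2.2.2)
    have hY : 0 ≤ s + 2 := by linarith
    have hone : ∀ c ∈ Prs (H ^ 3),
        (((S2.filter (fun w => (α w, β w) = c)).card : ℕ) : ℝ) ≤ J * (1 + 7 * (s + 2)) := by
      intro c _
      rcases (S2.filter (fun w => (α w, β w) = c)).eq_empty_or_nonempty with he | ⟨w0, hw0⟩
      · rw [he]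
        simp only [Finset.card_empty, Nat.cast_zero]
        positivity
      · rw [Finset.mem_filter] at hw0
        have hw0S : w0 ∈ S := (Finset.mem_filter.1 hw0.1).1
        have hinj : Set.InjOn z (S2.filter (fun w => (α w, β w) = c) : Finset (ℤ × ℤ)) := by
          intro w hw w' hw' e
          rw [Finset.mem_coe, Finset.mem_filter] at hw hw'
          have hwS : w ∈ S := (Finset.mem_filter.1 hw.1).1
          have hwS' : w' ∈ S := (Finset.mem_filter.1 hw'.1).1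
          obtain ⟨-, -, h1, h2, -, -⟩ := hz w hwS
          obtain ⟨-, -, h1', h2', -, -⟩ := hz w' hwS'
          have e1 : (α w, β w) = (α w', β w') := hw.2.trans hw'.2.symm
          rw [Prod.mk.injEq] at e1
          refine Prod.ext ?_ ?_
          · rw [← h1, ← h1', e]
          · rw [h2, h2', e, e1.1, e1.2]
        rw [← Finset.card_image_of_injOn hinj]
        refine large (hz w0 hw0S).1 hH J (s + 2) hY _ ?_
        intro z' hz'
        rw [Finset.mem_image] at hz'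
        obtain ⟨w, hw, rfl⟩ := hz'
        rw [Finset.mem_filter] at hw
        have hwS2 := Finset.mem_filter.1 hw.1
        obtain ⟨hcl, hsol, h1, h2, h3, h4⟩ := hz w hwS2.1
        have e1 : (α w, β w) = (α w0, β w0) := hw.2.trans hw0.2.symm
        rw [Prod.mk.injEq] at e1
        have hcl' := hcl
        rw [e1.1, e1.2] at hcl'
        obtain ⟨ep, eq⟩ := h3b_pq hcl' (hz w0 hw0S).1
        rw [← e1.1, ← e1.2, ← ep, ← eq]
        refine ⟨hsol, h3, h4, ?_⟩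
        by_contra hcon
        exact hwS2.2 ⟨_, not_le.1 hcon, by rw [h2]; exact h3b_gcd _ _ _⟩
    have hsum : (S2.card : ℝ) ≤ (Prs (H ^ 3)).card * (J * (1 + 7 * (s + 2))) := by
      rw [hfib]
      push_cast
      calc ∑ c ∈ Prs (H ^ 3), (((S2.filter (fun w => (α w, β w) = c)).card : ℕ) : ℝ)
          ≤ ∑ _c ∈ Prs (H ^ 3), (J : ℝ) * (1 + 7 * (s + 2)) := Finset.sum_le_sum hone
        _ = (Prs (H ^ 3)).card * (J * (1 + 7 * (s + 2))) := by
          rw [Finset.sum_const, nsmul_eq_mul]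
    have hprs := prs_card (H ^ 3) (Nat.one_le_pow _ _ hH)
    push_cast at hprs
    have hlog : Real.log ((H : ℝ) ^ 3) = 3 * Real.log H := by
      rw [Real.log_pow]
      norm_num
    rw [hlog] at hprs
    have hl : Real.log H ≤ t / (3 / 10) := Real.log_le_rpow_div hH0.le (by norm_num)
    have hl2 : 1 + 3 * Real.log H ≤ 11 * t := by
      have : t / (3 / 10) = 10 / 3 * t := by ring
      linarith
    have hP : ((Prs (H ^ 3)).card : ℝ) ≤ (H : ℝ) ^ 3 * (11 * t) :=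
      hprs.trans (mul_le_mul_of_nonneg_left hl2 (by positivity))
    have hJs : (J : ℝ) * (1 + 7 * (s + 2)) ≤ 2 * t * (22 * s) :=
      mul_le_mul hJ2 (by linarith) (by linarith) (by linarith)
    have hfin : ((Prs (H ^ 3)).card : ℝ) * (J * (1 + 7 * (s + 2))) ≤
        (H : ℝ) ^ 3 * (11 * t) * (2 * t * (22 * s)) :=
      mul_le_mul hP hJs (by positivity) (by positivity)
    have he : (H : ℝ) ^ 3 * (11 * t) * (2 * t * (22 * s)) = 484 * (H : ℝ) ^ (37 / 10 : ℝ) := by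
      have h1 : (H : ℝ) ^ (37 / 10 : ℝ) = (H : ℝ) ^ 3 * t * t * s := by
        rw [ht, hs, ← Real.rpow_natCast, ← Real.rpow_add hH0, ← Real.rpow_add hH0,
          ← Real.rpow_add hH0]
        norm_num
      rw [h1]
      ring
    exact hsum.trans (hfin.trans he.le)
  have hc : (S.card : ℝ) = S1.card + S2.card := by
    rw [← hcard]
    push_cast
    ring
  rw [hc]
  linarith

end T44
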