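import Pool.Agent.LibT44.A1
import Pool.Agent.LibT44.A2
import Pool.Agent.LibT44.B2
import Pool.Agent.LibT44.H3a
import Pool.Agent.LibT44.H3b

namespace T44

/-- Row H3. All points of the model. For `w = (a, b)` choose `(x, y)`. `|x| ≤ 36H³`: `small_count`. Otherwise `descent` gives
`α, β, u, v`, `z = (a, u, v)`, `b = αβ F(z)`, `Sol H α β z` (`b ≠ 0`, `a³ ≠ 27 b`, `|x| > 36H³`); `αβ = 1` is excluded by
`class_one`; `cl_exists` gives `p, q`; by `size` `S² ≥ 144H³ > 0` and `S² ≤ 4x + 4H² ≤ 5 exp(exp(H^(1/10)))·...`, so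
`log |S| ≤ exp (H^(1/10) + 2)`. If `S > 0`: `mid_total` or `large_total`. If `S < 0`: `sol_neg`: `-z` is a solution for
`(-a, -b)`; count the pairs `(-a, -b)`. -/
theorem ab_count : ∃ C : ℝ, 0 < C ∧ ∀ H : ℕ, 1 ≤ H → ∀ S : Finset (ℤ × ℤ),
    (∀ w ∈ S, |w.1| ≤ (H : ℤ) ∧ |w.2| ≤ (H : ℤ) ^ 3 ∧ w.2 ≠ 0 ∧ w.1 ^ 3 ≠ 27 * w.2 ∧
      ∃ x y : ℤ, x ≠ 0 ∧ (|x| : ℝ) ≤ Real.exp (Real.exp ((H : ℝ) ^ (1 / 10 : ℝ))) ∧
        y * (y + w.1 * x + w.2) = x ^ 3) →
    (S.card : ℝ) ≤ C * (H : ℝ) ^ (37 / 10 : ℝ) := by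
  classical
  obtain ⟨C₁, hC₁, h₁⟩ := small_count
  obtain ⟨C₂, hC₂, h₂⟩ := mid_total
  obtain ⟨C₃, hC₃, h₃⟩ := large_total
  refine ⟨C₁ + 2 * C₂ + 2 * C₃, by positivity, fun H hH S hS => ?_⟩
  have hH1 : (1 : ℝ) ≤ H := by exact_mod_cast hH
  set P0 : ℤ × ℤ → Prop := fun z => ∃ x y : ℤ, x ≠ 0 ∧
      |x| ≤ 36 * (H : ℤ) ^ 3 ∧ y * (y + z.1 * x + z.2) = x ^ 3 with hP0
  set Pm : ℤ × ℤ → Prop := fun w => ∃ (α β : ℕ) (p q : ℝ) (z : ℤ × ℤ × ℤ), Cl α β p q ∧
      Sol H α β z ∧ z.1 = w.1 ∧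
      w.2 = (α : ℤ) * β * F α β z ∧ 0 < sS p q z ∧ sS p q z < 10 ^ 7 * (H : ℝ) ^ 20 with hPm
  set Pl : ℤ × ℤ → Prop := fun w => ∃ (α β : ℕ) (p q : ℝ) (z : ℤ × ℤ × ℤ), Cl α β p q ∧
      Sol H α β z ∧ z.1 = w.1 ∧
      w.2 = (α : ℤ) * β * F α β z ∧ 10 ^ 7 * (H : ℝ) ^ 20 ≤ sS p q z ∧
      Real.log (sS p q z) ≤ Real.exp ((H : ℝ) ^ (1 / 10 : ℝ) + 2) with hPl
  have hcov : S ⊆ (((S.filter P0 ∪ S.filter Pm) ∪ S.filter Pl) ∪ S.filter fun w => Pm (-w)) ∪
      S.filter fun w => Pl (-w) := by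
    intro w hw
    obtain ⟨ha, hb, hb0, hab, x, y, hx0, hxle, hxy⟩ := hS w hw
    simp only [Finset.mem_union, Finset.mem_filter]
    by_cases hsm : |x| ≤ 36 * (H : ℤ) ^ 3
    · left; left; left; left
      exact ⟨hw, x, y, hx0, hsm, hxy⟩
    rw [not_le] at hsm
    obtain ⟨α, β, u, v, hα, hβ, sα, sβ, cop, hu, hv, hxe, hbe⟩ := descent w.1 w.2 x y hx0 hxy
    set z : ℤ × ℤ × ℤ := (w.1, u, v) with hz
    have hαβ : (0 : ℤ) < (α : ℤ) * β := by
      have h1 : (0 : ℤ) < α := by exact_mod_cast hα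
      have h2 : (0 : ℤ) < β := by exact_mod_cast hβ
      exact mul_pos h1 h2
    have hF0 : F α β z ≠ 0 := by
      intro h0
      apply hb0
      rw [hbe, h0, mul_zero]
    have hsol : Sol H α β z := by
      refine ⟨ha, hF0, ?_, ?_, ?_⟩
      · rw [hbe, abs_mul, abs_of_pos hαβ] at hb
        exact hb
      · show w.1 ^ 3 ≠ 27 * ((α : ℤ) * β * F α β z)
        rw [← hbe]
        exact hab
      · show 36 * (H : ℤ) ^ 3 < |(α : ℤ) * β * u * v|
        rw [← hxe]
        exact hsm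
    have hne : 1 < α * β := by
      rcases Nat.lt_or_ge 1 (α * β) with h1 | h1
      · exact h1
      · exfalso
        have h2 : α * β = 1 := le_antisymm h1 (Nat.mul_pos hα hβ)
        have hα1 : α = 1 := Nat.eq_one_of_mul_eq_one_right h2
        have hβ1 : β = 1 := Nat.eq_one_of_mul_eq_one_left h2
        subst hα1
        subst hβ1
        exact class_one hH z hsol
    obtain ⟨p, q, hcl⟩ := cl_exists α β hα hβ sα sβ cop hne
    obtain ⟨e1, -, -, -, -, e2⟩ := size hcl hH z hsol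
    have hH3 : (1 : ℝ) ≤ (H : ℝ) ^ 3 := one_le_pow₀ hH1
    have hS2 : 144 ≤ sS p q z ^ 2 := by linarith
    have hxz : ((α : ℤ) * β * z.2.1 * z.2.2 : ℤ) = x := hxe.symm
    -- size of S
    have hlog : Real.log |sS p q z| ≤ Real.exp ((H : ℝ) ^ (1 / 10 : ℝ) + 2) := by
      set t := (H : ℝ) ^ (1 / 10 : ℝ) with ht
      have ht1 : 1 ≤ t := Real.one_le_rpow hH1 (by norm_num)
      have h4 : sS p q z ^ 2 / 4 ≤ (x : ℝ) + (H : ℝ) ^ 2 := by
        rw [hxz] at e2
        exact e2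
      have h5 : (36 : ℝ) * (H : ℝ) ^ 3 < |(x : ℝ)| := by exact_mod_cast hsm
      have h6 : (H : ℝ) ^ 2 ≤ (H : ℝ) ^ 3 := pow_le_pow_right₀ hH1 (by norm_num)
      have h7 : sS p q z ^ 2 ≤ 8 * |(x : ℝ)| := by
        have := le_abs_self (x : ℝ)
        nlinarith
      have h8 : sS p q z ^ 2 ≤ 8 * Real.exp (Real.exp t) := by
        refine h7.trans (mul_le_mul_of_nonneg_left ?_ (by norm_num))
        exact hxle
      have h9 : 2 * Real.log |sS p q z| ≤ Real.log 8 + Real.exp t := by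
        have h10 : Real.log (sS p q z ^ 2) ≤ Real.log (8 * Real.exp (Real.exp t)) :=
          Real.log_le_log (by linarith) h8
        rw [Real.log_mul (by norm_num) (Real.exp_ne_zero _), Real.log_exp, ← sq_abs,
          Real.log_pow] at h10
        push_cast at h10
        exact h10
      have h11 : Real.log 8 ≤ 3 := by
        have h12 : Real.log 8 = 3 * Real.log 2 := by
          have : (8 : ℝ) = 2 ^ 3 := by norm_num
          rw [this, Real.log_pow]
          norm_num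
        rw [h12]
        have := Real.log_two_lt_d9
        linarith
      have h13 : t + 1 ≤ Real.exp t := Real.add_one_le_exp t
      have h14 : Real.exp t * 3 ≤ Real.exp (t + 2) := by
        rw [Real.exp_add]
        apply mul_le_mul_of_nonneg_left _ (Real.exp_pos t).le
        have := Real.add_one_le_exp (2 : ℝ)
        linarith
      linarith
    rcases lt_trichotomy (sS p q z) 0 with hneg | hzero | hpos
    · -- negative
      obtain ⟨hsol', hF', hSn⟩ := sol_neg z hsol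
      have hb' : (-w).2 = (α : ℤ) * β * F α β (-z) := by
        rw [hF', Prod.snd_neg, hbe]
        ring
      have ha' : (-z).1 = (-w).1 := by
        rw [Prod.fst_neg, Prod.fst_neg]
      by_cases hcase : sS p q (-z) < 10 ^ 7 * (H : ℝ) ^ 20
      · left; right
        refine ⟨hw, α, β, p, q, -z, hcl, hsol', ha', hb', ?_, hcase⟩
        rw [hSn]
        linarith
      · right
        refine ⟨hw, α, β, p, q, -z, hcl, hsol', ha', hb', not_lt.1 hcase, ?_⟩
        rw [hSn, ← abs_of_neg hneg]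
        exact hlog
    · exfalso
      rw [hzero] at hS2
      norm_num at hS2
    · by_cases hcase : sS p q z < 10 ^ 7 * (H : ℝ) ^ 20
      · left; left; left; right
        exact ⟨hw, α, β, p, q, z, hcl, hsol, rfl, hbe, hpos, hcase⟩
      · left; left; right
        refine ⟨hw, α, β, p, q, z, hcl, hsol, rfl, hbe, not_lt.1 hcase, ?_⟩
        rw [← abs_of_pos hpos]
        exact hlog
  have c0 : ((S.filter P0).card : ℝ) ≤ C₁ * (H : ℝ) ^ (37 / 10 : ℝ) := by
    refine (h₁ H hH (S.filter P0) ?_).trans ?_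
    · intro w hw
      rw [Finset.mem_filter] at hw
      obtain ⟨ha, hb, -⟩ := hS w hw.1
      exact ⟨ha, hb, hw.2⟩
    · apply mul_le_mul_of_nonneg_left _ hC₁.le
      exact Real.rpow_le_rpow_of_exponent_le hH1 (by norm_num)
  have c1 : ((S.filter Pm).card : ℝ) ≤ C₂ * (H : ℝ) ^ (37 / 10 : ℝ) :=
    h₂ H hH _ fun w hw => (Finset.mem_filter.1 hw).2
  have c2 : ((S.filter Pl).card : ℝ) ≤ C₃ * (H : ℝ) ^ (37 / 10 : ℝ) :=
    h₃ H hH _ fun w hw => (Finset.mem_filter.1 hw).2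
  have c3 : ((S.filter fun w => Pm (-w)).card : ℝ) ≤ C₂ * (H : ℝ) ^ (37 / 10 : ℝ) := by
    have h4 : ((S.filter fun w => Pm (-w)).image fun w => -w).card =
        (S.filter fun w => Pm (-w)).card :=
      Finset.card_image_of_injective _ neg_injective
    rw [← h4]
    refine h₂ H hH _ fun w hw => ?_
    rw [Finset.mem_image] at hw
    obtain ⟨w', hw', rfl⟩ := hw
    exact (Finset.mem_filter.1 hw').2
  have c4 : ((S.filter fun w => Pl (-w)).card : ℝ) ≤ C₃ * (H : ℝ) ^ (37 / 10 : ℝ) := by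
    have h4 : ((S.filter fun w => Pl (-w)).image fun w => -w).card =
        (S.filter fun w => Pl (-w)).card :=
      Finset.card_image_of_injective _ neg_injective
    rw [← h4]
    refine h₃ H hH _ fun w hw => ?_
    rw [Finset.mem_image] at hw
    obtain ⟨w', hw', rfl⟩ := hw
    exact (Finset.mem_filter.1 hw').2
  have hcard : S.card ≤ (S.filter P0).card + (S.filter Pm).card + (S.filter Pl).card +
      (S.filter fun w => Pm (-w)).card + (S.filter fun w => Pl (-w)).card := by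
    refine (Finset.card_le_card hcov).trans ?_
    refine (Finset.card_union_le _ _).trans (Nat.add_le_add_right ?_ _)
    refine (Finset.card_union_le _ _).trans (Nat.add_le_add_right ?_ _)
    refine (Finset.card_union_le _ _).trans (Nat.add_le_add_right ?_ _)
    exact Finset.card_union_le _ _
  have hcard' : (S.card : ℝ) ≤ (S.filter P0).card + (S.filter Pm).card + (S.filter Pl).card +
      (S.filter fun w => Pm (-w)).card + (S.filter fun w => Pl (-w)).card := by
    exact_mod_cast hcard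
  nlinarith

end T44
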