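import Mathlib

namespace T44

/-- Row W1a. Curves with a rational point of order three. If `y₀ = 0` then `(3x₀² + A)² = 0` (eliminate `B`), and
`4A³ + 27B² = 0`. `h3` and `h` give `(3x₀² + A)² = 12 x₀ y₀²`, so `3x₀ = ((3x₀²+A)/(2y₀))²` is the square of an integer `λ`
(`Int.sq_of_...`/`IsSquare` of an integer which is a rational square), `3 ∣ λ`, `λ = ± 3t` with the sign
`3x₀² + A = 6 t y₀`; `x₀ = 3t²`, `s = y₀ - 9t³`. -/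
theorem param3 (A B x₀ y₀ : ℤ) (h : y₀ ^ 2 = x₀ ^ 3 + A * x₀ + B)
    (h3 : 3 * x₀ ^ 4 + 6 * A * x₀ ^ 2 + 12 * B * x₀ - A ^ 2 = 0) (hD : 4 * A ^ 3 + 27 * B ^ 2 ≠ 0) :
    ∃ t s : ℤ, x₀ = 3 * t ^ 2 ∧ y₀ = s + 9 * t ^ 3 ∧ A = 27 * t ^ 4 + 6 * t * s ∧
      B = s ^ 2 - 27 * t ^ 6 := by
  have hy : y₀ ≠ 0 := by
    intro hy
    have h1 : (3 * x₀ ^ 2 + A) ^ 2 = 0 := by
      rw [hy] at h
      linear_combination (-1 : ℤ) * h3 - 12 * x₀ * h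
    have h2 : 3 * x₀ ^ 2 + A = 0 := by simpa using h1
    apply hD
    have hA : A = -(3 * x₀ ^ 2) := by linarith
    have hB : B = 2 * x₀ ^ 3 := by
      rw [hy, hA] at h
      linear_combination (-1 : ℤ) * h
    rw [hA, hB]
    ring
  have h1 : (3 * x₀ ^ 2 + A) ^ 2 = (2 * y₀) ^ 2 * (3 * x₀) := by
    linear_combination (-1 : ℤ) * h3 - 12 * x₀ * h
  have h2 : 2 * y₀ ∣ 3 * x₀ ^ 2 + A := by
    rw [← Int.pow_dvd_pow_iff (n := 2) two_ne_zero, h1]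
    exact dvd_mul_right _ _
  obtain ⟨l, hl⟩ := h2
  have h4 : l ^ 2 = 3 * x₀ := by
    have h5 : (2 * y₀) ^ 2 ≠ 0 := by positivity
    apply mul_left_cancel₀ h5
    rw [← h1, hl]
    ring
  have h5 : (3 : ℤ) ∣ l := by
    apply Int.Prime.dvd_pow' (k := 2) Nat.prime_three
    rw [h4]
    exact dvd_mul_right _ _
  obtain ⟨t, rfl⟩ := h5
  have hx : x₀ = 3 * t ^ 2 := by linarith
  have hA : A = 6 * t * y₀ - 27 * t ^ 4 := by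
    rw [hx] at hl
    linear_combination hl
  refine ⟨t, y₀ - 9 * t ^ 3, hx, by ring, ?_, ?_⟩
  · rw [hA]
    ring
  · rw [hx, hA] at h
    linear_combination (-1 : ℤ) * h

/-- Row W1b. Discriminant: `4A³ + 27B² = 27 y₀³ (y₀ - 4t³)`, `y₀ = s + 9t³` (`ring`; check), hence `b = 2y₀ ≠ 0` and
`a³ ≠ 27b` for `a = 6t`: `a³ - 27 b = 216t³ - 54y₀ = -54 (y₀ - 4t³)`. -/
theorem disc3 (t s : ℤ)
    (hD : 4 * (27 * t ^ 4 + 6 * t * s) ^ 3 + 27 * (s ^ 2 - 27 * t ^ 6) ^ 2 ≠ 0) :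
    2 * (s + 9 * t ^ 3) ≠ 0 ∧ (6 * t) ^ 3 ≠ 27 * (2 * (s + 9 * t ^ 3)) := by
  have h1 : 4 * (27 * t ^ 4 + 6 * t * s) ^ 3 + 27 * (s ^ 2 - 27 * t ^ 6) ^ 2 =
      27 * (s + 9 * t ^ 3) ^ 3 * (s + 5 * t ^ 3) := by ring
  rw [h1] at hD
  constructor
  · intro h
    apply hD
    have h2 : s + 9 * t ^ 3 = 0 := by linarith
    rw [h2]
    ring
  · intro h
    apply hD
    have h2 : s + 5 * t ^ 3 = 0 := by linarith
    rw [h2]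
    ring

/-- Row W1c. Points: with `x' = x - 3t²`, `y' = y - (3t x' + y₀)`: `y' (y' + 6t x' + 2y₀) = x'³`. -/
theorem point3 (t s x y : ℤ)
    (h : y ^ 2 = x ^ 3 + (27 * t ^ 4 + 6 * t * s) * x + (s ^ 2 - 27 * t ^ 6)) :
    (y - (3 * t * (x - 3 * t ^ 2) + (s + 9 * t ^ 3))) *
      ((y - (3 * t * (x - 3 * t ^ 2) + (s + 9 * t ^ 3))) + 6 * t * (x - 3 * t ^ 2) +
        2 * (s + 9 * t ^ 3)) = (x - 3 * t ^ 2) ^ 3 := by
  linear_combination h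

/-- Row W1d. `3t²` is a root of the division polynomial. -/
theorem div3 (t s : ℤ) : 3 * (3 * t ^ 2) ^ 4 + 6 * (27 * t ^ 4 + 6 * t * s) * (3 * t ^ 2) ^ 2 +
    12 * (s ^ 2 - 27 * t ^ 6) * (3 * t ^ 2) - (27 * t ^ 4 + 6 * t * s) ^ 2 = 0 := by
  ring

end T44
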