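import Pool.Agent.LibT44.W1

namespace T44

/-- Row W2. Sizes. `|A| ≤ X²`, `|B| ≤ X³`: a root `x₀` of `3x⁴ + 6Ax² + 12Bx - A²` has `|x₀| ≤ 4X` (if `|x₀| > 4X`:
`|6Ax₀² + 12Bx₀ - A²| ≤ (6/16 + 12/64 + 1/256) x₀⁴ < 3x₀⁴`), so `3t² ≤ 4X`, `36t² ≤ 48X`, and
`y₀² = x₀³ + Ax₀ + B ≤ 69X³`. For `H` with `49 X ≤ H²`: `|6t| ≤ H`, `|2y₀| ≤ H³`
(`4y₀² ≤ 276X³ ≤ 49³X³ ≤ H⁶`). -/
theorem size3 (X H : ℕ) (hX : 1 ≤ X) (hH : 49 * X ≤ H ^ 2) (t s : ℤ)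
    (hA : |27 * t ^ 4 + 6 * t * s| ≤ (X : ℤ) ^ 2) (hB : |s ^ 2 - 27 * t ^ 6| ≤ (X : ℤ) ^ 3) :
    |6 * t| ≤ (H : ℤ) ∧ |2 * (s + 9 * t ^ 3)| ≤ (H : ℤ) ^ 3 ∧ |3 * t ^ 2| ≤ 4 * (X : ℤ) := by
  have hdiv := div3 t s
  set A : ℤ := 27 * t ^ 4 + 6 * t * s with hAdef
  set B : ℤ := s ^ 2 - 27 * t ^ 6 with hBdef
  set x : ℤ := 3 * t ^ 2 with hx
  have hy : (s + 9 * t ^ 3) ^ 2 = x ^ 3 + A * x + B := by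
    rw [hAdef, hBdef, hx]
    ring
  have hx0 : 0 ≤ x := by positivity
  obtain ⟨hA1, hA2⟩ := abs_le.1 hA
  obtain ⟨hB1, hB2⟩ := abs_le.1 hB
  have hX0 : (1 : ℤ) ≤ (X : ℤ) := by exact_mod_cast hX
  have hHX : 49 * (X : ℤ) ≤ (H : ℤ) ^ 2 := by exact_mod_cast hH
  have hxX : x ≤ 4 * (X : ℤ) := by
    by_contra hc
    have hc' : 4 * (X : ℤ) < x := not_le.1 hc
    have h1 : -(A * x ^ 2) ≤ (X : ℤ) ^ 2 * x ^ 2 := by nlinarith [sq_nonneg x]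
    have h2 : -(B * x) ≤ (X : ℤ) ^ 3 * x := by nlinarith
    have h3 : A ^ 2 ≤ (X : ℤ) ^ 4 := by
      have := sq_le_sq' hA1 hA2
      calc A ^ 2 ≤ ((X : ℤ) ^ 2) ^ 2 := this
        _ = (X : ℤ) ^ 4 := by ring
    have h4 : (4 * (X : ℤ)) ^ 2 ≤ x ^ 2 := pow_le_pow_left₀ (by positivity) hc'.le 2
    have h5 : (4 * (X : ℤ)) ^ 3 ≤ x ^ 3 := pow_le_pow_left₀ (by positivity) hc'.le 3
    have h6 : (4 * (X : ℤ)) ^ 4 ≤ x ^ 4 := pow_le_pow_left₀ (by positivity) hc'.le 4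
    have h7 : 16 * ((X : ℤ) ^ 2 * x ^ 2) ≤ x ^ 4 := by
      have := mul_le_mul_of_nonneg_right h4 (sq_nonneg x)
      nlinarith [this]
    have h8 : 64 * ((X : ℤ) ^ 3 * x) ≤ x ^ 4 := by
      have := mul_le_mul_of_nonneg_right h5 hx0
      nlinarith [this]
    have h9 : 0 < x ^ 4 := by
      have : 0 < x := by linarith
      positivity
    nlinarith [h1, h2, h3, h7, h8, h6, h9, hdiv]
  have hy2 : (s + 9 * t ^ 3) ^ 2 ≤ 69 * (X : ℤ) ^ 3 := by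
    rw [hy]
    have h1 : x ^ 3 ≤ (4 * (X : ℤ)) ^ 3 := pow_le_pow_left₀ hx0 hxX 3
    have h2 : A * x ≤ (X : ℤ) ^ 2 * (4 * (X : ℤ)) := by
      calc A * x ≤ (X : ℤ) ^ 2 * x := mul_le_mul_of_nonneg_right hA2 hx0
        _ ≤ (X : ℤ) ^ 2 * (4 * (X : ℤ)) := mul_le_mul_of_nonneg_left hxX (by positivity)
    calc x ^ 3 + A * x + B ≤ (4 * (X : ℤ)) ^ 3 + (X : ℤ) ^ 2 * (4 * (X : ℤ)) + (X : ℤ) ^ 3 := by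
          linarith
      _ = 69 * (X : ℤ) ^ 3 := by ring
  have hH0 : (0 : ℤ) ≤ (H : ℤ) := by positivity
  refine ⟨?_, ?_, ?_⟩
  · apply abs_le_of_sq_le_sq _ hH0
    calc (6 * t) ^ 2 = 12 * x := by rw [hx]; ring
      _ ≤ 49 * (X : ℤ) := by linarith
      _ ≤ (H : ℤ) ^ 2 := hHX
  · apply abs_le_of_sq_le_sq _ (by positivity)
    have h1 : (49 * (X : ℤ)) ^ 3 ≤ ((H : ℤ) ^ 2) ^ 3 := pow_le_pow_left₀ (by positivity) hHX 3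
    have h2 : (0 : ℤ) ≤ (X : ℤ) ^ 3 := by positivity
    calc (2 * (s + 9 * t ^ 3)) ^ 2 = 4 * (s + 9 * t ^ 3) ^ 2 := by ring
      _ ≤ (49 * (X : ℤ)) ^ 3 := by nlinarith
      _ ≤ ((H : ℤ) ^ 2) ^ 3 := h1
      _ = ((H : ℤ) ^ 3) ^ 2 := by ring
  · rw [abs_of_nonneg hx0]
    exact hxX

end T44
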