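import Pool.Agent.LibT44.W1

namespace T44

/-- the pairs `(A, B)`, `|A| ≤ X²`, `|B| ≤ X³`, `4A³ + 27B² ≠ 0`, for which `y² = x³ + A x + B` has an integral
point `(x, y)` of order three (zero of the third division polynomial) -/
def Fam (X : ℕ) : Set (ℤ × ℤ) :=
  {z | |z.1| ≤ (X : ℤ) ^ 2 ∧ |z.2| ≤ (X : ℤ) ^ 3 ∧ 4 * z.1 ^ 3 + 27 * z.2 ^ 2 ≠ 0 ∧
    ∃ x y : ℤ, y ^ 2 = x ^ 3 + z.1 * x + z.2 ∧
      3 * x ^ 4 + 6 * z.1 * x ^ 2 + 12 * z.2 * x - z.1 ^ 2 = 0}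

/-- `Fam X` is finite (subset of a box) -/
theorem fam_finite (X : ℕ) : (Fam X).Finite := by
  refine Set.Finite.subset (s := Set.Icc (-(X : ℤ) ^ 2) ((X : ℤ) ^ 2) ×ˢ
    Set.Icc (-(X : ℤ) ^ 3) ((X : ℤ) ^ 3)) ?_ ?_
  · exact (Set.finite_Icc _ _).prod (Set.finite_Icc _ _)
  · rintro ⟨A, B⟩ ⟨h1, h2, -, -⟩
    exact ⟨abs_le.1 h1, abs_le.1 h2⟩

/-- the pair with parameters `(t, s)` -/
def w3_f (z : ℤ × ℤ) : ℤ × ℤ := (27 * z.1 ^ 4 + 6 * z.1 * z.2, z.2 ^ 2 - 27 * z.1 ^ 6)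

theorem w3_mem (X T : ℕ) (hT : 16 * T ^ 2 ≤ X) (t s : ℤ) (ht : 1 ≤ t) (htT : t ≤ T) (hs : 1 ≤ s)
    (hsT : s ≤ (X : ℤ) * T) : w3_f (t, s) ∈ Fam X := by
  have hTz : 16 * (T : ℤ) ^ 2 ≤ X := by exact_mod_cast hT
  have hT0 : (0 : ℤ) ≤ T := Int.natCast_nonneg T
  have hX0 : (0 : ℤ) ≤ X := Int.natCast_nonneg X
  have ht0 : 0 ≤ t := by linarith
  have hs0 : 0 ≤ s := by linarith
  have ht2 : t ^ 2 ≤ (T : ℤ) ^ 2 := pow_le_pow_left₀ ht0 htT 2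
  have h16 : 16 * t ^ 2 ≤ X := by linarith
  have hx2 : (16 * t ^ 2) ^ 2 ≤ (X : ℤ) ^ 2 := pow_le_pow_left₀ (by positivity) h16 2
  have hx3 : (16 * t ^ 2) ^ 3 ≤ (X : ℤ) ^ 3 := pow_le_pow_left₀ (by positivity) h16 3
  have hts : t * s ≤ (T : ℤ) * (X * T) := mul_le_mul htT hsT hs0 hT0
  have hts2 : 16 * (t * s) ≤ (X : ℤ) ^ 2 := by nlinarith
  have hss : s ^ 2 ≤ ((X : ℤ) * T) ^ 2 := pow_le_pow_left₀ hs0 hsT 2
  have hss2 : 16 * s ^ 2 ≤ (X : ℤ) ^ 3 := by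
    have h1 : 16 * ((X : ℤ) * T) ^ 2 = (X : ℤ) ^ 2 * (16 * (T : ℤ) ^ 2) := by ring
    have h2 : (X : ℤ) ^ 2 * (16 * (T : ℤ) ^ 2) ≤ (X : ℤ) ^ 2 * X :=
      mul_le_mul_of_nonneg_left hTz (by positivity)
    have h3 : (X : ℤ) ^ 2 * X = (X : ℤ) ^ 3 := by ring
    linarith
  unfold w3_f
  refine ⟨?_, ?_, ?_, 3 * t ^ 2, s + 9 * t ^ 3, ?_, div3 t s⟩
  · show |27 * t ^ 4 + 6 * t * s| ≤ (X : ℤ) ^ 2
    rw [abs_le]
    have h1 : 0 ≤ t ^ 4 := by positivity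
    have h2 : 0 ≤ t * s := mul_nonneg ht0 hs0
    have h3 : 256 * t ^ 4 ≤ (X : ℤ) ^ 2 := by nlinarith
    constructor <;> nlinarith
  · show |s ^ 2 - 27 * t ^ 6| ≤ (X : ℤ) ^ 3
    rw [abs_le]
    have h1 : 0 ≤ t ^ 6 := by positivity
    have h2 : 0 ≤ s ^ 2 := by positivity
    have h3 : 4096 * t ^ 6 ≤ (X : ℤ) ^ 3 := by nlinarith
    constructor <;> nlinarith
  · show 4 * (27 * t ^ 4 + 6 * t * s) ^ 3 + 27 * (s ^ 2 - 27 * t ^ 6) ^ 2 ≠ 0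
    have e : 4 * (27 * t ^ 4 + 6 * t * s) ^ 3 + 27 * (s ^ 2 - 27 * t ^ 6) ^ 2 =
        27 * (s + 9 * t ^ 3) ^ 3 * (s + 5 * t ^ 3) := by ring
    rw [e]
    have h1 : 0 < t ^ 3 := by positivity
    have h2 : 0 < s + 9 * t ^ 3 := by linarith
    have h3 : 0 < s + 5 * t ^ 3 := by linarith
    positivity
  · show (s + 9 * t ^ 3) ^ 2 = (3 * t ^ 2) ^ 3 + (27 * t ^ 4 + 6 * t * s) * (3 * t ^ 2) +
      (s ^ 2 - 27 * t ^ 6)
    ring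

theorem w3_inj {t s t' s' : ℤ} (ht : 1 ≤ t) (hs : 1 ≤ s) (ht' : 1 ≤ t') (_hs' : 1 ≤ s')
    (h : w3_f (t, s) = w3_f (t', s')) : t = t' ∧ s = s' := by
  unfold w3_f at h
  have hA : 27 * t ^ 4 + 6 * t * s = 27 * t' ^ 4 + 6 * t' * s' := congrArg Prod.fst h
  have hB : s ^ 2 - 27 * t ^ 6 = s' ^ 2 - 27 * t' ^ 6 := congrArg Prod.snd h
  have d1 := div3 t s
  have d2 := div3 t' s'
  rw [← hA, ← hB] at d2
  obtain ⟨A, hAd⟩ : ∃ A, A = 27 * t ^ 4 + 6 * t * s := ⟨_, rfl⟩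
  obtain ⟨B, hBd⟩ : ∃ B, B = s ^ 2 - 27 * t ^ 6 := ⟨_, rfl⟩
  rw [← hAd, ← hBd] at d1 d2
  have hApos : 0 < A := by
    rw [hAd]
    positivity
  obtain ⟨x, hx⟩ : ∃ x, x = 3 * t ^ 2 := ⟨_, rfl⟩
  obtain ⟨x', hx'⟩ : ∃ x', x' = 3 * t' ^ 2 := ⟨_, rfl⟩
  rw [← hx] at d1
  rw [← hx'] at d2
  have hxp : 0 < x := by rw [hx]; positivity
  have hxp' : 0 < x' := by rw [hx']; positivity
  have hprod : (x - x') * (3 * x * x' * (x ^ 2 + x * x' + x' ^ 2) + 6 * A * (x * x') + A ^ 2) = 0 := by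
    linear_combination x' * d1 - x * d2
  have hpos : 0 < 3 * x * x' * (x ^ 2 + x * x' + x' ^ 2) + 6 * A * (x * x') + A ^ 2 := by positivity
  have hxx : x = x' := by
    rcases mul_eq_zero.1 hprod with h1 | h1
    · linarith
    · exact absurd h1 hpos.ne'
  have htt : t = t' := by
    have h1 : t ^ 2 = t' ^ 2 := by linarith
    have h2 : (t - t') * (t + t') = 0 := by linear_combination h1
    rcases mul_eq_zero.1 h2 with h3 | h3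
    · linarith
    · linarith
  refine ⟨htt, ?_⟩
  rw [← htt] at hA
  have h1 : 6 * t * (s - s') = 0 := by linear_combination hA
  have h2 : 6 * t ≠ 0 := by
    intro h3
    linarith
  have h3 := (mul_eq_zero.1 h1).resolve_left h2
  linarith

/-- Row W3. Lower bound. `(0, 1) ∈ Fam X` for `X ≥ 1` (point `(0,1)`), so `X < 16` is fine. `X ≥ 16`: for integers
`1 ≤ t ≤ √X/4`, `1 ≤ s ≤ X^(3/2)/4` the pair `(27t⁴ + 6ts, s² - 27t⁶)` is in `Fam X` (`div3`, point `(3t², s + 9t³)`,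
discriminant `27y₀³(y₀ - 4t³) > 0`; `27/256 + 6/16 ≤ 1`). Injective: `A > 0`, and `x = 3t² > 0` satisfies
`3x³ + 6Ax + 12B = A²/x`, left side strictly increasing, right side strictly decreasing, so `t` is determined by
`(A, B)`, then `s` by `A`. Number `≥ ⌊√X/4⌋ ⌊X^(3/2)/4⌋ ≥ c X²`. -/
theorem fam_lower : ∃ c : ℝ, 0 < c ∧ ∀ X : ℕ, 1 ≤ X → c * (X : ℝ) ^ 2 ≤ ((Fam X).ncard : ℝ) := by
  refine ⟨1 / 256, by norm_num, fun X hX => ?_⟩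
  by_cases hX16 : X < 16
  · have h1 : ((0, 1) : ℤ × ℤ) ∈ Fam X := by
      refine ⟨by simp, ?_, by norm_num, 0, 1, by norm_num, by norm_num⟩
      show |(1 : ℤ)| ≤ (X : ℤ) ^ 3
      rw [abs_one]
      exact one_le_pow₀ (by exact_mod_cast hX)
    have h2 : 1 ≤ (Fam X).ncard := (Set.ncard_pos (fam_finite X)).2 ⟨_, h1⟩
    have h3 : (1 : ℝ) ≤ ((Fam X).ncard : ℝ) := by exact_mod_cast h2
    have h4 : (X : ℝ) ≤ 16 := by exact_mod_cast hX16.le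
    have h5 : (0 : ℝ) ≤ X := Nat.cast_nonneg X
    nlinarith
  · have hX' : 16 ≤ X := not_lt.1 hX16
    obtain ⟨T, hTd⟩ : ∃ T, T = Nat.sqrt X / 4 := ⟨_, rfl⟩
    have hsq : 4 ≤ Nat.sqrt X := Nat.le_sqrt.2 (by omega)
    have hT1 : 1 ≤ T := by omega
    have h4T : 4 * T ≤ Nat.sqrt X := by omega
    have hT : 16 * T ^ 2 ≤ X := by
      have h1 : (4 * T) * (4 * T) ≤ X := Nat.le_sqrt.1 h4T
      nlinarith
    have hlow : X ≤ 64 * T ^ 2 := by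
      have h1 : X < (Nat.sqrt X + 1) * (Nat.sqrt X + 1) := Nat.lt_succ_sqrt X
      have h2 : Nat.sqrt X + 1 ≤ 8 * T := by omega
      have h3 : (Nat.sqrt X + 1) * (Nat.sqrt X + 1) ≤ (8 * T) * (8 * T) := Nat.mul_le_mul h2 h2
      nlinarith
    obtain ⟨U, hU⟩ : ∃ U : Finset (ℤ × ℤ), U =
      (Finset.Icc (1 : ℤ) T ×ˢ Finset.Icc (1 : ℤ) ((X : ℤ) * T)).image w3_f := ⟨_, rfl⟩
    have hsub : (U : Set (ℤ × ℤ)) ⊆ Fam X := by
      intro z hz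
      rw [hU, Finset.mem_coe, Finset.mem_image] at hz
      obtain ⟨⟨t, s⟩, hts, rfl⟩ := hz
      rw [Finset.mem_product, Finset.mem_Icc, Finset.mem_Icc] at hts
      exact w3_mem X T hT t s hts.1.1 hts.1.2 hts.2.1 hts.2.2
    have hcard : U.card = T * (X * T) := by
      rw [hU, Finset.card_image_of_injOn, Finset.card_product, Int.card_Icc, Int.card_Icc]
      · have e1 : ((T : ℤ) + 1 - 1).toNat = T := by simp
        have e2 : ((X : ℤ) * T + 1 - 1).toNat = X * T := by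
          have : (X : ℤ) * T + 1 - 1 = ((X * T : ℕ) : ℤ) := by push_cast; ring
          rw [this, Int.toNat_natCast]
        rw [e1, e2]
      · rintro ⟨t, s⟩ hts ⟨t', s'⟩ hts' h
        rw [Finset.mem_coe, Finset.mem_product, Finset.mem_Icc, Finset.mem_Icc] at hts hts'
        obtain ⟨h1, h2⟩ := w3_inj hts.1.1 hts.2.1 hts'.1.1 hts'.2.1 h
        exact Prod.ext h1 h2
    have h1 : U.card ≤ (Fam X).ncard := by
      rw [← Set.ncard_coe_finset]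
      exact Set.ncard_le_ncard hsub (fam_finite X)
    rw [hcard] at h1
    have h2 : ((T * (X * T) : ℕ) : ℝ) ≤ ((Fam X).ncard : ℝ) := by exact_mod_cast h1
    push_cast at h2
    have h3 : (X : ℝ) ≤ 64 * (T : ℝ) ^ 2 := by exact_mod_cast hlow
    have h4 : (0 : ℝ) ≤ X := Nat.cast_nonneg X
    nlinarith [mul_le_mul_of_nonneg_left h3 h4, mul_nonneg h4 (sq_nonneg (T : ℝ))]

end T44
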