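import Pool.Agent.LibT44.H3
import Pool.Agent.LibT44.W2
import Pool.Agent.LibT44.W3

namespace T44

/-- the members of `Fam X` with an integral point, not of order three, `|x| ≤ exp (exp (X^(1/20)))` -/
def Exc (X : ℕ) : Set (ℤ × ℤ) :=
  {z | z ∈ Fam X ∧ ∃ x y : ℤ, y ^ 2 = x ^ 3 + z.1 * x + z.2 ∧
    3 * x ^ 4 + 6 * z.1 * x ^ 2 + 12 * z.2 * x - z.1 ^ 2 ≠ 0 ∧
    (|x| : ℝ) ≤ Real.exp (Real.exp ((X : ℝ) ^ (1 / 20 : ℝ)))}

theorem w4_exp : ∃ X₀ : ℕ, 1 ≤ X₀ ∧ ∀ X : ℕ, X₀ ≤ X → ∀ h : ℝ, 7 * √(X : ℝ) ≤ h →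
    Real.exp (Real.exp ((X : ℝ) ^ (1 / 20 : ℝ))) + 4 * X ≤
      Real.exp (Real.exp (h ^ (1 / 10 : ℝ))) := by
  obtain ⟨a, ha⟩ := Filter.eventually_atTop.1
    ((Real.tendsto_exp_div_pow_atTop 19).eventually_ge_atTop 20)
  obtain ⟨b, hb⟩ : ∃ b, b = max a 1 := ⟨_, rfl⟩
  have hb1 : 1 ≤ b := hb ▸ le_max_right _ _
  have hab : a ≤ b := hb ▸ le_max_left _ _
  refine ⟨max 1 ⌈b ^ 20⌉₊, le_max_left _ _, ?_⟩
  intro X hX h hh
  have hX1 : 1 ≤ X := (le_max_left _ _).trans hX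
  have hX2 : b ^ 20 ≤ (X : ℝ) := (Nat.le_ceil _).trans (by exact_mod_cast (le_max_right _ _).trans hX)
  have hX1' : (1:ℝ) ≤ X := by exact_mod_cast hX1
  obtain ⟨u, hu⟩ : ∃ u, u = (X : ℝ) ^ (1 / 20 : ℝ) := ⟨_, rfl⟩
  have hub : b ≤ u := by
    have h1 : (b ^ 20) ^ (1 / 20 : ℝ) ≤ (X : ℝ) ^ (1 / 20 : ℝ) :=
      Real.rpow_le_rpow (by positivity) hX2 (by norm_num)
    rw [← Real.rpow_natCast, ← Real.rpow_mul (by linarith)] at h1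
    norm_num at h1
    rw [hu]
    norm_num
    exact h1
  have hu1 : 1 ≤ u := hb1.trans hub
  have hXu : (X : ℝ) = u ^ 20 := by
    rw [hu, ← Real.rpow_natCast, ← Real.rpow_mul (by linarith)]
    norm_num
  have hexp : 20 * u ^ 19 ≤ Real.exp u := by
    have := ha u (hab.trans hub)
    rwa [le_div_iff₀ (by positivity)] at this
  have hh' : 1.2 * u ≤ h ^ (1 / 10 : ℝ) := by
    have h1 : (7 * √(X : ℝ)) ^ (1 / 10 : ℝ) ≤ h ^ (1 / 10 : ℝ) :=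
      Real.rpow_le_rpow (by positivity) hh (by norm_num)
    rw [Real.mul_rpow (by norm_num) (Real.sqrt_nonneg _), Real.sqrt_eq_rpow,
      ← Real.rpow_mul (by linarith)] at h1
    have h2 : ((X : ℝ) ^ ((1 / 2 : ℝ) * (1 / 10))) = u := by rw [hu]; norm_num
    rw [h2] at h1
    have h3 : (1.2 : ℝ) ≤ 7 ^ (1 / 10 : ℝ) := by
      have h4 : ((1.2 : ℝ) ^ (10:ℕ)) ^ (1 / 10 : ℝ) ≤ 7 ^ (1 / 10 : ℝ) :=
        Real.rpow_le_rpow (by positivity) (by norm_num) (by norm_num)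
      rw [← Real.rpow_natCast, ← Real.rpow_mul (by norm_num)] at h4
      norm_num at h4
      norm_num
      exact h4
    calc 1.2 * u ≤ 7 ^ (1 / 10 : ℝ) * u := mul_le_mul_of_nonneg_right h3 (by linarith)
      _ ≤ h ^ (1 / 10 : ℝ) := h1
  rw [← hu]
  obtain ⟨e, he⟩ : ∃ e, e = Real.exp u := ⟨_, rfl⟩
  have he1 : 1 ≤ e := by rw [he]; exact Real.one_le_exp (by linarith)
  have k1 : e + 0.2 * u * e ≤ Real.exp (h ^ (1 / 10 : ℝ)) := by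
    have h1 : Real.exp (1.2 * u) ≤ Real.exp (h ^ (1 / 10 : ℝ)) := Real.exp_le_exp.2 hh'
    have h2 : Real.exp (1.2 * u) = e * Real.exp (0.2 * u) := by
      rw [he, ← Real.exp_add]; ring_nf
    have h3 := Real.add_one_le_exp (0.2 * u)
    rw [h2] at h1
    nlinarith
  have k2 : Real.exp e + 0.2 * u * e * Real.exp e ≤ Real.exp (Real.exp (h ^ (1 / 10 : ℝ))) := by
    have h1 : Real.exp (e + 0.2 * u * e) ≤ Real.exp (Real.exp (h ^ (1 / 10 : ℝ))) :=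
      Real.exp_le_exp.2 k1
    rw [Real.exp_add] at h1
    have h3 := Real.add_one_le_exp (0.2 * u * e)
    have h4 := Real.exp_pos e
    nlinarith
  have k3 : 1 ≤ Real.exp e := Real.one_le_exp (by linarith)
  have k4 : 4 * (X : ℝ) ≤ 0.2 * u * e * Real.exp e := by
    rw [hXu]
    rw [← he] at hexp
    calc 4 * u ^ 20 = 0.2 * u * (20 * u ^ 19) := by ring
      _ ≤ 0.2 * u * e := mul_le_mul_of_nonneg_left hexp (by positivity)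
      _ = 0.2 * u * e * 1 := by ring
      _ ≤ 0.2 * u * e * Real.exp e := mul_le_mul_of_nonneg_left k3 (by positivity)
  rw [← he]
  linarith

/-- Row W4a. Upper bound for large `X`. `H = ⌈7 √X⌉₊` (`49X ≤ H²`, `H ≤ 8√X`). For `(A, B) ∈ Exc X`: `param3` gives `t, s`; put
`a = 6t`, `b = 2(s + 9t³)` (`disc3`, `size3`); the exceptional point has `x ≠ 3t²` (`div3`), `x' = x - 3t² ≠ 0`, `point3`,
`|x'| ≤ exp(exp(X^(1/20))) + 4X ≤ exp(exp(H^(1/10)))` for `X ≥ X₀` (`H^(1/10) ≥ 7^(1/10) X^(1/20)`, `7^(1/10) > 1.2`). `(A, B) ↦ (a, b)` is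
injective (`(a,b)` determines `t, s`). `ab_count`: `≤ C (8√X)^(37/10)`. `Exc X` is finite (`fam_finite`), `Set.ncard`. -/
theorem exc_large : ∃ C : ℝ, 0 < C ∧ ∃ X₀ : ℕ, ∀ X : ℕ, X₀ ≤ X →
    ((Exc X).ncard : ℝ) ≤ C * (X : ℝ) ^ (37 / 20 : ℝ) := by
  obtain ⟨C, hC, hcount⟩ := ab_count
  obtain ⟨X₀, hX₀, hexp⟩ := w4_exp
  refine ⟨C * 8 ^ (37 / 10 : ℝ), by positivity, X₀, ?_⟩
  intro X hX
  have hX1 : 1 ≤ X := hX₀.trans hX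
  have hX1' : (1:ℝ) ≤ X := by exact_mod_cast hX1
  have hs1 : 1 ≤ √(X : ℝ) := Real.one_le_sqrt.2 hX1'
  have hs2 : √(X : ℝ) ^ 2 = X := Real.sq_sqrt (by linarith)
  obtain ⟨H, hH⟩ : ∃ H, H = ⌈7 * √(X : ℝ)⌉₊ := ⟨_, rfl⟩
  have hH1 : 7 * √(X : ℝ) ≤ H := hH ▸ Nat.le_ceil _
  have hH2 : (H : ℝ) ≤ 8 * √(X : ℝ) := by
    have := (Nat.ceil_lt_add_one (by positivity : 0 ≤ 7 * √(X : ℝ))).le
    rw [← hH] at this
    linarith
  have hH3 : 1 ≤ H := by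
    have : (1:ℝ) ≤ H := by linarith
    exact_mod_cast this
  have hH4 : 49 * X ≤ H ^ 2 := by
    have : (49:ℝ) * X ≤ (H : ℝ) ^ 2 := by nlinarith
    exact_mod_cast this
  have hfin : (Exc X).Finite := (fam_finite X).subset (fun z hz => hz.1)
  have hkey : ∀ z ∈ Exc X, ∃ t s : ℤ, z.1 = 27 * t ^ 4 + 6 * t * s ∧ z.2 = s ^ 2 - 27 * t ^ 6 ∧
      |6 * t| ≤ (H : ℤ) ∧ |2 * (s + 9 * t ^ 3)| ≤ (H : ℤ) ^ 3 ∧ 2 * (s + 9 * t ^ 3) ≠ 0 ∧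
      (6 * t) ^ 3 ≠ 27 * (2 * (s + 9 * t ^ 3)) ∧
      ∃ x y : ℤ, x ≠ 0 ∧ (|x| : ℝ) ≤ Real.exp (Real.exp ((H : ℝ) ^ (1 / 10 : ℝ))) ∧
        y * (y + 6 * t * x + 2 * (s + 9 * t ^ 3)) = x ^ 3 := by
    rintro ⟨A, B⟩ ⟨⟨hA, hB, hD, x₀, y₀, h1, h2⟩, x, y, h3, h4, h5⟩
    simp only at hA hB hD h1 h2 h3 h4
    obtain ⟨t, s, -, -, eA, eB⟩ := param3 A B x₀ y₀ h1 h2 hD
    subst eA eB
    obtain ⟨d1, d2⟩ := disc3 t s hD
    obtain ⟨z1, z2, z3⟩ := size3 X H hX1 hH4 t s hA hB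
    refine ⟨t, s, rfl, rfl, z1, z2, d1, d2, x - 3 * t ^ 2, _, ?_, ?_, point3 t s x y h3⟩
    · intro h0
      have hx : x = 3 * t ^ 2 := by linarith
      rw [hx] at h4
      exact h4 (div3 t s)
    · have h6 := hexp X hX H hH1
      have h7 : |(x : ℝ) - 3 * (t : ℝ) ^ 2| ≤ |(x : ℝ)| + |3 * (t : ℝ) ^ 2| := by
        have := abs_add_le (x : ℝ) (-(3 * (t : ℝ) ^ 2))
        rw [abs_neg, ← sub_eq_add_neg] at this
        exact this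
      have h8 : ((|3 * t ^ 2| : ℤ) : ℝ) ≤ ((4 * (X : ℤ) : ℤ) : ℝ) := by exact_mod_cast z3
      push_cast at h8 ⊢
      linarith
  choose! t s hz1 hz2 hz3 hz4 hz5 hz6 hz7 using hkey
  obtain ⟨φ, hφ⟩ : ∃ φ : ℤ × ℤ → ℤ × ℤ, φ = fun z => (6 * t z, 2 * (s z + 9 * t z ^ 3)) := ⟨_, rfl⟩
  have hinj : Set.InjOn φ (hfin.toFinset : Set (ℤ × ℤ)) := by
    intro z hz z' hz' e
    have hz := hfin.mem_toFinset.1 (Finset.mem_coe.1 hz)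
    have hz' := hfin.mem_toFinset.1 (Finset.mem_coe.1 hz')
    simp only [hφ, Prod.mk.injEq] at e
    have e1 : t z = t z' := by linarith [e.1]
    have e2 : s z = s z' := by
      have := e.2
      rw [e1] at this
      linarith
    refine Prod.ext ?_ ?_
    · rw [hz1 z hz, hz1 z' hz', e1, e2]
    · rw [hz2 z hz, hz2 z' hz', e1, e2]
  have h1 := hcount H hH3 (hfin.toFinset.image φ) (by
    intro w hw
    obtain ⟨z, hz, rfl⟩ := Finset.mem_image.1 hw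
    have hz := hfin.mem_toFinset.1 hz
    rw [hφ]
    exact ⟨hz3 z hz, hz4 z hz, hz5 z hz, hz6 z hz, hz7 z hz⟩)
  rw [Finset.card_image_of_injOn hinj, ← Set.ncard_eq_toFinset_card _ hfin] at h1
  have h2 : (H : ℝ) ^ (37 / 10 : ℝ) ≤ 8 ^ (37 / 10 : ℝ) * (X : ℝ) ^ (37 / 20 : ℝ) := by
    have h3 : (H : ℝ) ^ (37 / 10 : ℝ) ≤ (8 * √(X : ℝ)) ^ (37 / 10 : ℝ) :=
      Real.rpow_le_rpow (by positivity) hH2 (by norm_num)
    rw [Real.mul_rpow (by norm_num) (Real.sqrt_nonneg _), Real.sqrt_eq_rpow,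
      ← Real.rpow_mul (by linarith)] at h3
    norm_num at h3 ⊢
    exact h3
  calc ((Exc X).ncard : ℝ) ≤ C * (H : ℝ) ^ (37 / 10 : ℝ) := h1
    _ ≤ C * (8 ^ (37 / 10 : ℝ) * (X : ℝ) ^ (37 / 20 : ℝ)) := mul_le_mul_of_nonneg_left h2 hC.le
    _ = C * 8 ^ (37 / 10 : ℝ) * (X : ℝ) ^ (37 / 20 : ℝ) := by ring

/-- Row W4b. Final theorem: small `X` by the trivial bound `(2X²+1)(2X³+1)`. -/
theorem theorem_T : ∃ c C : ℝ, 0 < c ∧ 0 < C ∧ ∀ X : ℕ, 1 ≤ X → (Fam X).Finite ∧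
    c * (X : ℝ) ^ 2 ≤ ((Fam X).ncard : ℝ) ∧
    ((Exc X).ncard : ℝ) ≤ C * (X : ℝ) ^ (37 / 20 : ℝ) := by
  obtain ⟨c, hc, hlow⟩ := fam_lower
  obtain ⟨C, hC, X₀, hup⟩ := exc_large
  obtain ⟨M, hM⟩ : ∃ M : ℝ, M = ∑ Y ∈ Finset.range X₀, ((Exc Y).ncard : ℝ) := ⟨_, rfl⟩
  have hM0 : 0 ≤ M := by rw [hM]; positivity
  refine ⟨c, C + M, hc, by linarith, ?_⟩
  intro X hX
  have hX1' : (1:ℝ) ≤ X := by exact_mod_cast hX
  have hX2 : 1 ≤ (X : ℝ) ^ (37 / 20 : ℝ) := Real.one_le_rpow hX1' (by norm_num)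
  refine ⟨fam_finite X, hlow X hX, ?_⟩
  rcases lt_or_ge X X₀ with h | h
  · have h1 : ((Exc X).ncard : ℝ) ≤ M := by
      rw [hM]
      exact Finset.single_le_sum (f := fun Y => ((Exc Y).ncard : ℝ)) (fun Y _ => by positivity)
        (Finset.mem_range.2 h)
    nlinarith
  · have h1 := hup X h
    nlinarith

end T44
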